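import Mathlib

set_option autoImplicit false

namespace Pool.Agent.WeirdK

open Finset

/-- The product of the primes up to `89`. -/
def M97 : ℕ := 23768741896345550770650537601358310

/-- Bit mask of the primes up to `89`. -/
def mask : ℕ := 2 ^ 2 + 2 ^ 3 + 2 ^ 5 + 2 ^ 7 + 2 ^ 11 + 2 ^ 13 + 2 ^ 17 + 2 ^ 19 + 2 ^ 23 +
  2 ^ 29 + 2 ^ 31 + 2 ^ 37 + 2 ^ 41 + 2 ^ 43 + 2 ^ 47 + 2 ^ 53 + 2 ^ 59 + 2 ^ 61 + 2 ^ 67 +
  2 ^ 71 + 2 ^ 73 + 2 ^ 79 + 2 ^ 83 + 2 ^ 89

/-- Primality test, valid below `97 ^ 2`. -/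
def good (m : ℕ) : Bool :=
  (Nat.ble 2 m && Nat.beq (Nat.gcd m M97) 1) || (Nat.ble m 89 && Nat.testBit mask m)

theorem M97_eq : M97 = ∏ p ∈ (Finset.range 97).filter Nat.Prime, p := by
  unfold M97
  rw [Finset.prod_filter]
  simp only [Finset.prod_range_succ, Finset.prod_range_zero]
  norm_num

theorem dvd_M97 {q : ℕ} (hq : q.Prime) (h : q < 97) : q ∣ M97 := by
  rw [M97_eq]
  exact Finset.dvd_prod_of_mem (fun p => p) (by
    rw [Finset.mem_filter, Finset.mem_range]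
    exact ⟨h, hq⟩)

theorem le_of_dvd_M97 {q : ℕ} (hq : q.Prime) (h : q ∣ M97) : q < 97 := by
  rw [M97_eq, Prime.dvd_finsetProd_iff hq.prime] at h
  obtain ⟨p, hp, hqp⟩ := h
  rw [Finset.mem_filter, Finset.mem_range] at hp
  have := (Nat.prime_dvd_prime_iff_eq hq hp.2).mp hqp
  omega

theorem mask_prime : ∀ m < 97, Nat.testBit mask m = true → m.Prime := by
  intro m hm
  interval_cases m <;> first | (intro h; exact absurd h (by decide)) | (intro _; norm_num)

theorem prime_mask : ∀ m < 97, m.Prime → (Nat.ble m 89 && Nat.testBit mask m) = true := by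
  intro m hm
  interval_cases m <;> first | (intro _; decide) | (intro h; exact absurd h (by norm_num))

theorem good_iff {m : ℕ} (hm : m < 8192) : good m = true ↔ m.Prime := by
  unfold good
  rw [Bool.or_eq_true, Bool.and_eq_true]
  constructor
  · rintro (⟨h1, h2⟩ | h)
    · have h2' : 2 ≤ m := Nat.le_of_ble_eq_true h1
      have hg : Nat.gcd m M97 = 1 := Nat.eq_of_beq_eq_true h2
      by_contra hnp
      have hsq := Nat.minFac_sq_le_self (by omega : 0 < m) hnp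
      have hq : (m.minFac).Prime := Nat.minFac_prime (by omega)
      have hlt : m.minFac < 97 := by
        by_contra hcon
        push Not at hcon
        have : 97 ^ 2 ≤ m.minFac ^ 2 := Nat.pow_le_pow_left hcon 2
        omega
      have h3 : m.minFac ∣ Nat.gcd m M97 := Nat.dvd_gcd (Nat.minFac_dvd m) (dvd_M97 hq hlt)
      rw [hg] at h3
      exact hq.one_lt.ne' (Nat.dvd_one.mp h3)
    · rw [Bool.and_eq_true] at h
      have h1 : m ≤ 89 := Nat.le_of_ble_eq_true h.1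
      exact mask_prime m (by omega) h.2
  · intro hp
    by_cases h : m < 97
    · exact Or.inr (prime_mask m h hp)
    · left
      refine ⟨Nat.ble_eq_true_of_le hp.two_le, ?_⟩
      have hg : Nat.gcd m M97 = 1 := by
        have := (Nat.Prime.coprime_iff_not_dvd hp).mpr (fun hd => h (le_of_dvd_M97 hp hd))
        exact this
      rw [hg]
      rfl

/-- Product over `[l, l + 2^f)` by binary splitting. -/
def bp (w : ℕ → ℕ) : ℕ → ℕ → ℕ
  | 0, l => w l
  | f + 1, l => bp w f l * bp w f (l + 2 ^ f)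

/-- Sum over `[l, l + 2^f)` by binary splitting. -/
def bs (w : ℕ → ℕ) : ℕ → ℕ → ℕ
  | 0, l => w l
  | f + 1, l => bs w f l + bs w f (l + 2 ^ f)

theorem bp_eq (w : ℕ → ℕ) (f l : ℕ) : bp w f l = ∏ m ∈ Finset.Ico l (l + 2 ^ f), w m := by
  induction f generalizing l with
  | zero => simp [bp]
  | succ f ih =>
    rw [bp, ih, ih, Finset.prod_Ico_consecutive _ (Nat.le_add_right _ _) (Nat.le_add_right _ _)]
    congr 2
    ring

theorem bs_eq (w : ℕ → ℕ) (f l : ℕ) : bs w f l = ∑ m ∈ Finset.Ico l (l + 2 ^ f), w m := by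
  induction f generalizing l with
  | zero => simp [bs]
  | succ f ih =>
    rw [bs, ih, ih, Finset.sum_Ico_consecutive _ (Nat.le_add_right _ _) (Nat.le_add_right _ _)]
    congr 2
    ring

/-- numerator weight -/
def w1 (m : ℕ) : ℕ := cond (good m) m 1

/-- denominator weight -/
def w2 (m : ℕ) : ℕ := cond (good m) (m - 1) 1

/-- logarithm weight -/
def w3 (m : ℕ) : ℕ := cond (good m) (2 ^ 40 * Nat.log2 (m ^ 64) / m) 0

theorem comp_prod : 100 * bp w1 13 0 ≤ 1607 * bp w2 13 0 := by decide +kernel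

theorem comp_sum : 704 * 2 ^ 40 ≤ bs w3 13 0 := by decide +kernel

/-- The primes below `2 ^ k`. -/
def PB (k : ℕ) : Finset ℕ := (Finset.range (2 ^ k)).filter Nat.Prime

theorem mem_PB {k p : ℕ} : p ∈ PB k ↔ p < 2 ^ k ∧ p.Prime := by
  unfold PB
  rw [Finset.mem_filter, Finset.mem_range]

theorem prod_w1 : bp w1 13 0 = ∏ p ∈ PB 13, p := by
  rw [bp_eq, zero_add, ← Finset.range_eq_Ico, PB, Finset.prod_filter]
  apply Finset.prod_congr rfl
  intro m hm
  rw [Finset.mem_range] at hm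
  have h := good_iff (m := m) (by norm_num at hm; exact hm)
  unfold w1
  split_ifs with hp
  · rw [h.mpr hp]; rfl
  · rw [Bool.not_eq_true _ |>.mp (fun h' => hp (h.mp h'))]; rfl

theorem prod_w2 : bp w2 13 0 = ∏ p ∈ PB 13, (p - 1) := by
  rw [bp_eq, zero_add, ← Finset.range_eq_Ico, PB, Finset.prod_filter]
  apply Finset.prod_congr rfl
  intro m hm
  rw [Finset.mem_range] at hm
  have h := good_iff (m := m) (by norm_num at hm; exact hm)
  unfold w2
  split_ifs with hp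
  · rw [h.mpr hp]; rfl
  · rw [Bool.not_eq_true _ |>.mp (fun h' => hp (h.mp h'))]; rfl

theorem sum_w3 : bs w3 13 0 = ∑ p ∈ PB 13, 2 ^ 40 * Nat.log2 (p ^ 64) / p := by
  rw [bs_eq, zero_add, ← Finset.range_eq_Ico, PB, Finset.sum_filter]
  apply Finset.sum_congr rfl
  intro m hm
  rw [Finset.mem_range] at hm
  have h := good_iff (m := m) (by norm_num at hm; exact hm)
  unfold w3
  split_ifs with hp
  · rw [h.mpr hp]; rfl
  · rw [Bool.not_eq_true _ |>.mp (fun h' => hp (h.mp h'))]; rfl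

/-- `∏_{p < 8192} p / (p - 1) ≤ 16.07`. -/
theorem prod_PB13 : ∏ p ∈ PB 13, ((p : ℝ) / ((p : ℝ) - 1)) ≤ 1607 / 100 := by
  rw [Finset.prod_div_distrib]
  have hD : ∏ p ∈ PB 13, ((p : ℝ) - 1) = ((∏ p ∈ PB 13, (p - 1) : ℕ) : ℝ) := by
    push_cast
    apply Finset.prod_congr rfl
    intro p hp
    rw [Nat.cast_sub (mem_PB.mp hp).2.one_lt.le, Nat.cast_one]
  have hN : ∏ p ∈ PB 13, (p : ℝ) = ((∏ p ∈ PB 13, p : ℕ) : ℝ) := by
    push_cast
    rfl
  have hpos : 0 < ∏ p ∈ PB 13, (p - 1) := by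
    apply Finset.prod_pos
    intro p hp
    have := (mem_PB.mp hp).2.two_le
    omega
  rw [hD, hN, ← prod_w1, ← prod_w2]
  rw [← prod_w2] at hpos
  have hposR : (0 : ℝ) < ((bp w2 13 0 : ℕ) : ℝ) := by exact_mod_cast hpos
  rw [div_le_div_iff₀ hposR (by norm_num)]
  have h : ((100 * bp w1 13 0 : ℕ) : ℝ) ≤ ((1607 * bp w2 13 0 : ℕ) : ℝ) := by
    exact_mod_cast comp_prod
  push_cast at h
  linarith

/-- `∑_{p < 2^k} log p / p`. -/
noncomputable def LA (k : ℕ) : ℝ := ∑ p ∈ PB k, Real.log p / p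

theorem LA13 : 11 * Real.log 2 ≤ LA 13 := by
  have hterm : ∀ p ∈ PB 13, Real.log 2 / (64 * 2 ^ 40) *
      ((2 ^ 40 * Nat.log2 (p ^ 64) / p : ℕ) : ℝ) ≤ Real.log p / p := by
    intro p hp
    have hpp := (mem_PB.mp hp).2
    have hpR : (0 : ℝ) < p := by exact_mod_cast hpp.pos
    have h1 : ((2 ^ 40 * Nat.log2 (p ^ 64) / p : ℕ) : ℝ) ≤
        ((2 ^ 40 * Nat.log2 (p ^ 64) : ℕ) : ℝ) / p := Nat.cast_div_le
    have h2 : 2 ^ Nat.log2 (p ^ 64) ≤ p ^ 64 :=
      Nat.log2_self_le (pow_ne_zero _ hpp.ne_zero)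
    have h3 : (Nat.log2 (p ^ 64) : ℝ) * Real.log 2 ≤ 64 * Real.log p := by
      have h4 : ((2 ^ Nat.log2 (p ^ 64) : ℕ) : ℝ) ≤ ((p ^ 64 : ℕ) : ℝ) := by exact_mod_cast h2
      have h5 := Real.log_le_log (by positivity) h4
      push_cast at h5
      rw [Real.log_pow, Real.log_pow] at h5
      push_cast at h5
      exact h5
    have hl2 : (0 : ℝ) < Real.log 2 := Real.log_pos (by norm_num)
    calc Real.log 2 / (64 * 2 ^ 40) * ((2 ^ 40 * Nat.log2 (p ^ 64) / p : ℕ) : ℝ)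
        ≤ Real.log 2 / (64 * 2 ^ 40) * (((2 ^ 40 * Nat.log2 (p ^ 64) : ℕ) : ℝ) / p) :=
          mul_le_mul_of_nonneg_left h1 (by positivity)
      _ = ((Nat.log2 (p ^ 64) : ℝ) * Real.log 2) / 64 / p := by
          push_cast
          field_simp
          norm_num
      _ ≤ (64 * Real.log p) / 64 / p := by
          apply div_le_div_of_nonneg_right _ hpR.le
          apply div_le_div_of_nonneg_right h3 (by norm_num)
      _ = Real.log p / p := by ring
  unfold LA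
  refine le_trans ?_ (Finset.sum_le_sum hterm)
  rw [← Finset.mul_sum, ← Nat.cast_sum, ← sum_w3]
  have h0 : ((704 * 2 ^ 40 : ℕ) : ℝ) ≤ ((bs w3 13 0 : ℕ) : ℝ) := Nat.cast_le.mpr comp_sum
  have h : (704 * 2 ^ 40 : ℝ) ≤ ((bs w3 13 0 : ℕ) : ℝ) := by
    refine le_trans (le_of_eq ?_) h0
    norm_num
  have hl2 : (0 : ℝ) < Real.log 2 := Real.log_pos (by norm_num)
  calc 11 * Real.log 2 = Real.log 2 / (64 * 2 ^ 40) * (704 * 2 ^ 40) := by
        field_simp
        norm_num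
    _ ≤ Real.log 2 / (64 * 2 ^ 40) * ((bs w3 13 0 : ℕ) : ℝ) :=
        mul_le_mul_of_nonneg_left h (by positivity)

end Pool.Agent.WeirdK
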