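import Pool.Agent.WeirdK.GoodW

set_option autoImplicit false

namespace Pool.Agent.WeirdK

open Finset Pool.Agent.Weird

/-- `n` is a sum of distinct divisors `d` of `n` with `K * d ≤ n`. -/
def Rep (K n : ℕ) : Prop := ∃ s ⊆ n.divisors, (∀ d ∈ s, K * d ≤ n) ∧ ∑ d ∈ s, d = n

theorem rep_of_dvd {K C n k : ℕ} (hn : 0 < n) (hCn : C ∣ n)
    (hC : ∀ p, p.Prime → p ∣ C → 2 ^ k ≤ p) (hK : K ≤ 2 ^ k)
    (h : ∃ s ⊆ C.properDivisors, ∑ i ∈ s, i = C) : Rep K n := by
  classical
  obtain ⟨c, rfl⟩ := hCn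
  obtain ⟨s, hs, hsum⟩ := h
  have hc : 0 < c := Nat.pos_of_ne_zero (fun h0 => by rw [h0, mul_zero] at hn; omega)
  refine ⟨s.image (fun x => x * c), ?_, ?_, ?_⟩
  · intro x hx
    rw [Finset.mem_image] at hx
    obtain ⟨y, hy, rfl⟩ := hx
    have := Nat.mem_properDivisors.mp (hs hy)
    rw [Nat.mem_divisors]
    exact ⟨Nat.mul_dvd_mul_right this.1 _, hn.ne'⟩
  · intro x hx
    rw [Finset.mem_image] at hx
    obtain ⟨y, hy, rfl⟩ := hx
    have hy' := Nat.mem_properDivisors.mp (hs hy)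
    obtain ⟨e, he⟩ := hy'.1
    have he1 : e ≠ 1 := by
      intro h1
      rw [h1, mul_one] at he
      omega
    have hpr := Nat.minFac_prime he1
    have h1 : e.minFac ∣ C := (Nat.minFac_dvd e).trans (he ▸ Dvd.intro_left _ rfl)
    have h2 := hC _ hpr h1
    have he0 : 0 < e := Nat.pos_of_ne_zero (fun h0 => by
      rw [h0, mul_zero] at he
      omega)
    have h3 : K ≤ e := (hK.trans h2).trans (Nat.minFac_le he0)
    calc K * (y * c) = K * y * c := (mul_assoc _ _ _).symm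
      _ ≤ e * y * c := Nat.mul_le_mul_right _ (Nat.mul_le_mul_right _ h3)
      _ = C * c := by rw [he, mul_comm e y]
  · rw [Finset.sum_image, ← Finset.sum_mul, hsum]
    intro x _ y _ hxy
    exact Nat.eq_of_mul_eq_mul_right hc hxy

/-- A good `m` with `S m / m` in the window `[16/15, 16]` is a sum of proper divisors. -/
theorem good_semiperfect {w m : ℕ} (hw : 16 ≤ w) (h : GoodW w m) (h1 : 16 * m ≤ 15 * S m)
    (h2 : S m ≤ 16 * m) : ∃ s ⊆ m.properDivisors, ∑ i ∈ s, i = m := by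
  obtain ⟨a, hwa, hcov⟩ := h
  have ha : 16 * a ≤ S m := (Nat.mul_le_mul_right _ hw).trans hwa
  exact hcov m (by omega) (by omega)

/-- The density threshold: `L i = 2 ^ ((i - 40) / 6)`. -/
def Lf (i : ℕ) : ℕ := 2 ^ ((i - 40) / 6)

theorem Lf_pos (i : ℕ) : 1 ≤ Lf i := Nat.one_le_two_pow

theorem Lf_thr {i : ℕ} (hi : 40 ≤ i) : 2 ^ 40 * Lf i ^ 6 ≤ 2 ^ i := by
  unfold Lf
  rw [← pow_mul, ← pow_add]
  apply Nat.pow_le_pow_right (by norm_num)
  omega

/-- The block `[2^k, 2^(k+1))` contains many primes of `n`. -/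
def DenseL (n k : ℕ) : Prop := 2 ^ k ≤ (Pk n k).card * Lf k

open Classical in
/-- The block factor: the product of `1 + 1/p` over a dense block. -/
noncomputable def pk (n k : ℕ) : ℝ :=
  if DenseL n k then ∏ p ∈ Pk n k, (1 + 1 / (p : ℝ)) else 1

theorem pk_nonneg (n k : ℕ) : 0 ≤ pk n k := by
  unfold pk
  split_ifs
  · exact Finset.prod_nonneg (fun p _ => by positivity)
  · exact zero_le_one

/-- Invariant of the descending procedure. -/
def Base (w n K k B : ℕ) : Prop :=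
  0 < B ∧ B ∣ n ∧ (∀ p, p.Prime → p ∣ B → 2 ^ k ≤ p) ∧
    (B = 1 ∨ (GoodW w B ∧ 2 ^ (k + 2) ≤ S B)) ∧
    ∏ i ∈ Finset.Ico k K, pk n i ≤
      (1 + (S B : ℝ) / B) * ∏ i ∈ Finset.Ico k K, (1 + 2 / (2 : ℝ) ^ i)

theorem base_step {w n K k B : ℕ} (hw : 16 ≤ w) (hwk : w ≤ 2 ^ k) (hk : 40 ≤ k) (hkK : k < K)
    (h : Base w n K (k + 1) B) : ∃ B', Base w n K k B' ∧
      (B' = B ∨ (GoodW w B' ∧ 2 ^ (k + 2) ≤ S B' ∧
        1 + (S B' : ℝ) / B' ≤ 3 * (1 + (S B : ℝ) / B))) := by
  classical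
  obtain ⟨hB, hBn, hBp, hBgood, hBsum⟩ := h
  have hprodD : ∏ i ∈ Finset.Ico k K, pk n i =
      pk n k * ∏ i ∈ Finset.Ico (k + 1) K, pk n i :=
    Finset.prod_eq_prod_Ico_succ_bot hkK _
  have hprod2 : ∏ i ∈ Finset.Ico k K, (1 + 2 / (2 : ℝ) ^ i) =
      (1 + 2 / (2 : ℝ) ^ k) * ∏ i ∈ Finset.Ico (k + 1) K, (1 + 2 / (2 : ℝ) ^ i) :=
    Finset.prod_eq_prod_Ico_succ_bot hkK _
  set X := ∏ i ∈ Finset.Ico (k + 1) K, pk n i with hX
  set Y := ∏ i ∈ Finset.Ico (k + 1) K, (1 + 2 / (2 : ℝ) ^ i) with hY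
  have hX0 : 0 ≤ X := Finset.prod_nonneg (fun i _ => pk_nonneg n i)
  have hY0 : 0 ≤ Y := Finset.prod_nonneg (fun i _ => by positivity)
  have hpow : (0 : ℝ) < 2 / (2 : ℝ) ^ k := by positivity
  have hpowk : 2 ^ k ≤ 2 ^ (k + 1) := Nat.pow_le_pow_right (by norm_num) (by omega)
  have hpowk2 : 2 ^ (k + 2) ≤ 2 ^ (k + 1 + 2) := Nat.pow_le_pow_right (by norm_num) (by omega)
  have hfB0 : (0 : ℝ) ≤ (S B : ℝ) / B := by positivity
  by_cases hdense : DenseL n k
  swap
  · -- not dense: keep B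
    refine ⟨B, ⟨hB, hBn, fun p hp hpB => hpowk.trans (hBp p hp hpB), ?_, ?_⟩, Or.inl rfl⟩
    · rcases hBgood with h1 | ⟨h1, h2⟩
      · exact Or.inl h1
      · exact Or.inr ⟨h1, hpowk2.trans h2⟩
    · have hpk : pk n k = 1 := by
        unfold pk
        rw [if_neg hdense]
      rw [hprodD, hprod2, hpk, one_mul]
      have h1 : 0 ≤ (1 + (S B : ℝ) / B) * Y := by positivity
      nlinarith
  -- dense block
  set A := ∏ p ∈ Pk n k, p with hAdef
  have hPkp : ∀ p ∈ Pk n k, p.Prime := fun p hp => (Pk_prime hp).1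
  have hblock := blockW (w := w) (z := 2 ^ k) (L := Lf k) (P := Pk n k) hwk
    (fun p hp => Pk_prime hp) (Lf_pos k) (Lf_thr (by omega)) hdense
  rw [← hAdef] at hblock
  obtain ⟨hgA, hSA⟩ := hblock
  have hA : 0 < A := Finset.prod_pos (fun p hp => (hPkp p hp).pos)
  have hAn : A ∣ n := by
    have h1 : A ∣ ∏ p ∈ n.primeFactors, p :=
      Finset.prod_dvd_prod_of_subset _ _ _ (Finset.filter_subset _ _)
    exact h1.trans (Nat.prod_primeFactors_dvd n)
  have hAp : ∀ p, p.Prime → p ∣ A → 2 ^ k ≤ p ∧ p < 2 * 2 ^ k := by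
    intro p hp hpA
    rw [hAdef, Prime.dvd_finsetProd_iff hp.prime] at hpA
    obtain ⟨q, hq, hpq⟩ := hpA
    have : p = q := (Nat.prime_dvd_prime_iff_eq hp (hPkp q hq)).mp hpq
    rw [this]
    exact (Pk_prime hq).2
  have hSA' : 2 ^ (k + 2) ≤ S A := by
    calc 2 ^ (k + 2) ≤ 2 ^ (k * 2) := Nat.pow_le_pow_right (by norm_num) (by omega)
      _ = (2 ^ k) ^ 2 := pow_mul _ _ _
      _ ≤ S A := hSA
  have hAR : (0 : ℝ) < A := by exact_mod_cast hA
  have hBR : (0 : ℝ) < B := by exact_mod_cast hB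
  have hσA : ((∑ d ∈ A.divisors, d : ℕ) : ℝ) = A * ∏ p ∈ Pk n k, (1 + 1 / (p : ℝ)) :=
    sigma_prod_real hPkp
  have hskle : sk n k ≤ 1 := by
    refine (sk_le_one n k).trans ?_
    rw [div_le_one (by positivity)]
    exact_mod_cast card_Pk_le n k
  have hprodle : ∏ p ∈ Pk n k, (1 + 1 / (p : ℝ)) ≤ 3 := by
    calc ∏ p ∈ Pk n k, (1 + 1 / (p : ℝ)) ≤ Real.exp (∑ p ∈ Pk n k, 1 / (p : ℝ)) :=
          Real.prod_one_add_le_exp_sum _ (fun p => by positivity)
      _ ≤ Real.exp 1 := Real.exp_le_exp.mpr hskle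
      _ ≤ 3 := by
        have := Real.exp_one_lt_d9
        linarith
  have hpkA : pk n k = 1 + (S A : ℝ) / A := by
    unfold pk
    rw [if_pos hdense, S_real_div hA, hσA, mul_comm, mul_div_assoc, div_self hAR.ne', mul_one]
    ring
  have hfA3 : 1 + (S A : ℝ) / A ≤ 3 := by
    rw [← hpkA]
    unfold pk
    rw [if_pos hdense]
    exact hprodle
  have hσAS := sigma_eq hA
  have hfA0 : (0 : ℝ) ≤ (S A : ℝ) / A := by positivity
  rcases hBgood with hB1 | ⟨hgB, hSB⟩
  · -- B = 1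
    subst hB1
    refine ⟨A, ⟨hA, hAn, fun p hp hpA => (hAp p hp hpA).1, Or.inr ⟨hgA, hSA'⟩, ?_⟩,
      Or.inr ⟨hgA, hSA', by linarith⟩⟩
    rw [hprodD, hprod2, hpkA]
    rw [S_one] at hBsum
    simp only [Nat.cast_zero, zero_div, add_zero, one_mul] at hBsum
    have h1 : X ≤ (1 + 2 / (2 : ℝ) ^ k) * Y := by nlinarith
    exact mul_le_mul_of_nonneg_left h1 (by positivity)
  · by_cases hsz : 2 * B ≤ S B * ∑ d ∈ A.divisors, d
    · -- combine
      have hcop : Nat.Coprime A B := by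
        rw [Nat.coprime_iff_gcd_eq_one]
        by_contra hcon
        have hpr := Nat.minFac_prime hcon
        have h1 : (Nat.gcd A B).minFac ∣ A := (Nat.minFac_dvd _).trans (Nat.gcd_dvd_left _ _)
        have h2 : (Nat.gcd A B).minFac ∣ B := (Nat.minFac_dvd _).trans (Nat.gcd_dvd_right _ _)
        have h3 := (hAp _ hpr h1).2
        have h4 := hBp _ hpr h2
        rw [pow_succ] at h4
        omega
      have hgAB : GoodW w (A * B) := combW hw hcop hA hB hgA hgB (by
        intro p hp hpA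
        have h1 := (hAp p hp hpA).2
        have h2 : 2 ^ (k + 1 + 2) = 8 * 2 ^ k := by ring
        omega) hsz
      have hABn : A * B ∣ n := hcop.mul_dvd_of_dvd_of_dvd hAn hBn
      have hAB : 0 < A * B := Nat.mul_pos hA hB
      have hSAB := S_mul hcop hA hB
      have hABp : ∀ p, p.Prime → p ∣ A * B → 2 ^ k ≤ p := by
        intro p hp hpAB
        rcases (Nat.Prime.dvd_mul hp).mp hpAB with h1 | h1
        · exact (hAp p hp h1).1
        · exact hpowk.trans (hBp p hp h1)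
      have hSAB' : 2 ^ (k + 2) ≤ S (A * B) := by
        calc 2 ^ (k + 2) ≤ S A := hSA'
          _ ≤ B * S A := Nat.le_mul_of_pos_left _ hB
          _ ≤ S (A * B) := by rw [hSAB]; exact Nat.le_add_right _ _
      have hf : (1 + (S (A * B) : ℝ) / ((A * B : ℕ) : ℝ)) =
          (1 + (S A : ℝ) / A) * (1 + (S B : ℝ) / B) := by
        rw [hSAB, hσAS]
        push_cast
        field_simp
        ring
      refine ⟨A * B, ⟨hAB, hABn, hABp, Or.inr ⟨hgAB, hSAB'⟩, ?_⟩,
        Or.inr ⟨hgAB, hSAB', ?_⟩⟩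
      · rw [hprodD, hprod2, hpkA, hf]
        have h1 : (1 + (S A : ℝ) / A) * X ≤
            (1 + (S A : ℝ) / A) * ((1 + (S B : ℝ) / B) * Y) :=
          mul_le_mul_of_nonneg_left hBsum (by positivity)
        have h2 : 0 ≤ (1 + (S A : ℝ) / A) * ((1 + (S B : ℝ) / B) * Y) := by positivity
        nlinarith
      · rw [hf]
        exact mul_le_mul_of_nonneg_right hfA3 (by positivity)
    · -- drop B
      push Not at hsz
      refine ⟨A, ⟨hA, hAn, fun p hp hpA => (hAp p hp hpA).1, Or.inr ⟨hgA, hSA'⟩, ?_⟩,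
        Or.inr ⟨hgA, hSA', by linarith⟩⟩
      rw [hprodD, hprod2, hpkA]
      have hSBlt : (S B : ℝ) / B ≤ 2 / 2 ^ k := by
        rw [div_le_div_iff₀ hBR (by positivity)]
        have hAk : 2 ^ k ≤ A := by
          have hne : (Pk n k).Nonempty := by
            rw [← Finset.card_pos]
            by_contra hcon
            have h0 : (Pk n k).card = 0 := by omega
            unfold DenseL at hdense
            rw [h0, zero_mul] at hdense
            have : 0 < 2 ^ k := by positivity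
            omega
          obtain ⟨q, hq⟩ := hne
          exact (Pk_prime hq).2.1.trans (Nat.le_of_dvd hA (Finset.dvd_prod_of_mem _ hq))
        have h1 : S B * 2 ^ k ≤ 2 * B := by
          calc S B * 2 ^ k ≤ S B * ∑ d ∈ A.divisors, d := Nat.mul_le_mul_left _ (by omega)
            _ ≤ 2 * B := hsz.le
        exact_mod_cast h1
      apply mul_le_mul_of_nonneg_left _ (by positivity)
      calc X ≤ (1 + (S B : ℝ) / B) * Y := hBsum
        _ ≤ (1 + 2 / (2 : ℝ) ^ k) * Y := by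
          apply mul_le_mul_of_nonneg_right _ hY0
          linarith

theorem base_top (w n K : ℕ) : Base w n K K 1 := by
  refine ⟨one_pos, one_dvd _, ?_, Or.inl rfl, ?_⟩
  · intro p hp h
    exact absurd (Nat.dvd_one.mp h) hp.one_lt.ne'
  · simp [S_one]

/-- For a number which is not representable the procedure keeps `S B < (16/15) B`. -/
theorem base_all {n M K k₀ : ℕ} (hn : 0 < n)
    (hns : ¬ Rep M n) (hk₀ : 40 ≤ k₀) (hM : M ≤ 2 ^ k₀) (hK : k₀ ≤ K) :
    ∃ B, Base (2 ^ k₀) n K k₀ B ∧ 15 * S B < 16 * B := by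
  have hw : 16 ≤ 2 ^ k₀ := by
    calc 16 = 2 ^ 4 := by norm_num
      _ ≤ 2 ^ k₀ := Nat.pow_le_pow_right (by norm_num) (by omega)
  have h : ∀ j, j ≤ K - k₀ → ∃ B, Base (2 ^ k₀) n K (K - j) B ∧ 15 * S B < 16 * B := by
    intro j
    induction j with
    | zero =>
      intro _
      exact ⟨1, base_top _ n K, by rw [S_one]; norm_num⟩
    | succ j ih =>
      intro hj
      obtain ⟨B, hB, hBS⟩ := ih (by omega)
      have h2 : K - j = (K - (j + 1)) + 1 := by omega
      rw [h2] at hB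
      set k := K - (j + 1) with hk
      have hwk : 2 ^ k₀ ≤ 2 ^ k := Nat.pow_le_pow_right (by norm_num) (by omega)
      obtain ⟨B', hB', hor⟩ := base_step hw hwk (by omega) (by omega) hB
      refine ⟨B', hB', ?_⟩
      rcases hor with hor | ⟨hg, _, hle⟩
      · rw [hor]; exact hBS
      · by_contra hcon
        push Not at hcon
        obtain ⟨hB'0, hB'n, hB'p, _, _⟩ := hB'
        have hBR : (0 : ℝ) < B := by exact_mod_cast hB.1
        have hB'R : (0 : ℝ) < B' := by exact_mod_cast hB'0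
        have hfB : (S B : ℝ) / B ≤ 16 / 15 := by
          rw [div_le_div_iff₀ hBR (by norm_num)]
          have h : ((15 * S B : ℕ) : ℝ) ≤ ((16 * B : ℕ) : ℝ) := by exact_mod_cast hBS.le
          push_cast at h
          linarith
        have h16 : S B' ≤ 16 * B' := by
          have h3 : (S B' : ℝ) / B' ≤ 16 := by linarith
          rw [div_le_iff₀ hB'R] at h3
          exact_mod_cast h3
        exact hns (rep_of_dvd hn hB'n hB'p (hM.trans hwk) (good_semiperfect hw hg hcon h16))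
  have := h (K - k₀) le_rfl
  rwa [show K - (K - k₀) = k₀ by omega] at this

/-- The stopping alternative: a good divisor `B` of `n` with `1/2 ≤ S B / B` and control of
the dense blocks above `2 ^ j`. -/
def StopW (w n K t : ℕ) : Prop :=
  ∃ j B, t ≤ j ∧ j < K ∧ 0 < B ∧ B ∣ n ∧ (∀ p, p.Prime → p ∣ B → 2 ^ j ≤ p) ∧ GoodW w B ∧
    2 ^ (j + 2) ≤ S B ∧ B ≤ 2 * S B ∧ 2 * S B ≤ 7 * B ∧
    ∏ i ∈ Finset.Ico j K, pk n i ≤ 9 / 2 * ∏ i ∈ Finset.Ico j K, (1 + 2 / (2 : ℝ) ^ i)

theorem stop_or {n K t : ℕ} (ht : 40 ≤ t) (hK : t ≤ K) :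
    (∃ B, Base (2 ^ t) n K t B ∧ 2 * S B < B) ∨ StopW (2 ^ t) n K t := by
  have hw : 16 ≤ 2 ^ t := by
    calc 16 = 2 ^ 4 := by norm_num
      _ ≤ 2 ^ t := Nat.pow_le_pow_right (by norm_num) (by omega)
  have h : ∀ j, j ≤ K - t →
      (∃ B, Base (2 ^ t) n K (K - j) B ∧ 2 * S B < B) ∨ StopW (2 ^ t) n K t := by
    intro j
    induction j with
    | zero =>
      intro _
      exact Or.inl ⟨1, base_top _ n K, by rw [S_one]; norm_num⟩
    | succ j ih =>
      intro hj
      rcases ih (by omega) with ⟨B, hB, hBS⟩ | hstop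
      swap
      · exact Or.inr hstop
      have h2 : K - j = (K - (j + 1)) + 1 := by omega
      rw [h2] at hB
      set k := K - (j + 1) with hk
      have hwk : 2 ^ t ≤ 2 ^ k := Nat.pow_le_pow_right (by norm_num) (by omega)
      obtain ⟨B', hB', hor⟩ := base_step hw hwk (by omega) (by omega) hB
      rcases hor with hor | ⟨hg, hS2, hle⟩
      · left
        exact ⟨B', hB', by rw [hor]; exact hBS⟩
      · by_cases hcon : 2 * S B' < B'
        · exact Or.inl ⟨B', hB', hcon⟩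
        · right
          push Not at hcon
          obtain ⟨hB'0, hB'n, hB'p, _, hprod⟩ := hB'
          have hBR : (0 : ℝ) < B := by exact_mod_cast hB.1
          have hB'R : (0 : ℝ) < B' := by exact_mod_cast hB'0
          have hfB : (S B : ℝ) / B ≤ 1 / 2 := by
            rw [div_le_div_iff₀ hBR (by norm_num)]
            have h : ((2 * S B : ℕ) : ℝ) ≤ ((B : ℕ) : ℝ) := by exact_mod_cast hBS.le
            push_cast at h
            linarith
          have hf' : 1 + (S B' : ℝ) / B' ≤ 9 / 2 := by linarith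
          have h7 : 2 * S B' ≤ 7 * B' := by
            have h3 : (S B' : ℝ) / B' ≤ 7 / 2 := by linarith
            rw [div_le_div_iff₀ hB'R (by norm_num)] at h3
            have h4 : (2 : ℝ) * S B' ≤ 7 * B' := by linarith
            exact_mod_cast h4
          refine ⟨k, B', by omega, by omega, hB'0, hB'n, hB'p, hg, hS2, hcon, h7, ?_⟩
          refine hprod.trans ?_
          apply mul_le_mul_of_nonneg_right hf'
          exact Finset.prod_nonneg (fun i _ => by positivity)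
  have := h (K - t) le_rfl
  rwa [show K - (K - t) = t by omega] at this

end Pool.Agent.WeirdK
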