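import Pool.Agent.Weird.Assembly

set_option autoImplicit false

namespace Pool.Agent.WeirdK

open Finset Pool.Agent.Weird

/-- The range `[a, S m - a]` consists of sums of distinct proper divisors of `m`, where
`w * a ≤ S m`. -/
def GoodW (w m : ℕ) : Prop := ∃ a, w * a ≤ S m ∧ Cov m.properDivisors a (S m - a)

theorem blockW {w z L : ℕ} {P : Finset ℕ} (hwz : w ≤ z)
    (hP : ∀ p ∈ P, p.Prime ∧ z ≤ p ∧ p < 2 * z)
    (hL : 1 ≤ L) (hz : 2 ^ 40 * L ^ 6 ≤ z) (hcard : z ≤ P.card * L) :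
    GoodW w (∏ p ∈ P, p) ∧ z ^ 2 ≤ S (∏ p ∈ P, p) := by
  classical
  have hL6 : 1 ≤ L ^ 6 := Nat.one_le_pow _ _ hL
  have hL5 : L ≤ L ^ 5 := by
    calc L = L ^ 1 := (pow_one L).symm
      _ ≤ L ^ 5 := Nat.pow_le_pow_right hL (by norm_num)
  have hzbig : 2 ^ 40 ≤ z := by omega
  have hJbig : 2 ^ 40 * L ^ 5 ≤ P.card := by
    have h2 : (2 ^ 40 * L ^ 5) * L ≤ P.card * L := by
      calc (2 ^ 40 * L ^ 5) * L = 2 ^ 40 * L ^ 6 := by ring
        _ ≤ z := hz
        _ ≤ _ := hcard
    exact Nat.le_of_mul_le_mul_right h2 (by omega)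
  have hPp : ∀ p ∈ P, p.Prime := fun p hp => (hP p hp).1
  -- P1
  obtain ⟨P1, hP1, hP1c⟩ := Finset.exists_subset_card_eq (show P.card / 4 ≤ P.card by omega)
  obtain ⟨Q, hQ, hQc⟩ := Finset.exists_subset_card_eq (s := P \ P1) (n := 16 * L) (by
    have := Finset.card_sdiff_add_card_eq_card hP1
    omega)
  have hP1disjQ : Disjoint P1 Q := by
    rw [Finset.disjoint_left]
    intro x hx hx'
    exact (Finset.mem_sdiff.mp (hQ hx')).2 hx
  have hQP : Q ⊆ P := hQ.trans Finset.sdiff_subset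
  obtain ⟨D1, hD1, a1, b1, hab1, hcov1⟩ := stage1 (z := z) (L := L) (P := P1)
    (fun p hp => hP p (hP1 hp)) hL hz (by
      calc z ≤ P.card * L := hcard
        _ ≤ (8 * P1.card) * L := Nat.mul_le_mul_right _ (by omega))
  obtain ⟨D, hD, a, b, hab, hcov⟩ := extend (z := z) (by omega) hD1 hab1 hcov1 Q (by
    intro q hq
    have hqP := hP q (hQP hq)
    refine ⟨hqP.1, ?_, hqP.2.1, hqP.2.2.le⟩
    intro hdvd
    rw [Prime.dvd_finsetProd_iff hqP.1.prime] at hdvd
    obtain ⟨x, hx, hqx⟩ := hdvd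
    have : q = x := (Nat.prime_dvd_prime_iff_eq hqP.1 (hPp x (hP1 hx))).mp hqx
    exact Finset.disjoint_left.mp hP1disjQ (this ▸ hx) hq)
  rw [hQc] at hab
  rw [← Finset.prod_union hP1disjQ] at hD
  set Ps := P1 ∪ Q with hPs
  have hPsP : Ps ⊆ P := Finset.union_subset hP1 hQP
  have hPscard : Ps.card + 2 ≤ P.card := by
    have := Finset.card_union_le P1 Q
    rw [← hPs] at this
    omega
  set m := ∏ p ∈ P, p with hm
  set ms := ∏ p ∈ Ps, p with hms
  have hmpos : 0 < m := Finset.prod_pos (fun p hp => (hP p hp).1.pos)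
  have hmspos : 0 < ms := Finset.prod_pos (fun p hp => (hP p (hPsP hp)).1.pos)
  have hmsm : ms ∣ m := Finset.prod_dvd_prod_of_subset _ _ _ hPsP
  -- two nonspecial primes
  have hns : 2 ≤ (P \ Ps).card := by
    have := Finset.card_sdiff_add_card_eq_card hPsP
    omega
  obtain ⟨p0, hp0, p1, hp1, hp01⟩ := Finset.one_lt_card.mp (show 1 < (P \ Ps).card by omega)
  rw [Finset.mem_sdiff] at hp0 hp1
  -- c = product of nonspecial primes except p1
  set c := ∏ p ∈ (P \ Ps).erase p1, p with hc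
  have hcpos : 0 < c := Finset.prod_pos (fun p hp =>
    (hP p (Finset.mem_sdiff.mp (Finset.erase_subset _ _ hp)).1).1.pos)
  have hmeq : ms * c * p1 = m := by
    have h1 : c * p1 = ∏ p ∈ P \ Ps, p :=
      Finset.prod_erase_mul _ _ (Finset.mem_sdiff.mpr hp1)
    rw [mul_assoc, h1, mul_comm, Finset.prod_sdiff hPsP]
  have hp0c : p0 ∣ c := Finset.dvd_prod_of_mem _ (by
    rw [Finset.mem_erase, Finset.mem_sdiff]
    exact ⟨hp01, hp0⟩)
  have hcz : z ≤ c := (hP p0 hp0.1).2.1.trans (Nat.le_of_dvd hcpos hp0c)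
  have hp1z := hP p1 hp1.1
  have hmscm : ms * c < m := by
    rw [← hmeq]
    have h1 : 0 < ms * c := Nat.mul_pos hmspos hcpos
    have h2 : 1 < p1 := hp1z.1.one_lt
    nlinarith
  -- S m ≥ σ(ms) * c
  have hSm : (∑ d ∈ ms.divisors, d) * c ≤ S m := by
    unfold S
    rw [Finset.sum_mul,
      ← Finset.sum_image (s := ms.divisors) (g := fun d => d * c) (f := fun d => d)]
    · apply Finset.sum_le_sum_of_subset
      intro x hx
      rw [Finset.mem_image] at hx
      obtain ⟨d, hd, rfl⟩ := hx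
      have hdms : d ∣ ms := Nat.dvd_of_mem_divisors hd
      rw [Nat.mem_properDivisors]
      constructor
      · calc d * c ∣ ms * c := Nat.mul_dvd_mul_right hdms _
          _ ∣ m := Dvd.intro _ hmeq
      · calc d * c ≤ ms * c := Nat.mul_le_mul_right _ (Nat.le_of_dvd hmspos hdms)
          _ < m := hmscm
    · intro x _ y _ hxy
      exact Nat.eq_of_mul_eq_mul_right hcpos hxy
  have hDdiv : D ⊆ ms.divisors := fun d hd => Nat.mem_divisors.mpr ⟨hD d hd, hmspos.ne'⟩
  have hDsum : ∑ d ∈ D, d ≤ ∑ d ∈ ms.divisors, d := Finset.sum_le_sum_of_subset hDdiv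
  -- R
  set R := m.divisors.filter (fun d => d ≠ m ∧ ¬ d ∣ ms) with hR
  have hDR : Disjoint D R := by
    rw [Finset.disjoint_left]
    intro x hx hx'
    rw [hR, Finset.mem_filter] at hx'
    exact hx'.2.2 (hD x hx)
  have hab' : a ≤ b := by omega
  have hstep := hcov.greedy hab' R hDR (by
    intro e he
    rw [hR, Finset.mem_filter, Nat.mem_divisors] at he
    have := greedy_step (z := z) (L := L) hP hL hz hcard hPsP he.1.1 he.2.1 he.2.2
    rw [← hm, ← hms, ← hR] at this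
    omega)
  -- R'
  set R' := ms.divisors \ D with hR'
  have hDRR' : Disjoint (D ∪ R) R' := by
    rw [Finset.disjoint_left]
    intro x hx hx'
    rw [hR', Finset.mem_sdiff, Nat.mem_divisors] at hx'
    rcases Finset.mem_union.mp hx with hx | hx
    · exact hx'.2 hx
    · rw [hR, Finset.mem_filter] at hx
      exact hx.2.2 hx'.1.1
  have hmem : ms * c ∈ R := by
    rw [hR, Finset.mem_filter, Nat.mem_divisors]
    refine ⟨⟨Dvd.intro _ hmeq, hmpos.ne'⟩, hmscm.ne, ?_⟩
    intro hcon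
    have h1 : p0 ∣ ms := (hp0c.trans (Dvd.intro_left _ rfl)).trans hcon
    rw [hms, Prime.dvd_finsetProd_iff (hPp p0 hp0.1).prime] at h1
    obtain ⟨x, hx, hqx⟩ := h1
    have : p0 = x := (Nat.prime_dvd_prime_iff_eq (hPp p0 hp0.1) (hPp x (hPsP hx))).mp hqx
    exact hp0.2 (this ▸ hx)
  have hRsum : ms ≤ ∑ d ∈ R, d := by
    calc ms ≤ ms * c := Nat.le_mul_of_pos_right _ hcpos
      _ ≤ ∑ d ∈ R, d := Finset.single_le_sum (f := fun d => d) (fun _ _ => Nat.zero_le _) hmem
  have hstep2 := hstep.greedy (by omega) R' hDRR' (by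
    intro e he
    rw [hR', Finset.mem_sdiff, Nat.mem_divisors] at he
    have := Nat.le_of_dvd hmspos he.1.1
    omega)
  -- union is the set of proper divisors
  have hunion : D ∪ R ∪ R' = m.properDivisors := by
    ext x
    rw [Finset.mem_union, Finset.mem_union, hR, hR', Finset.mem_filter, Finset.mem_sdiff,
      Nat.mem_divisors, Nat.mem_divisors, Nat.mem_properDivisors]
    have hmslt : ms < m := lt_of_le_of_lt (Nat.le_mul_of_pos_right _ hcpos) hmscm
    constructor
    · rintro ((hx | hx) | hx)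
      · have h1 := hD x hx
        exact ⟨h1.trans hmsm, lt_of_le_of_lt (Nat.le_of_dvd hmspos h1) hmslt⟩
      · exact ⟨hx.1.1, lt_of_le_of_ne (Nat.le_of_dvd hmpos hx.1.1) hx.2.1⟩
      · exact ⟨hx.1.1.trans hmsm, lt_of_le_of_lt (Nat.le_of_dvd hmspos hx.1.1) hmslt⟩
    · rintro ⟨h1, h2⟩
      by_cases hxD : x ∈ D
      · exact Or.inl (Or.inl hxD)
      · by_cases hxms : x ∣ ms
        · exact Or.inr ⟨⟨hxms, hmspos.ne'⟩, hxD⟩
        · exact Or.inl (Or.inr ⟨⟨h1, hmpos.ne'⟩, h2.ne, hxms⟩)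
  have hSeq : S m = ∑ d ∈ D, d + ∑ d ∈ R, d + ∑ d ∈ R', d := by
    unfold S
    rw [← hunion, Finset.sum_union hDRR', Finset.sum_union hDR]
  rw [hunion] at hstep2
  refine ⟨⟨∑ d ∈ D, d, ?_, ?_⟩, ?_⟩
  · calc w * ∑ d ∈ D, d ≤ w * ∑ d ∈ ms.divisors, d := Nat.mul_le_mul_left _ hDsum
      _ = (∑ d ∈ ms.divisors, d) * w := mul_comm _ _
      _ ≤ (∑ d ∈ ms.divisors, d) * c := Nat.mul_le_mul_left _ (by omega)
      _ ≤ S m := hSm
  · have hbD := hcov.le_sum hab'
    exact hstep2.mono (by omega) (by omega)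
  · -- z ^ 2 ≤ S m
    have hmsz : z ≤ ms := by
      have hne : Q.Nonempty := by
        rw [← Finset.card_pos, hQc]; omega
      obtain ⟨q, hq⟩ := hne
      have hqs : q ∣ ms := Finset.dvd_prod_of_mem _ (Finset.mem_union_right _ hq)
      exact (hP q (hQP hq)).2.1.trans (Nat.le_of_dvd hmspos hqs)
    calc z ^ 2 = z * z := sq z
      _ ≤ ms * c := Nat.mul_le_mul hmsz hcz
      _ ≤ (∑ d ∈ ms.divisors, d) * c := by
        apply Nat.mul_le_mul_right
        exact Finset.single_le_sum (f := fun d => d) (fun _ _ => Nat.zero_le _)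
          (Nat.mem_divisors_self _ hmspos.ne')
      _ ≤ S m := hSm

theorem combW {w A B : ℕ} (hw : 16 ≤ w) (hcop : Nat.Coprime A B) (hA : 0 < A) (hB : 0 < B)
    (hgA : GoodW w A) (hgB : GoodW w B) (hp : ∀ p, p.Prime → p ∣ A → 2 * p ≤ S B)
    (hsz : 2 * B ≤ S B * ∑ d ∈ A.divisors, d) : GoodW w (A * B) := by
  classical
  obtain ⟨aA, hwA, hcA⟩ := hgA
  obtain ⟨aB, hwB, hcB⟩ := hgB
  have haA : 16 * aA ≤ S A := (Nat.mul_le_mul_right _ hw).trans hwA
  have haB : 16 * aB ≤ S B := (Nat.mul_le_mul_right _ hw).trans hwB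
  have hdiv1 : ∀ e ∈ A.divisors, e = 1 ∨ ∃ e' ∈ A.divisors, e' < e ∧ e ≤ (S B - aB - aB) * e' := by
    intro e he
    rcases eq_or_ne e 1 with h | h
    · exact Or.inl h
    · right
      have hedvd : e ∣ A := Nat.dvd_of_mem_divisors he
      have hepos : 0 < e := Nat.pos_of_dvd_of_pos hedvd hA
      have hpr := Nat.minFac_prime h
      have hpd : e.minFac ∣ e := Nat.minFac_dvd e
      obtain ⟨e', he'⟩ := hpd
      have he'pos : 0 < e' := by
        rcases Nat.eq_zero_or_pos e' with h0 | h0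
        · rw [h0, mul_zero] at he'; omega
        · exact h0
      refine ⟨e', Nat.mem_divisors.mpr ⟨(Dvd.intro_left _ he'.symm).trans hedvd, hA.ne'⟩, ?_, ?_⟩
      · have := hpr.one_lt
        nlinarith
      · have h2 := hp e.minFac hpr ((Nat.minFac_dvd e).trans hedvd)
        calc e = e.minFac * e' := he'
          _ ≤ (S B - aB - aB) * e' := Nat.mul_le_mul_right _ (by omega)
  have hstep1 := cov_biUnion hcop hA (by omega : aB ≤ S B - aB) hcB A.divisors
    (fun e he => Nat.dvd_of_mem_divisors he) hdiv1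
  set σA := ∑ d ∈ A.divisors, d with hσA
  have hdisj : Disjoint (A.divisors.biUnion (fun d => B.properDivisors.image (fun x => d * x)))
      (A.properDivisors.image (fun x => B * x)) := by
    rw [Finset.disjoint_left]
    intro x hx hx'
    rw [Finset.mem_biUnion] at hx
    obtain ⟨d, hd, hx⟩ := hx
    rw [Finset.mem_image] at hx hx'
    obtain ⟨f, hf, rfl⟩ := hx
    obtain ⟨g, hg, hge⟩ := hx'
    rw [mul_comm B g] at hge
    have := (cop_mul_inj hcop (Nat.mem_properDivisors.mp hg).1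
      (Nat.dvd_of_mem_divisors hd) (dvd_refl B)
      (Nat.mem_properDivisors.mp hf).1 hA hge).2
    have h3 := (Nat.mem_properDivisors.mp hf).2
    omega
  have hlen : B ≤ (S B - aB) * σA - aB * σA + 1 := by
    rw [← Nat.sub_mul]
    have h1 : S B ≤ 2 * (S B - aB - aB) := by omega
    have h2 : 2 * B ≤ 2 * ((S B - aB - aB) * σA) := by
      calc 2 * B ≤ S B * σA := hsz
        _ ≤ (2 * (S B - aB - aB)) * σA := Nat.mul_le_mul_right _ h1
        _ = 2 * ((S B - aB - aB) * σA) := by ring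
    omega
  have hstep2 := Cov.union_smul hstep1 hcA (Nat.mul_le_mul_right _ (by omega)) (by omega) hB
    hdisj hlen
  have hS := S_mul hcop hA hB
  rw [← hσA] at hS
  refine ⟨aB * σA + B * aA, ?_, ?_⟩
  · rw [hS]
    calc w * (aB * σA + B * aA) = B * (w * aA) + σA * (w * aB) := by ring
      _ ≤ B * S A + σA * S B :=
        Nat.add_le_add (Nat.mul_le_mul_left _ hwA) (Nat.mul_le_mul_left _ hwB)
  · have hsub : (A.divisors.biUnion (fun d => B.properDivisors.image (fun x => d * x))) ∪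
      (A.properDivisors.image (fun x => B * x)) ⊆ (A * B).properDivisors := by
      intro x hx
      rw [Finset.mem_union, Finset.mem_biUnion] at hx
      rw [Nat.mem_properDivisors]
      rcases hx with ⟨d, hd, hx⟩ | hx
      · rw [Finset.mem_image] at hx
        obtain ⟨f, hf, rfl⟩ := hx
        rw [Nat.mem_properDivisors] at hf
        have hd' := Nat.dvd_of_mem_divisors hd
        refine ⟨Nat.mul_dvd_mul hd' hf.1, ?_⟩
        exact Nat.mul_lt_mul_of_le_of_lt (Nat.le_of_dvd hA hd') hf.2 hA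
      · rw [Finset.mem_image] at hx
        obtain ⟨g, hg, rfl⟩ := hx
        rw [Nat.mem_properDivisors] at hg
        rw [mul_comm A B]
        exact ⟨Nat.mul_dvd_mul_left _ hg.1, Nat.mul_lt_mul_of_pos_left hg.2 hB⟩
    have hb : S (A * B) - (aB * σA + B * aA) = (S B - aB) * σA + B * (S A - aA) := by
      rw [hS, Nat.sub_mul, Nat.mul_sub]
      have h1 : aB * σA ≤ S B * σA := Nat.mul_le_mul_right _ (by omega)
      have h2 : B * aA ≤ B * S A := Nat.mul_le_mul_left _ (by omega)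
      have h3 : σA * S B = S B * σA := mul_comm _ _
      omega
    rw [hb]
    exact hstep2.subset hsub

end Pool.Agent.WeirdK
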