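import Pool.Agent.WeirdK.Comp

set_option autoImplicit false

namespace Pool.Agent.WeirdK

open Finset

/-- The primes in `[2 ^ i, 2 ^ (i + 1))`. -/
def QB (i : ℕ) : Finset ℕ := (Finset.Ico (2 ^ i) (2 ^ (i + 1))).filter Nat.Prime

theorem mem_QB {i p : ℕ} : p ∈ QB i ↔ (2 ^ i ≤ p ∧ p < 2 ^ (i + 1)) ∧ p.Prime := by
  unfold QB
  rw [Finset.mem_filter, Finset.mem_Ico]

theorem PB_succ (i : ℕ) : PB (i + 1) = PB i ∪ QB i := by
  ext p
  rw [Finset.mem_union, mem_PB, mem_PB, mem_QB]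
  have h : 2 ^ i ≤ 2 ^ (i + 1) := Nat.pow_le_pow_right (by norm_num) (by omega)
  constructor
  · rintro ⟨h1, h2⟩
    by_cases h3 : p < 2 ^ i
    · exact Or.inl ⟨h3, h2⟩
    · exact Or.inr ⟨⟨by omega, h1⟩, h2⟩
  · rintro (⟨h1, h2⟩ | ⟨⟨h1, h3⟩, h2⟩)
    · exact ⟨by omega, h2⟩
    · exact ⟨h3, h2⟩

theorem PB_disj (i : ℕ) : Disjoint (PB i) (QB i) := by
  rw [Finset.disjoint_left]
  intro p h1 h2
  have := (mem_PB.mp h1).1
  have := (mem_QB.mp h2).1.1
  omega

theorem sum_log_div_le (P : Finset ℕ) (hP : ∀ p ∈ P, p.Prime) (n : ℕ) :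
    ∑ p ∈ P, Real.log p * ((n / p : ℕ) : ℝ) ≤ Real.log (n.factorial : ℝ) := by
  induction n with
  | zero => simp
  | succ n ih =>
    have h1 : ∀ p ∈ P, Real.log p * (((n + 1) / p : ℕ) : ℝ) =
        Real.log p * ((n / p : ℕ) : ℝ) + (if p ∣ n + 1 then Real.log p else 0) := by
      intro p _
      rw [Nat.succ_div]
      split_ifs with h
      · push_cast; ring
      · push_cast; ring
    have hf : Real.log (((n + 1).factorial : ℕ) : ℝ) =
        Real.log ((n + 1 : ℕ) : ℝ) + Real.log (n.factorial : ℝ) := by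
      rw [Nat.factorial_succ, Nat.cast_mul, Real.log_mul]
      · exact_mod_cast Nat.succ_ne_zero n
      · exact_mod_cast Nat.factorial_ne_zero n
    rw [Finset.sum_congr rfl h1, Finset.sum_add_distrib, hf]
    have h2 : ∑ p ∈ P, (if p ∣ n + 1 then Real.log (p : ℝ) else 0) ≤
        Real.log ((n + 1 : ℕ) : ℝ) := by
      rw [← Finset.sum_filter]
      have h4 : P.filter (fun p => p ∣ n + 1) ⊆ (n + 1).primeFactors := by
        intro p hp
        rw [Finset.mem_filter] at hp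
        exact Nat.mem_primeFactors.mpr ⟨hP p hp.1, hp.2, Nat.succ_ne_zero n⟩
      have h3 : ∏ p ∈ P.filter (fun p => p ∣ n + 1), p ∣ n + 1 :=
        (Finset.prod_dvd_prod_of_subset _ _ _ h4).trans (Nat.prod_primeFactors_dvd _)
      have h5 := Nat.le_of_dvd (Nat.succ_pos n) h3
      have h6 : ((∏ p ∈ P.filter (fun p => p ∣ n + 1), p : ℕ) : ℝ) ≤ ((n + 1 : ℕ) : ℝ) := by
        exact_mod_cast h5
      have h7 : 0 < ∏ p ∈ P.filter (fun p => p ∣ n + 1), p :=
        Finset.prod_pos (fun p hp => (hP p (Finset.mem_filter.mp hp).1).pos)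
      have h8 : (0 : ℝ) < ((∏ p ∈ P.filter (fun p => p ∣ n + 1), p : ℕ) : ℝ) := by
        exact_mod_cast h7
      have h9 := Real.log_le_log h8 h6
      rw [Nat.cast_prod, Real.log_prod] at h9
      · exact h9
      · intro p hp
        exact_mod_cast (hP p (Finset.mem_filter.mp hp).1).ne_zero
    linarith

theorem log_factorial_le (n : ℕ) (hn : 1 ≤ n) :
    Real.log (n.factorial : ℝ) ≤ (n + 1) * Real.log n - n + 1 := by
  induction n, hn using Nat.le_induction with
  | base => simp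
  | succ n hn ih =>
    have hnR : (0 : ℝ) < n := by exact_mod_cast hn
    have hf : Real.log (((n + 1).factorial : ℕ) : ℝ) =
        Real.log ((n + 1 : ℕ) : ℝ) + Real.log (n.factorial : ℝ) := by
      rw [Nat.factorial_succ, Nat.cast_mul, Real.log_mul]
      · exact_mod_cast Nat.succ_ne_zero n
      · exact_mod_cast Nat.factorial_ne_zero n
    rw [hf]
    push_cast
    have h1 := Real.one_sub_inv_le_log_of_pos (show (0 : ℝ) < (n + 1) / n by positivity)
    rw [Real.log_div (by positivity) hnR.ne', inv_div] at h1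
    have h2 : 1 - (n : ℝ) / (n + 1) = 1 / (n + 1) := by
      field_simp
      ring
    rw [h2, div_le_iff₀ (by positivity)] at h1
    nlinarith

theorem theta_PB (k : ℕ) : ∑ p ∈ PB k, Real.log (p : ℝ) ≤ 2 ^ k * (2 * Real.log 2) := by
  have h0 : PB k ⊆ (Finset.range (2 ^ k + 1)).filter Nat.Prime := by
    intro p hp
    have := mem_PB.mp hp
    rw [Finset.mem_filter, Finset.mem_range]
    exact ⟨by omega, this.2⟩
  have h1 : ∑ p ∈ PB k, Real.log (p : ℝ) ≤
      ∑ p ∈ (Finset.range (2 ^ k + 1)).filter Nat.Prime, Real.log (p : ℝ) := by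
    apply Finset.sum_le_sum_of_subset_of_nonneg h0
    intro p hp _
    exact Real.log_natCast_nonneg p
  refine h1.trans ?_
  have h2 := primorial_le_four_pow (2 ^ k)
  unfold primorial at h2
  have h3 : ((∏ p ∈ (Finset.range (2 ^ k + 1)).filter Nat.Prime, p : ℕ) : ℝ) ≤
      ((4 ^ 2 ^ k : ℕ) : ℝ) := by exact_mod_cast h2
  have h4 : 0 < ∏ p ∈ (Finset.range (2 ^ k + 1)).filter Nat.Prime, p :=
    Finset.prod_pos (fun p hp => (Finset.mem_filter.mp hp).2.pos)
  have h5 := Real.log_le_log (by exact_mod_cast h4) h3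
  rw [Nat.cast_prod, Real.log_prod] at h5
  · refine h5.trans (le_of_eq ?_)
    push_cast
    rw [Real.log_pow, show (4 : ℝ) = 2 ^ 2 by norm_num, Real.log_pow]
    push_cast
    ring
  · intro p hp
    exact_mod_cast (Finset.mem_filter.mp hp).2.ne_zero

theorem LA_le (k : ℕ) (hk : 14 ≤ k) : LA k ≤ k * Real.log 2 + 387 / 1000 := by
  have hl := Real.log_two_lt_d9
  have hl0 : (0 : ℝ) < Real.log 2 := Real.log_pos (by norm_num)
  have h1 := sum_log_div_le (PB k) (fun p hp => (mem_PB.mp hp).2) (2 ^ k)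
  have h2 := log_factorial_le (2 ^ k) (Nat.one_le_two_pow)
  have h3 := theta_PB k
  have h4 : 2 ^ k * LA k - ∑ p ∈ PB k, Real.log (p : ℝ) ≤
      ∑ p ∈ PB k, Real.log p * ((2 ^ k / p : ℕ) : ℝ) := by
    unfold LA
    rw [Finset.mul_sum, ← Finset.sum_sub_distrib]
    apply Finset.sum_le_sum
    intro p hp
    have hpp := (mem_PB.mp hp).2
    have hpR : (0 : ℝ) < p := by exact_mod_cast hpp.pos
    have h5 : ((2 ^ k : ℕ) : ℝ) / p - 1 ≤ ((2 ^ k / p : ℕ) : ℝ) := by
      have h6 : 2 ^ k < p * (2 ^ k / p + 1) := Nat.lt_mul_div_succ (2 ^ k) hpp.pos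
      have h7 : ((2 ^ k : ℕ) : ℝ) < ((p * (2 ^ k / p + 1) : ℕ) : ℝ) := by exact_mod_cast h6
      rw [sub_le_iff_le_add, div_le_iff₀ hpR]
      rw [Nat.cast_mul, Nat.cast_add, Nat.cast_one] at h7
      linarith
    have h8 : 0 ≤ Real.log (p : ℝ) := Real.log_natCast_nonneg p
    have h9 := mul_le_mul_of_nonneg_left h5 h8
    refine le_trans (le_of_eq ?_) h9
    push_cast
    field_simp
  have hpow : (2 ^ 14 : ℝ) ≤ 2 ^ k := pow_le_pow_right₀ (by norm_num) hk
  have h10 : (k : ℝ) * Real.log 2 + 1 ≤ 7 / 10000 * 2 ^ k := by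
    clear h1 h2 h3 h4 hpow
    induction k, hk using Nat.le_induction with
    | base =>
      push_cast
      norm_num
      linarith
    | succ m hm ih =>
      rw [pow_succ]
      push_cast
      have hmR : (14 : ℝ) ≤ m := by exact_mod_cast hm
      nlinarith
  push_cast at h2
  rw [Real.log_pow] at h2
  have h11 : 2 ^ k * LA k ≤ 2 ^ k * (k * Real.log 2 + 387 / 1000) := by
    nlinarith
  exact le_of_mul_le_mul_left h11 (by positivity)

theorem QB_sum_le (i : ℕ) (hi : 1 ≤ i) :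
    ∑ p ∈ QB i, 1 / (p : ℝ) ≤ (LA (i + 1) - LA i) / (i * Real.log 2) := by
  have hl0 : (0 : ℝ) < Real.log 2 := Real.log_pos (by norm_num)
  have hiR : (0 : ℝ) < i := by exact_mod_cast hi
  have h1 : LA (i + 1) - LA i = ∑ p ∈ QB i, Real.log p / p := by
    unfold LA
    rw [PB_succ, Finset.sum_union (PB_disj i)]
    ring
  rw [h1, le_div_iff₀ (by positivity), Finset.sum_mul]
  apply Finset.sum_le_sum
  intro p hp
  have h2 := mem_QB.mp hp
  have hpR : (0 : ℝ) < p := by exact_mod_cast h2.2.pos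
  have h3 : ((2 ^ i : ℕ) : ℝ) ≤ p := by exact_mod_cast h2.1.1
  have h4 := Real.log_le_log (by positivity) h3
  push_cast at h4
  rw [Real.log_pow] at h4
  rw [div_mul_eq_mul_div, one_mul]
  exact div_le_div_of_nonneg_right h4 hpR.le

theorem T_le (k : ℕ) (hk : 14 ≤ k) :
    ∑ i ∈ Finset.Ico 13 k, ∑ p ∈ QB i, 1 / (p : ℝ) ≤
      (LA k - 387 / 1000) / ((k - 1) * Real.log 2) + ∑ j ∈ Finset.Ico 13 (k - 1), 1 / (j : ℝ)
        - (LA 13 - 387 / 1000) / (13 * Real.log 2) := by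
  have hl0 : (0 : ℝ) < Real.log 2 := Real.log_pos (by norm_num)
  induction k, hk using Nat.le_induction with
  | base =>
    have h1 := QB_sum_le 13 (by norm_num)
    rw [show Finset.Ico 13 14 = {13} by rfl, Finset.sum_singleton]
    have h2 : Finset.Ico 13 (14 - 1) = (∅ : Finset ℕ) := by rfl
    rw [h2, Finset.sum_empty]
    refine h1.trans (le_of_eq ?_)
    push_cast
    norm_num
    ring
  | succ k hk ih =>
    have hkR : (14 : ℝ) ≤ k := by exact_mod_cast hk
    have h1 := QB_sum_le k (by omega)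
    have h2 := LA_le k hk
    rw [Finset.sum_Ico_succ_top (by omega : 13 ≤ k)]
    have h3 : Finset.Ico 13 (k + 1 - 1) = Finset.Ico 13 ((k - 1) + 1) := by
      congr 1
      omega
    rw [h3, Finset.sum_Ico_succ_top (by omega : 13 ≤ k - 1)]
    have hc : ((k - 1 : ℕ) : ℝ) = (k : ℝ) - 1 := by
      rw [Nat.cast_sub (by omega), Nat.cast_one]
    rw [hc]
    push_cast
    have hk1 : (0 : ℝ) < (k : ℝ) - 1 := by linarith
    have hk0 : (0 : ℝ) < (k : ℝ) := by linarith
    have h4 : (LA k - 387 / 1000) / (((k : ℝ) - 1) * Real.log 2) -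
        (LA k - 387 / 1000) / ((k : ℝ) * Real.log 2) ≤ 1 / ((k : ℝ) - 1) := by
      have h5 : (LA k - 387 / 1000) / (((k : ℝ) - 1) * Real.log 2) -
        (LA k - 387 / 1000) / ((k : ℝ) * Real.log 2) =
          (LA k - 387 / 1000) / ((k * Real.log 2) * ((k : ℝ) - 1)) := by
        field_simp
        ring
      rw [h5, div_le_div_iff₀ (by positivity) hk1]
      nlinarith [mul_le_mul_of_nonneg_right (sub_le_iff_le_add.mpr h2) hk1.le]
    have h6 : (LA (k + 1) - LA k) / (k * Real.log 2) =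
        (LA (k + 1) - 387 / 1000) / (k * Real.log 2) -
          (LA k - 387 / 1000) / (k * Real.log 2) := by
      rw [← sub_div]
      ring
    have h7 : ((k : ℝ) + 1 - 1) = k := by ring
    rw [h7]
    linarith

theorem harm_le (k : ℕ) (hk : 13 ≤ k) :
    ∑ j ∈ Finset.Ico 13 k, 1 / (j : ℝ) ≤ Real.log ((2 * k - 1) / 25) := by
  induction k, hk using Nat.le_induction with
  | base => norm_num
  | succ k hk ih =>
    have hkR : (13 : ℝ) ≤ k := by exact_mod_cast hk
    rw [Finset.sum_Ico_succ_top hk]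
    have h1 := Real.le_log_one_add_of_nonneg (show (0 : ℝ) ≤ 2 / (2 * k - 1) by
      apply div_nonneg (by norm_num)
      linarith)
    have hpos : (0 : ℝ) < 2 * k - 1 := by linarith
    have h2 : 2 * (2 / (2 * (k : ℝ) - 1)) / (2 / (2 * (k : ℝ) - 1) + 2) = 1 / k := by
      field_simp
      ring
    rw [h2] at h1
    have h3 : (1 + 2 / (2 * (k : ℝ) - 1)) = (2 * ((k + 1 : ℕ) : ℝ) - 1) / 25 /
        ((2 * k - 1) / 25) := by
      push_cast
      field_simp
      ring
    rw [h3, Real.log_div (by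
      push_cast
      have : (0 : ℝ) < (2 * (k + 1) - 1) / 25 := by
        apply div_pos _ (by norm_num)
        linarith
      exact this.ne') (by positivity)] at h1
    linarith

/-- `∑_{8192 ≤ p < 2^k} 1/p ≤ log (k / 12.5) + 0.1969`. -/
theorem T_le' (k : ℕ) (hk : 14 ≤ k) :
    ∑ i ∈ Finset.Ico 13 k, ∑ p ∈ QB i, 1 / (p : ℝ) ≤
      Real.log ((2 * k - 1) / 25) + 1969 / 10000 := by
  have hl0 : (0 : ℝ) < Real.log 2 := Real.log_pos (by norm_num)
  have hlg := Real.log_two_gt_d9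
  have hkR : (14 : ℝ) ≤ k := by exact_mod_cast hk
  have h1 := T_le k hk
  have h2 := harm_le k (by omega)
  have h3 := LA_le k hk
  have h4 : (LA k - 387 / 1000) / ((k - 1) * Real.log 2) ≤ 1 + 1 / ((k : ℝ) - 1) := by
    have hk1 : (0 : ℝ) < (k : ℝ) - 1 := by linarith
    rw [div_le_iff₀ (by positivity)]
    have : (1 + 1 / ((k : ℝ) - 1)) * ((k - 1) * Real.log 2) = k * Real.log 2 := by
      field_simp
      ring
    rw [this]
    linarith
  have h5 : 8031 / 10000 ≤ (LA 13 - 387 / 1000) / (13 * Real.log 2) := by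
    rw [le_div_iff₀ (by positivity)]
    have := LA13
    nlinarith
  have h6 : ∑ j ∈ Finset.Ico 13 k, 1 / (j : ℝ) =
      ∑ j ∈ Finset.Ico 13 (k - 1), 1 / (j : ℝ) + 1 / ((k : ℝ) - 1) := by
    have h7 : Finset.Ico 13 k = Finset.Ico 13 ((k - 1) + 1) := by
      congr 1
      omega
    rw [h7, Finset.sum_Ico_succ_top (by omega : 13 ≤ k - 1), Nat.cast_sub (by omega),
      Nat.cast_one]
  linarith

theorem prod_union_blocks (f : ℕ → ℝ) (k : ℕ) (hk : 13 ≤ k) :
    ∏ p ∈ PB k, f p = (∏ p ∈ PB 13, f p) * ∏ i ∈ Finset.Ico 13 k, ∏ p ∈ QB i, f p := by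
  induction k, hk using Nat.le_induction with
  | base => simp
  | succ k hk ih =>
    rw [PB_succ, Finset.prod_union (PB_disj k), ih, Finset.prod_Ico_succ_top hk, mul_assoc]

theorem QB_prod_le (i : ℕ) (hi : 1 ≤ i) :
    ∏ p ∈ QB i, ((p : ℝ) / ((p : ℝ) - 1)) ≤
      Real.exp (∑ p ∈ QB i, 1 / (p : ℝ) + 2 / (2 : ℝ) ^ i) := by
  have h2i : (2 : ℝ) ≤ 2 ^ i := by
    calc (2 : ℝ) = 2 ^ 1 := (pow_one _).symm
      _ ≤ 2 ^ i := pow_le_pow_right₀ (by norm_num) hi
  have hterm : ∀ p ∈ QB i, ((p : ℝ) / ((p : ℝ) - 1)) ≤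
      Real.exp (1 / (p : ℝ) + 2 / ((2 : ℝ) ^ i) ^ 2) := by
    intro p hp
    have h := mem_QB.mp hp
    have h3 : ((2 ^ i : ℕ) : ℝ) ≤ p := by exact_mod_cast h.1.1
    push_cast at h3
    have hp2 : (2 : ℝ) ≤ p := by linarith
    have hp0 : (0 : ℝ) < p := by linarith
    have hp1 : (0 : ℝ) < (p : ℝ) - 1 := by linarith
    have h4 := Real.add_one_le_exp (1 / (p : ℝ) + 2 / ((2 : ℝ) ^ i) ^ 2)
    refine le_trans ?_ h4
    have h5 : (p : ℝ) / ((p : ℝ) - 1) = 1 / p + 1 / (p * (p - 1)) + 1 := by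
      field_simp
      ring
    rw [h5]
    have h6 : 1 / ((p : ℝ) * (p - 1)) ≤ 2 / ((2 : ℝ) ^ i) ^ 2 := by
      rw [div_le_div_iff₀ (by positivity) (by positivity)]
      nlinarith
    linarith
  calc ∏ p ∈ QB i, ((p : ℝ) / ((p : ℝ) - 1))
      ≤ ∏ p ∈ QB i, Real.exp (1 / (p : ℝ) + 2 / ((2 : ℝ) ^ i) ^ 2) := by
        apply Finset.prod_le_prod _ hterm
        intro p hp
        have h := mem_QB.mp hp
        have h3 : ((2 ^ i : ℕ) : ℝ) ≤ p := by exact_mod_cast h.1.1
        push_cast at h3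
        apply div_nonneg (by linarith) (by linarith)
    _ = Real.exp (∑ p ∈ QB i, (1 / (p : ℝ) + 2 / ((2 : ℝ) ^ i) ^ 2)) :=
        (Real.exp_sum _ _).symm
    _ ≤ Real.exp (∑ p ∈ QB i, 1 / (p : ℝ) + 2 / (2 : ℝ) ^ i) := by
        apply Real.exp_le_exp.mpr
        rw [Finset.sum_add_distrib, Finset.sum_const, nsmul_eq_mul]
        have hcard : (QB i).card ≤ 2 ^ i := by
          have h1 : (QB i).card ≤ (Finset.Ico (2 ^ i) (2 ^ (i + 1))).card :=
            Finset.card_le_card (Finset.filter_subset _ _)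
          rw [Nat.card_Ico, pow_succ] at h1
          omega
        have hcardR : ((QB i).card : ℝ) ≤ 2 ^ i := by exact_mod_cast hcard
        have h7 : ((QB i).card : ℝ) * (2 / ((2 : ℝ) ^ i) ^ 2) ≤
            2 ^ i * (2 / ((2 : ℝ) ^ i) ^ 2) :=
          mul_le_mul_of_nonneg_right hcardR (by positivity)
        have h8 : (2 : ℝ) ^ i * (2 / ((2 : ℝ) ^ i) ^ 2) = 2 / 2 ^ i := by
          field_simp
        linarith

theorem sum_two_pow (a b : ℕ) (h : a ≤ b) :
    ∑ i ∈ Finset.Ico a b, 2 / (2 : ℝ) ^ i = 4 / 2 ^ a - 4 / 2 ^ b := by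
  induction b, h using Nat.le_induction with
  | base => simp
  | succ b hb ih =>
    rw [Finset.sum_Ico_succ_top hb, ih, pow_succ]
    field_simp
    ring

theorem exp_fifth : Real.exp (1 / 5) ≤ 12215 / 10000 := by
  have h1 := Real.exp_one_lt_d9
  have h2 : Real.exp (1 / 5) ^ 5 = Real.exp 1 := by
    rw [← Real.exp_nat_mul]
    norm_num
  by_contra hcon
  push Not at hcon
  have h3 : (12215 / 10000 : ℝ) ^ 5 < Real.exp (1 / 5) ^ 5 :=
    pow_lt_pow_left₀ hcon (by norm_num) (by norm_num)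
  rw [h2] at h3
  norm_num at h3
  linarith

/-- Explicit Mertens-type bound at powers of two. -/
theorem prod_PB_le (k : ℕ) (hk : 14 ≤ k) :
    ∏ p ∈ PB k, ((p : ℝ) / ((p : ℝ) - 1)) ≤ 1571 / 1000 * k := by
  have hkR : (14 : ℝ) ≤ k := by exact_mod_cast hk
  rw [prod_union_blocks _ k (by omega)]
  have h1 : ∏ i ∈ Finset.Ico 13 k, ∏ p ∈ QB i, ((p : ℝ) / ((p : ℝ) - 1)) ≤
      12215 / 10000 * ((2 * k - 1) / 25) := by
    have hnn : ∀ i ∈ Finset.Ico 13 k, 0 ≤ ∏ p ∈ QB i, ((p : ℝ) / ((p : ℝ) - 1)) := by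
      intro i _
      apply Finset.prod_nonneg
      intro p hp
      have h3 : (2 : ℝ) ≤ p := by exact_mod_cast (mem_QB.mp hp).2.two_le
      apply div_nonneg (by linarith) (by linarith)
    have hpos : (0 : ℝ) < (2 * k - 1) / 25 := by
      apply div_pos (by linarith) (by norm_num)
    calc ∏ i ∈ Finset.Ico 13 k, ∏ p ∈ QB i, ((p : ℝ) / ((p : ℝ) - 1))
        ≤ ∏ i ∈ Finset.Ico 13 k, Real.exp (∑ p ∈ QB i, 1 / (p : ℝ) + 2 / (2 : ℝ) ^ i) := by
          apply Finset.prod_le_prod hnn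
          intro i hi
          rw [Finset.mem_Ico] at hi
          exact QB_prod_le i (by omega)
      _ = Real.exp (∑ i ∈ Finset.Ico 13 k, (∑ p ∈ QB i, 1 / (p : ℝ) + 2 / (2 : ℝ) ^ i)) :=
          (Real.exp_sum _ _).symm
      _ ≤ Real.exp (Real.log ((2 * k - 1) / 25) + 1 / 5) := by
          apply Real.exp_le_exp.mpr
          rw [Finset.sum_add_distrib, sum_two_pow 13 k (by omega)]
          have h4 := T_le' k hk
          have h5 : (0 : ℝ) ≤ 4 / 2 ^ k := by positivity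
          have h6 : (4 : ℝ) / 2 ^ 13 ≤ 1 / 2000 := by norm_num
          linarith
      _ = (2 * k - 1) / 25 * Real.exp (1 / 5) := by
          rw [Real.exp_add, Real.exp_log hpos]
      _ ≤ 12215 / 10000 * ((2 * k - 1) / 25) := by
          rw [mul_comm]
          exact mul_le_mul_of_nonneg_right exp_fifth hpos.le
  have h2 := prod_PB13
  calc (∏ p ∈ PB 13, ((p : ℝ) / ((p : ℝ) - 1))) *
      ∏ i ∈ Finset.Ico 13 k, ∏ p ∈ QB i, ((p : ℝ) / ((p : ℝ) - 1))
      ≤ 1607 / 100 * (12215 / 10000 * ((2 * k - 1) / 25)) := by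
        apply mul_le_mul h2 h1 _ (by norm_num)
        apply Finset.prod_nonneg
        intro i _
        apply Finset.prod_nonneg
        intro p hp
        have h3 : (2 : ℝ) ≤ p := by exact_mod_cast (mem_QB.mp hp).2.two_le
        apply div_nonneg (by linarith) (by linarith)
    _ ≤ 1571 / 1000 * k := by
        nlinarith

end Pool.Agent.WeirdK
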