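import Pool.Agent.WeirdK.Core
import Pool.Agent.WeirdK.Mertens

set_option autoImplicit false

namespace Pool.Agent.WeirdK

open Finset

/-- `e ↦ e^(s-1)`. -/
noncomputable def fs (s : ℝ) : ℕ →* ℝ where
  toFun e := (e : ℝ) ^ (s - 1)
  map_one' := by simp
  map_mul' a b := by
    rw [Nat.cast_mul, Real.mul_rpow (Nat.cast_nonneg _) (Nat.cast_nonneg _)]

theorem fs_apply (s : ℝ) (e : ℕ) : fs s e = (e : ℝ) ^ (s - 1) := rfl

theorem fs_nonneg (s : ℝ) (e : ℕ) : 0 ≤ fs s e := by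
  rw [fs_apply]
  positivity

theorem fs_le {s : ℝ} (hs : s ≤ 1 / 2) {p : ℕ} (hp : 2 ≤ p) : fs s p ≤ 5 / 7 := by
  rw [fs_apply]
  have hp2 : (2 : ℝ) ≤ p := by exact_mod_cast hp
  have h1 : (p : ℝ) ^ (s - 1) ≤ (2 : ℝ) ^ (s - 1) :=
    Real.rpow_le_rpow_of_nonpos (by norm_num) hp2 (by linarith)
  have h2 : (2 : ℝ) ^ (s - 1) ≤ (2 : ℝ) ^ (-(1 / 2) : ℝ) :=
    Real.rpow_le_rpow_of_exponent_le (by norm_num) (by linarith)
  have h3 : (2 : ℝ) ^ (-(1 / 2) : ℝ) ≤ 5 / 7 := by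
    rw [Real.rpow_neg (by norm_num), ← Real.sqrt_eq_rpow]
    have h4 : (7 / 5 : ℝ) ≤ Real.sqrt 2 := by
      apply Real.le_sqrt_of_sq_le
      norm_num
    calc (Real.sqrt 2)⁻¹ ≤ (7 / 5 : ℝ)⁻¹ := inv_anti₀ (by norm_num) h4
      _ = 5 / 7 := by norm_num
  linarith

theorem smooth_of_dvd {j e : ℕ} (hj : 2 ≤ j) (he : e ∣ (2 ^ j).factorial) :
    e ∈ Nat.smoothNumbers (2 ^ j) := by
  rw [Nat.mem_smoothNumbers]
  have he0 : e ≠ 0 := by
    rintro rfl
    exact (Nat.factorial_ne_zero _) (Nat.eq_zero_of_zero_dvd he)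
  refine ⟨he0, fun p hp => ?_⟩
  have hpp := Nat.prime_of_mem_primeFactorsList hp
  have hpe := Nat.dvd_of_mem_primeFactorsList hp
  have h1 : p ≤ 2 ^ j := (Nat.Prime.dvd_factorial hpp).mp (hpe.trans he)
  refine lt_of_le_of_ne h1 ?_
  rintro rfl
  exact Nat.Prime.not_prime_pow hj hpp

theorem sum_fs_le {s : ℝ} (hs : s ≤ 1 / 2) {j : ℕ} (hj : 2 ≤ j) :
    ∑ e ∈ ((2 ^ j).factorial).divisors, fs s e ≤ ∏ p ∈ PB j, (1 - fs s p)⁻¹ := by
  classical
  have h := EulerProduct.summable_and_hasSum_smoothNumbers_prod_primesBelow_geometric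
    (f := fs s) (by
      intro p hp
      rw [Real.norm_of_nonneg (fs_nonneg s p)]
      have := fs_le hs hp.two_le
      linarith) (2 ^ j)
  have h1 : ∏ p ∈ (2 ^ j).primesBelow, (1 - fs s p)⁻¹ = ∏ p ∈ PB j, (1 - fs s p)⁻¹ := rfl
  rw [h1] at h
  have h2 : ∀ e ∈ ((2 ^ j).factorial).divisors, e ∈ Nat.smoothNumbers (2 ^ j) :=
    fun e he => smooth_of_dvd hj (Nat.dvd_of_mem_divisors he)
  have h3 := sum_le_hasSum (f := fun e : Nat.smoothNumbers (2 ^ j) => fs s e)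
    ((((2 ^ j).factorial).divisors).subtype (fun e => e ∈ Nat.smoothNumbers (2 ^ j)))
    (fun i _ => fs_nonneg s i) h.2
  refine le_trans (le_of_eq ?_) h3
  exact (Finset.sum_subtype_of_mem (fun e => fs s e) h2).symm

/-- Rankin's bound for a representable number. -/
theorem rep_rankin {K n : ℕ} {s : ℝ} (hs : 0 ≤ s) (hn : 0 < n) (h : Rep K n) :
    (K : ℝ) ^ s ≤ ∑ e ∈ n.divisors, fs s e := by
  obtain ⟨t, ht, hK, hsum⟩ := h
  have hnR : (0 : ℝ) < n := by exact_mod_cast hn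
  have hterm : ∀ d ∈ t, (K : ℝ) ^ s * d ≤ n * fs s (n / d) := by
    intro d hd
    have hdn := Nat.dvd_of_mem_divisors (ht hd)
    have hd0 : 0 < d := Nat.pos_of_dvd_of_pos hdn hn
    obtain ⟨e, he⟩ := hdn
    have he0 : 0 < e := Nat.pos_of_ne_zero (fun h0 => by rw [he, h0, mul_zero] at hn; omega)
    have hnd : n / d = e := by rw [he]; exact Nat.mul_div_cancel_left e hd0
    have hKe : K ≤ e := by
      have h1 := hK d hd
      rw [he, mul_comm K d] at h1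
      exact Nat.le_of_mul_le_mul_left h1 hd0
    have heR : (0 : ℝ) < e := by exact_mod_cast he0
    rw [hnd, fs_apply]
    have h2 : (K : ℝ) ^ s ≤ (e : ℝ) ^ s :=
      Real.rpow_le_rpow (Nat.cast_nonneg _) (by exact_mod_cast hKe) hs
    have h3 : (n : ℝ) * (e : ℝ) ^ (s - 1) = (e : ℝ) ^ s * d := by
      rw [Real.rpow_sub heR, Real.rpow_one, he, Nat.cast_mul]
      field_simp
    rw [h3]
    exact mul_le_mul_of_nonneg_right h2 (Nat.cast_nonneg _)
  have h4 : (K : ℝ) ^ s * n ≤ n * ∑ e ∈ n.divisors, fs s e := by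
    calc (K : ℝ) ^ s * n = (K : ℝ) ^ s * ((∑ d ∈ t, d : ℕ) : ℝ) := by rw [hsum]
      _ = ∑ d ∈ t, (K : ℝ) ^ s * d := by push_cast; rw [Finset.mul_sum]
      _ ≤ ∑ d ∈ t, n * fs s (n / d) := Finset.sum_le_sum hterm
      _ ≤ ∑ d ∈ n.divisors, n * fs s (n / d) := by
          apply Finset.sum_le_sum_of_subset_of_nonneg ht
          intro d _ _
          exact mul_nonneg hnR.le (fs_nonneg _ _)
      _ = n * ∑ d ∈ n.divisors, fs s (n / d) := (Finset.mul_sum _ _ _).symm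
      _ = n * ∑ e ∈ n.divisors, fs s e := by
          rw [Nat.sum_div_divisors n (fun e => fs s e)]
  rw [mul_comm] at h4
  exact le_of_mul_le_mul_left h4 hnR

theorem QB_card_le {i : ℕ} (hi : 1 ≤ i) : ∑ p ∈ QB i, 1 / (p : ℝ) ≤ 4 / i := by
  have hl0 : (0 : ℝ) < Real.log 2 := Real.log_pos (by norm_num)
  have hiR : (0 : ℝ) < i := by exact_mod_cast hi
  have h1 : ((QB i).card : ℝ) * (i * Real.log 2) ≤ ∑ p ∈ QB i, Real.log (p : ℝ) := by
    rw [← nsmul_eq_mul]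
    apply Finset.card_nsmul_le_sum
    intro p hp
    have h2 := mem_QB.mp hp
    have h3 : ((2 ^ i : ℕ) : ℝ) ≤ p := by exact_mod_cast h2.1.1
    have h4 := Real.log_le_log (by positivity) h3
    push_cast at h4
    rw [Real.log_pow] at h4
    exact h4
  have h5 : ∑ p ∈ QB i, Real.log (p : ℝ) ≤ ∑ p ∈ PB (i + 1), Real.log (p : ℝ) := by
    rw [PB_succ]
    apply Finset.sum_le_sum_of_subset_of_nonneg Finset.subset_union_right
    intro p _ _
    exact Real.log_natCast_nonneg p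
  have h6 := theta_PB (i + 1)
  have h7 : ((QB i).card : ℝ) * i ≤ 2 ^ i * 4 := by
    have h8 : ((QB i).card : ℝ) * i * Real.log 2 ≤ 2 ^ i * 4 * Real.log 2 := by
      rw [pow_succ] at h6
      linarith
    exact le_of_mul_le_mul_right h8 hl0
  have h9 : ∑ p ∈ QB i, 1 / (p : ℝ) ≤ (QB i).card / 2 ^ i := by
    calc ∑ p ∈ QB i, 1 / (p : ℝ) ≤ (QB i).card • (1 / 2 ^ i : ℝ) := by
          apply Finset.sum_le_card_nsmul
          intro p hp
          have h3 : ((2 ^ i : ℕ) : ℝ) ≤ p := by exact_mod_cast (mem_QB.mp hp).1.1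
          push_cast at h3
          exact one_div_le_one_div_of_le (by positivity) h3
      _ = (QB i).card / 2 ^ i := by rw [nsmul_eq_mul]; ring
  refine h9.trans ?_
  rw [div_le_div_iff₀ (by positivity) hiR]
  linarith

theorem PB_sum (f : ℕ → ℝ) (j : ℕ) (hj : 1 ≤ j) :
    ∑ p ∈ PB j, f p = ∑ i ∈ Finset.Ico 1 j, ∑ p ∈ QB i, f p := by
  induction j, hj using Nat.le_induction with
  | base =>
    have : PB 1 = ∅ := by
      ext p
      rw [mem_PB]
      constructor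
      · rintro ⟨h1, h2⟩
        have := h2.two_le
        omega
      · intro h
        exact absurd h (Finset.notMem_empty p)
    rw [this]
    simp
  | succ j hj ih =>
    rw [PB_succ, Finset.sum_union (PB_disj j), ih, Finset.sum_Ico_succ_top hj]

/-- `∑_{p < 2^j} (p^s - 1) / p ≤ 8 * 2^m` for `s = m / j`. -/
theorem sum_pow_sub_le {m j : ℕ} (hj : 1 ≤ j) :
    ∑ p ∈ PB j, ((p : ℝ) ^ ((m : ℝ) / j) - 1) / p ≤ 8 * 2 ^ m := by
  rw [PB_sum _ j hj]
  have hjR : (0 : ℝ) < j := by exact_mod_cast hj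
  have h2m : (1 : ℝ) ≤ 2 ^ m := one_le_pow₀ (by norm_num)
  have hblock : ∀ i ∈ Finset.Ico 1 j,
      ∑ p ∈ QB i, ((p : ℝ) ^ ((m : ℝ) / j) - 1) / p ≤ 8 / j * 2 ^ m := by
    intro i hi
    rw [Finset.mem_Ico] at hi
    have hiR : (1 : ℝ) ≤ i := by exact_mod_cast hi.1
    have hijR : (i : ℝ) + 1 ≤ j := by exact_mod_cast hi.2
    have hpow : ∀ p ∈ QB i, ((p : ℝ) ^ ((m : ℝ) / j) - 1) / p ≤
        ((i + 1) / j * (2 ^ m - 1)) * (1 / (p : ℝ)) := by
      intro p hp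
      have h := mem_QB.mp hp
      have hp0 : (0 : ℝ) < p := by exact_mod_cast h.2.pos
      have h3 : (p : ℝ) ≤ ((2 ^ (i + 1) : ℕ) : ℝ) := by exact_mod_cast h.1.2.le
      push_cast at h3
      have h4 : (p : ℝ) ^ ((m : ℝ) / j) ≤ ((2 : ℝ) ^ (i + 1)) ^ ((m : ℝ) / j) :=
        Real.rpow_le_rpow hp0.le h3 (by positivity)
      have h5 : ((2 : ℝ) ^ (i + 1)) ^ ((m : ℝ) / j) =
          ((2 : ℝ) ^ m) ^ (((i : ℝ) + 1) / j) := by
        rw [← Real.rpow_natCast 2 (i + 1), ← Real.rpow_natCast 2 m, ← Real.rpow_mul (by norm_num),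
          ← Real.rpow_mul (by norm_num)]
        congr 1
        push_cast
        ring
      have h6 : ((2 : ℝ) ^ m) ^ (((i : ℝ) + 1) / j) ≤ 1 + ((i : ℝ) + 1) / j * (2 ^ m - 1) := by
        have h7 := rpow_one_add_le_one_add_mul_self (s := (2 : ℝ) ^ m - 1)
          (p := ((i : ℝ) + 1) / j) (by linarith) (by positivity) (by
            rw [div_le_one hjR]
            exact hijR)
        have h8 : 1 + ((2 : ℝ) ^ m - 1) = 2 ^ m := by ring
        rw [h8] at h7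
        exact h7
      rw [div_eq_mul_one_div]
      apply mul_le_mul_of_nonneg_right _ (by positivity)
      rw [h5] at h4
      linarith
    calc ∑ p ∈ QB i, ((p : ℝ) ^ ((m : ℝ) / j) - 1) / p
        ≤ ∑ p ∈ QB i, ((i + 1) / j * (2 ^ m - 1)) * (1 / (p : ℝ)) := Finset.sum_le_sum hpow
      _ = ((i + 1) / j * (2 ^ m - 1)) * ∑ p ∈ QB i, 1 / (p : ℝ) :=
          (Finset.mul_sum _ _ _).symm
      _ ≤ ((i + 1) / j * (2 ^ m - 1)) * (4 / i) := by
          apply mul_le_mul_of_nonneg_left (QB_card_le hi.1)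
          apply mul_nonneg (by positivity)
          linarith
      _ ≤ 8 / j * 2 ^ m := by
          have h9 : ((i : ℝ) + 1) / j * (2 ^ m - 1) * (4 / i) =
              4 / j * (((i : ℝ) + 1) / i) * (2 ^ m - 1) := by
            field_simp
          rw [h9]
          have h10 : ((i : ℝ) + 1) / i ≤ 2 := by
            rw [div_le_iff₀ (by linarith)]
            linarith
          have h11 : 0 ≤ (4 : ℝ) / j := by positivity
          have h12 : 4 / (j : ℝ) * (((i : ℝ) + 1) / i) ≤ 4 / j * 2 :=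
            mul_le_mul_of_nonneg_left h10 h11
          calc 4 / (j : ℝ) * (((i : ℝ) + 1) / i) * (2 ^ m - 1)
              ≤ (4 / j * 2) * (2 ^ m - 1) := by
                apply mul_le_mul_of_nonneg_right h12
                linarith
            _ ≤ (4 / j * 2) * 2 ^ m := by
                apply mul_le_mul_of_nonneg_left _ (by positivity)
                linarith
            _ = 8 / j * 2 ^ m := by ring
  calc ∑ i ∈ Finset.Ico 1 j, ∑ p ∈ QB i, ((p : ℝ) ^ ((m : ℝ) / j) - 1) / p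
      ≤ (Finset.Ico 1 j).card • (8 / (j : ℝ) * 2 ^ m) := Finset.sum_le_card_nsmul _ _ _ hblock
    _ = ((j - 1 : ℕ) : ℝ) * (8 / (j : ℝ) * 2 ^ m) := by
        rw [Nat.card_Ico, nsmul_eq_mul]
    _ ≤ j * (8 / (j : ℝ) * 2 ^ m) := by
        apply mul_le_mul_of_nonneg_right _ (by positivity)
        exact_mod_cast Nat.sub_le j 1
    _ = 8 * 2 ^ m := by
        field_simp

theorem euler_factor {s : ℝ} (hs0 : 0 ≤ s) (hs : s ≤ 1 / 2) {p : ℕ} (hp : p.Prime) :
    (1 - fs s p)⁻¹ ≤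
      ((p : ℝ) / ((p : ℝ) - 1)) * Real.exp (7 / 2 * (((p : ℝ) ^ s - 1) / p)) := by
  have hp2 : (2 : ℝ) ≤ p := by exact_mod_cast hp.two_le
  have hp0 : (0 : ℝ) < p := by linarith
  have hp1 : (0 : ℝ) < (p : ℝ) - 1 := by linarith
  have hf := fs_le hs hp.two_le
  have hfe : fs s p = (p : ℝ) ^ s / p := by
    rw [fs_apply, Real.rpow_sub hp0, Real.rpow_one]
  have hps : (1 : ℝ) ≤ (p : ℝ) ^ s := Real.one_le_rpow (by linarith) hs0
  set X := (p : ℝ) ^ s with hX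
  rw [hfe] at hf ⊢
  have hden : (0 : ℝ) < 1 - X / p := by linarith
  have h1 := Real.add_one_le_exp (7 / 2 * ((X - 1) / p))
  have h2 : (1 - X / p)⁻¹ ≤ (p : ℝ) / (p - 1) * (7 / 2 * ((X - 1) / p) + 1) := by
    rw [inv_eq_one_div, div_le_iff₀ hden]
    have h3 : (p : ℝ) / (p - 1) * (7 / 2 * ((X - 1) / p) + 1) * (1 - X / p) =
        (1 - X / p) * (p / (p - 1)) + 7 / 2 * (1 - X / p) * ((X - 1) / (p - 1)) := by
      field_simp
      ring
    rw [h3]
    have h4 : (1 - X / p) * ((p : ℝ) / (p - 1)) = 1 - (X - 1) / (p - 1) := by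
      field_simp
      ring
    rw [h4]
    have h5 : 1 ≤ 7 / 2 * (1 - X / p) := by linarith
    have h6 : 0 ≤ (X - 1) / ((p : ℝ) - 1) := div_nonneg (by linarith) hp1.le
    nlinarith
  refine h2.trans ?_
  apply mul_le_mul_of_nonneg_left h1
  positivity

/-- `(2^j)!` is not a sum of distinct divisors `≤ n / 2^k`. -/
theorem not_rep {m R j h k : ℕ} (hj : 14 ≤ j) (h2m : 2 * m ≤ j) (hjh : j ≤ 2 ^ h)
    (hR : h + 1 + 41 * 2 ^ m ≤ R * m) (hk : R * j ≤ k) :
    ¬ Rep (2 ^ k) ((2 ^ j).factorial) := by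
  intro hrep
  have hjR : (14 : ℝ) ≤ j := by exact_mod_cast hj
  have hj0 : (0 : ℝ) < j := by linarith
  set s : ℝ := (m : ℝ) / j with hs
  have hs0 : 0 ≤ s := by positivity
  have hs2 : s ≤ 1 / 2 := by
    rw [hs, div_le_div_iff₀ hj0 (by norm_num)]
    have : ((2 * m : ℕ) : ℝ) ≤ j := by exact_mod_cast h2m
    push_cast at this
    linarith
  have h1 := rep_rankin hs0 (Nat.factorial_pos _) hrep
  have h2 := sum_fs_le hs2 (by omega : 2 ≤ j)
  have h3 : ∏ p ∈ PB j, (1 - fs s p)⁻¹ ≤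
      ∏ p ∈ PB j, (((p : ℝ) / ((p : ℝ) - 1)) * Real.exp (7 / 2 * (((p : ℝ) ^ s - 1) / p))) := by
    apply Finset.prod_le_prod
    · intro p hp
      have := fs_le hs2 (mem_PB.mp hp).2.two_le
      apply inv_nonneg.mpr
      linarith
    · intro p hp
      exact euler_factor hs0 hs2 (mem_PB.mp hp).2
  have h4 : ∏ p ∈ PB j,
      (((p : ℝ) / ((p : ℝ) - 1)) * Real.exp (7 / 2 * (((p : ℝ) ^ s - 1) / p))) =
      (∏ p ∈ PB j, ((p : ℝ) / ((p : ℝ) - 1))) *
        Real.exp (7 / 2 * ∑ p ∈ PB j, (((p : ℝ) ^ s - 1) / p)) := by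
    rw [Finset.prod_mul_distrib, ← Real.exp_sum, Finset.mul_sum]
  have h5 := prod_PB_le j hj
  have h6 := sum_pow_sub_le (m := m) (j := j) (by omega)
  rw [← hs] at h6
  have h7 : Real.exp (7 / 2 * ∑ p ∈ PB j, (((p : ℝ) ^ s - 1) / p)) ≤ 2 ^ (41 * 2 ^ m) := by
    calc Real.exp (7 / 2 * ∑ p ∈ PB j, (((p : ℝ) ^ s - 1) / p))
        ≤ Real.exp ((41 * 2 ^ m : ℕ) * Real.log 2) := by
          apply Real.exp_le_exp.mpr
          have hl := Real.log_two_gt_d9
          push_cast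
          have : (0 : ℝ) ≤ 2 ^ m := by positivity
          nlinarith
      _ = 2 ^ (41 * 2 ^ m) := by
          rw [Real.exp_nat_mul, Real.exp_log (by norm_num)]
  have h8 : (∏ p ∈ PB j, ((p : ℝ) / ((p : ℝ) - 1))) < 2 ^ (h + 1) := by
    have h9 : (j : ℝ) ≤ 2 ^ h := by exact_mod_cast hjh
    rw [pow_succ]
    have : (0 : ℝ) < 2 ^ h := by positivity
    linarith
  have h10 : (∏ p ∈ PB j, ((p : ℝ) / ((p : ℝ) - 1))) *
        Real.exp (7 / 2 * ∑ p ∈ PB j, (((p : ℝ) ^ s - 1) / p)) <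
        2 ^ (h + 1) * 2 ^ (41 * 2 ^ m) := by
    apply mul_lt_mul h8 h7 (Real.exp_pos _) (by positivity)
  have h11 : (2 : ℝ) ^ (h + 1) * 2 ^ (41 * 2 ^ m) ≤ 2 ^ (R * m) := by
    rw [← pow_add]
    exact pow_le_pow_right₀ (by norm_num) hR
  have h12 : (2 : ℝ) ^ (R * m) ≤ ((2 ^ k : ℕ) : ℝ) ^ s := by
    push_cast
    rw [← Real.rpow_natCast 2 k, ← Real.rpow_mul (by norm_num), ← Real.rpow_natCast 2 (R * m)]
    apply Real.rpow_le_rpow_of_exponent_le (by norm_num)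
    rw [hs]
    push_cast
    have h13 : ((R * j : ℕ) : ℝ) ≤ k := by exact_mod_cast hk
    push_cast at h13
    rw [← mul_div_assoc, le_div_iff₀ hj0]
    have : (0 : ℝ) ≤ m := Nat.cast_nonneg _
    nlinarith
  rw [h4] at h3
  linarith

/-- `σ((2^j)!) / (2^j)! ≥ 0.69 * j`. -/
theorem sigma_factorial (j : ℕ) :
    69 / 100 * (j : ℝ) * ((2 ^ j).factorial : ℝ) ≤
      ((∑ d ∈ ((2 ^ j).factorial).divisors, d : ℕ) : ℝ) := by
  classical
  set n := (2 ^ j).factorial with hn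
  have hn0 : 0 < n := Nat.factorial_pos _
  have hnR : (0 : ℝ) < n := by exact_mod_cast hn0
  have h1 : ((∑ d ∈ n.divisors, d : ℕ) : ℝ) = ∑ e ∈ n.divisors, (n : ℝ) / e := by
    rw [← Nat.sum_div_divisors n (fun d => d), Nat.cast_sum]
    apply Finset.sum_congr rfl
    intro e he
    have hed := Nat.dvd_of_mem_divisors he
    have he0 : (e : ℝ) ≠ 0 := by exact_mod_cast (Nat.pos_of_dvd_of_pos hed hn0).ne'
    rw [Nat.cast_div hed he0]
  have h2 : ∑ e ∈ Finset.Icc (1 : ℕ) (2 ^ j), (n : ℝ) / (e : ℝ) ≤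
      ∑ e ∈ n.divisors, (n : ℝ) / (e : ℝ) := by
    apply Finset.sum_le_sum_of_subset_of_nonneg
    · intro e he
      rw [Finset.mem_Icc] at he
      rw [Nat.mem_divisors]
      exact ⟨Nat.dvd_factorial (by omega) he.2, hn0.ne'⟩
    · intro e _ _
      positivity
  have h3 : ∑ e ∈ Finset.Icc (1 : ℕ) (2 ^ j), (n : ℝ) / (e : ℝ) =
      n * (harmonic (2 ^ j) : ℝ) := by
    rw [harmonic_eq_sum_Icc]
    push_cast
    rw [Finset.mul_sum]
    apply Finset.sum_congr rfl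
    intro e _
    rw [div_eq_mul_inv]
  have h4 := log_add_one_le_harmonic (2 ^ j)
  have h5 : (j : ℝ) * Real.log 2 ≤ (harmonic (2 ^ j) : ℝ) := by
    refine le_trans ?_ h4
    rw [← Real.log_pow]
    apply Real.log_le_log (by positivity)
    push_cast
    linarith
  have hl := Real.log_two_gt_d9
  have hj0 : (0 : ℝ) ≤ j := Nat.cast_nonneg _
  rw [h1]
  refine le_trans ?_ h2
  rw [h3]
  have h6 : 69 / 100 * (j : ℝ) ≤ (harmonic (2 ^ j) : ℝ) := by nlinarith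
  calc 69 / 100 * (j : ℝ) * n ≤ (harmonic (2 ^ j) : ℝ) * n :=
        mul_le_mul_of_nonneg_right h6 hnR.le
    _ = n * (harmonic (2 ^ j) : ℝ) := mul_comm _ _

end Pool.Agent.WeirdK
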