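import Mathlib

set_option autoImplicit false

namespace Pool.Agent.WeirdK

open Finset

theorem exp_sub_sq_le {x : ℝ} (h0 : 0 ≤ x) : Real.exp (x - x ^ 2) ≤ 1 + x := by
  have h2 : 0 < 1 - (x - x ^ 2) := by nlinarith [sq_nonneg (x - 1 / 2)]
  have h3 := Real.add_one_le_exp (-(x - x ^ 2))
  have h4 : Real.exp (x - x ^ 2) * Real.exp (-(x - x ^ 2)) = 1 := by
    rw [← Real.exp_add]
    simp
  have h5 : 0 < Real.exp (x - x ^ 2) := Real.exp_pos _
  have h6 : Real.exp (x - x ^ 2) * (1 - (x - x ^ 2)) ≤ 1 := by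
    rw [← h4]
    apply mul_le_mul_of_nonneg_left _ h5.le
    linarith
  have h7 : 1 ≤ (1 + x) * (1 - (x - x ^ 2)) := by
    have : (1 + x) * (1 - (x - x ^ 2)) = 1 + x ^ 3 := by ring
    rw [this]
    have := pow_nonneg h0 3
    linarith
  exact le_of_mul_le_mul_right (h6.trans h7) h2

theorem prod_one_add_ge (P : Finset ℕ) (x : ℕ → ℝ) (hx : ∀ p, 0 ≤ x p) :
    Real.exp (∑ p ∈ P, x p - ∑ p ∈ P, x p ^ 2) ≤ ∏ p ∈ P, (1 + x p) := by
  rw [← Finset.sum_sub_distrib, Real.exp_sum]
  exact Finset.prod_le_prod (fun p _ => (Real.exp_pos _).le) (fun p _ => exp_sub_sq_le (hx p))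

theorem pow_add_ge {s x : ℝ} (hs : 0 ≤ s) (hx : 0 ≤ x) (m : ℕ) :
    s ^ (m + 1) + (m + 1) * s ^ m * x ≤ (s + x) ^ (m + 1) := by
  induction m with
  | zero => simp
  | succ m ih =>
    have h1 : (s + x) ^ (m + 1 + 1) = (s + x) * (s + x) ^ (m + 1) := by ring
    have h2 : (s + x) * (s ^ (m + 1) + (m + 1) * s ^ m * x) ≤ (s + x) * (s + x) ^ (m + 1) :=
      mul_le_mul_of_nonneg_left ih (by linarith)
    rw [h1]
    refine le_trans ?_ h2
    have h3 : 0 ≤ (m + 1 : ℝ) * s ^ m * x * x := by positivity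
    push_cast
    have h4 : (s + x) * (s ^ (m + 1) + (m + 1) * s ^ m * x) =
        s ^ (m + 1 + 1) + (m + 1 + 1) * s ^ (m + 1) * x + (m + 1 : ℝ) * s ^ m * x * x := by
      ring
    rw [h4]
    linarith

/-- `e_j ≤ s^j / j!`. -/
theorem esymm_le (P : Finset ℕ) (x : ℕ → ℝ) (hx : ∀ p, 0 ≤ x p) (j : ℕ) :
    ∑ w ∈ P.powersetCard j, ∏ p ∈ w, x p ≤ (∑ p ∈ P, x p) ^ j / (j.factorial : ℝ) := by
  classical
  induction P using Finset.induction_on generalizing j with
  | empty =>
    rcases j with _ | j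
    · simp
    · rw [Finset.powersetCard_eq_empty.mpr (by simp)]
      simp
  | insert a P ha ih =>
    rcases j with _ | j
    · simp
    · have hs : 0 ≤ ∑ p ∈ P, x p := Finset.sum_nonneg (fun p _ => hx p)
      have h1 : ∑ w ∈ (insert a P).powersetCard (j + 1), ∏ p ∈ w, x p =
          ∑ w ∈ P.powersetCard (j + 1), ∏ p ∈ w, x p +
            x a * ∑ w ∈ P.powersetCard j, ∏ p ∈ w, x p := by
        rw [Finset.powersetCard_succ_insert ha, Finset.sum_union]
        · congr 1
          rw [Finset.sum_image, Finset.mul_sum]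
          · apply Finset.sum_congr rfl
            intro w hw
            rw [Finset.mem_powersetCard] at hw
            rw [Finset.prod_insert (fun h => ha (hw.1 h))]
          · intro w hw w' hw' h
            rw [Finset.mem_coe, Finset.mem_powersetCard] at hw hw'
            have e1 : (insert a w).erase a = w := Finset.erase_insert (fun h => ha (hw.1 h))
            have e2 : (insert a w').erase a = w' := Finset.erase_insert (fun h => ha (hw'.1 h))
            rw [← e1, ← e2]
            exact congrArg (fun u => Finset.erase u a) h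
        · rw [Finset.disjoint_left]
          intro w hw hw'
          rw [Finset.mem_powersetCard] at hw
          rw [Finset.mem_image] at hw'
          obtain ⟨v, _, rfl⟩ := hw'
          exact ha (hw.1 (Finset.mem_insert_self _ _))
      rw [h1, Finset.sum_insert ha]
      have h2 := ih (j + 1)
      have h3 := mul_le_mul_of_nonneg_left (ih j) (hx a)
      have h4 := pow_add_ge hs (hx a) j
      have hf : (0 : ℝ) < ((j + 1).factorial : ℝ) := by exact_mod_cast Nat.factorial_pos _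
      have hf' : (0 : ℝ) < (j.factorial : ℝ) := by exact_mod_cast Nat.factorial_pos _
      have h5 : ((j + 1).factorial : ℝ) = (j + 1) * (j.factorial : ℝ) := by
        rw [Nat.factorial_succ]
        push_cast
        ring
      calc ∑ w ∈ P.powersetCard (j + 1), ∏ p ∈ w, x p +
            x a * ∑ w ∈ P.powersetCard j, ∏ p ∈ w, x p
          ≤ (∑ p ∈ P, x p) ^ (j + 1) / ((j + 1).factorial : ℝ) +
            x a * ((∑ p ∈ P, x p) ^ j / (j.factorial : ℝ)) := add_le_add h2 h3
        _ = ((∑ p ∈ P, x p) ^ (j + 1) + (j + 1) * (∑ p ∈ P, x p) ^ j * x a) /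
              ((j + 1).factorial : ℝ) := by
            rw [h5]
            field_simp
        _ ≤ ((∑ p ∈ P, x p) + x a) ^ (j + 1) / ((j + 1).factorial : ℝ) :=
            div_le_div_of_nonneg_right h4 hf.le
        _ = (x a + ∑ p ∈ P, x p) ^ (j + 1) / ((j + 1).factorial : ℝ) := by
            rw [add_comm]

/-- The partial exponential sum. -/
noncomputable def Phi (r : ℕ) (s : ℝ) : ℝ := ∑ j ∈ Finset.range r, s ^ j / (j.factorial : ℝ)

/-- The mass of the subsets with at least `r` elements. -/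
noncomputable def Mr (P : Finset ℕ) (x : ℕ → ℝ) (r : ℕ) : ℝ :=
  ∑ w ∈ P.powerset.filter (fun w => r ≤ w.card), ∏ p ∈ w, x p

theorem Mr_ge (P : Finset ℕ) (x : ℕ → ℝ) (hx : ∀ p, 0 ≤ x p) (r : ℕ) :
    ∏ p ∈ P, (1 + x p) - Phi r (∑ p ∈ P, x p) ≤ Mr P x r := by
  classical
  have h1 : ∏ p ∈ P, (1 + x p) = ∑ w ∈ P.powerset, ∏ p ∈ w, x p := by
    rw [← Finset.prod_one_add]
  have h2 : ∑ w ∈ P.powerset, ∏ p ∈ w, x p =
      Mr P x r + ∑ w ∈ P.powerset.filter (fun w => ¬ r ≤ w.card), ∏ p ∈ w, x p := by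
    unfold Mr
    exact (Finset.sum_filter_add_sum_filter_not _ _ _).symm
  have h3 : ∑ w ∈ P.powerset.filter (fun w => ¬ r ≤ w.card), ∏ p ∈ w, x p ≤
      Phi r (∑ p ∈ P, x p) := by
    have hmaps : ∀ w ∈ P.powerset.filter (fun w => ¬ r ≤ w.card),
        w.card ∈ Finset.range r := by
      intro w hw
      rw [Finset.mem_filter] at hw
      rw [Finset.mem_range]
      omega
    rw [← Finset.sum_fiberwise_of_maps_to hmaps]
    unfold Phi
    apply Finset.sum_le_sum
    intro j hj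
    rw [Finset.mem_range] at hj
    refine le_trans (le_of_eq ?_) (esymm_le P x hx j)
    apply Finset.sum_congr _ (fun _ _ => rfl)
    ext w
    rw [Finset.mem_filter, Finset.mem_filter, Finset.mem_powerset, Finset.mem_powersetCard]
    constructor
    · rintro ⟨⟨h4, _⟩, h5⟩
      exact ⟨h4, h5⟩
    · rintro ⟨h4, h5⟩
      exact ⟨⟨h4, by omega⟩, h5⟩
  linarith

theorem exp_le_four {v : ℝ} (h0 : 0 ≤ v) (h2 : v ≤ 2) : Real.exp v ≤ 1 + 4 * v := by
  have hc := convexOn_exp.2 (Set.mem_univ (0 : ℝ)) (Set.mem_univ (2 : ℝ))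
    (show 0 ≤ 1 - v / 2 by linarith) (show 0 ≤ v / 2 by linarith) (by ring)
  simp only [smul_eq_mul, mul_zero, zero_add, Real.exp_zero, mul_one] at hc
  have h3 : v / 2 * 2 = v := by ring
  rw [h3] at hc
  have h4 : Real.exp 2 ≤ 9 := by
    have h5 := Real.exp_one_lt_d9
    have h6 : Real.exp 2 = Real.exp 1 * Real.exp 1 := by
      rw [← Real.exp_add]
      norm_num
    rw [h6]
    have h7 := Real.exp_pos 1
    nlinarith
  nlinarith

/-- `e^(s-1) ≤ s^r` for `1 ≤ s ≤ 2r`. -/
theorem exp_le_pow {s : ℝ} {r : ℕ} (hr : 4 ≤ r) (h1 : 1 ≤ s) (h2 : s ≤ 2 * r) :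
    Real.exp (s - 1) ≤ s ^ r := by
  have hrR : (4 : ℝ) ≤ r := by exact_mod_cast hr
  have hr0 : (0 : ℝ) < r := by linarith
  have h3 : Real.exp (s - 1) = Real.exp ((s - 1) / r) ^ r := by
    rw [← Real.exp_nat_mul]
    congr 1
    field_simp
  rw [h3]
  apply pow_le_pow_left₀ (Real.exp_pos _).le
  have h4 := exp_le_four (v := (s - 1) / r) (by
    apply div_nonneg (by linarith) hr0.le) (by
    rw [div_le_iff₀ hr0]
    linarith)
  refine h4.trans ?_
  have h5 : (s - 1) / r * r = s - 1 := by field_simp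
  have h6 : 0 ≤ (s - 1) / r := by
    apply div_nonneg (by linarith) hr0.le
  nlinarith

theorem Phi_le {r : ℕ} {s : ℝ} (h : 2 * r ≤ s) : ∀ m, m ≤ r →
    Phi m s ≤ s ^ m / (m.factorial : ℝ) := by
  intro m
  induction m with
  | zero => intro _; simp [Phi]
  | succ m ih =>
    intro hm
    have h1 := ih (by omega)
    have hmr : ((m : ℝ) + 1) ≤ r := by exact_mod_cast hm
    have hs : 2 * ((m : ℝ) + 1) ≤ s := by linarith
    have hm0 : (0 : ℝ) ≤ m := Nat.cast_nonneg _
    have hs0 : 0 ≤ s := by linarith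
    unfold Phi at h1 ⊢
    rw [Finset.sum_range_succ]
    have hf' : (0 : ℝ) < (m.factorial : ℝ) := by exact_mod_cast Nat.factorial_pos _
    have h5 : ((m + 1).factorial : ℝ) = (m + 1) * (m.factorial : ℝ) := by
      rw [Nat.factorial_succ]
      push_cast
      ring
    have h6 : s ^ m / (m.factorial : ℝ) + s ^ m / (m.factorial : ℝ) ≤
        s ^ (m + 1) / ((m + 1).factorial : ℝ) := by
      rw [h5, pow_succ, ← add_div, div_le_div_iff₀ hf' (by positivity)]
      have h7 : 0 ≤ s ^ m * (m.factorial : ℝ) := by positivity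
      nlinarith
    linarith

/-- The key lower bound for the mass of the subsets with at least `r` elements. -/
theorem Mr_lower (P : Finset ℕ) (x : ℕ → ℝ) (hx : ∀ p, 0 ≤ x p) {r : ℕ} (hr : 4 ≤ r)
    {q : ℝ} (hq : ∑ p ∈ P, x p ^ 2 ≤ q) (hqr : 32 * (r.factorial : ℝ) * q ≤ 1)
    (hs : 1 ≤ ∑ p ∈ P, x p) :
    Real.exp (∑ p ∈ P, x p) ≤ 3 * (r.factorial : ℝ) * Mr P x r := by
  have hf : (24 : ℝ) ≤ (r.factorial : ℝ) := by
    have : Nat.factorial 4 ≤ r.factorial := Nat.factorial_le hr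
    exact_mod_cast this
  have h1 := Mr_ge P x hx r
  have h2 := prod_one_add_ge P x hx
  set s := ∑ p ∈ P, x p with hsdef
  have hes : 0 < Real.exp s := Real.exp_pos _
  have hq0 : 0 ≤ q := le_trans (Finset.sum_nonneg (fun p _ => sq_nonneg _)) hq
  have h3 : Real.exp s * (1 - q) ≤ ∏ p ∈ P, (1 + x p) := by
    refine le_trans ?_ h2
    rw [sub_eq_add_neg s, Real.exp_add]
    apply mul_le_mul_of_nonneg_left _ hes.le
    have := Real.add_one_le_exp (-∑ p ∈ P, x p ^ 2)
    linarith
  have h4 : Real.exp s * (1 - q) - Phi r s ≤ Mr P x r := by linarith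
  have hf0 : (0 : ℝ) < (r.factorial : ℝ) := by linarith
  have h5 : Real.exp s ≤ 3 * (r.factorial : ℝ) * (Real.exp s * (1 - q) - Phi r s) := by
    rcases le_or_gt (2 * (r : ℝ)) s with hcase | hcase
    · have h6 := Phi_le hcase r le_rfl
      have h7 : Phi (r + 1) s ≤ Real.exp s := Real.sum_le_exp_of_nonneg (by linarith) (r + 1)
      have h8 : Phi (r + 1) s = Phi r s + s ^ r / (r.factorial : ℝ) := by
        unfold Phi
        rw [Finset.sum_range_succ]
      have h9 : Phi r s ≤ Real.exp s / 2 := by linarith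
      have h10 : q ≤ 1 / 4 := by nlinarith
      have h11 : Real.exp s / 4 ≤ Real.exp s * (1 - q) - Phi r s := by nlinarith
      nlinarith
    · have h7 : Phi (r + 1) s ≤ Real.exp s := Real.sum_le_exp_of_nonneg (by linarith) (r + 1)
      have h8 : Phi (r + 1) s = Phi r s + s ^ r / (r.factorial : ℝ) := by
        unfold Phi
        rw [Finset.sum_range_succ]
      have h9 := exp_le_pow hr hs hcase.le
      have h10 : Real.exp (s - 1) = Real.exp s * Real.exp (-1) := by
        rw [← Real.exp_add]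
        congr 1
      have h11 : (0.3678 : ℝ) ≤ Real.exp (-1) := by
        have := Real.exp_neg_one_gt_d9
        linarith
      have h12 : Real.exp s * 0.3678 / (r.factorial : ℝ) ≤ s ^ r / (r.factorial : ℝ) := by
        apply div_le_div_of_nonneg_right _ hf0.le
        rw [h10] at h9
        refine le_trans ?_ h9
        exact mul_le_mul_of_nonneg_left h11 hes.le
      have h13 : Real.exp s * 0.3678 / (r.factorial : ℝ) - Real.exp s * q ≤
          Real.exp s * (1 - q) - Phi r s := by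
        linarith
      have h14 : 3 * (r.factorial : ℝ) *
          (Real.exp s * 0.3678 / (r.factorial : ℝ) - Real.exp s * q) =
          Real.exp s * (3 * 0.3678 - 3 * ((r.factorial : ℝ) * q)) := by
        field_simp
      have h15 : 3 * (r.factorial : ℝ) *
          (Real.exp s * 0.3678 / (r.factorial : ℝ) - Real.exp s * q) ≤
          3 * (r.factorial : ℝ) * (Real.exp s * (1 - q) - Phi r s) :=
        mul_le_mul_of_nonneg_left h13 (by positivity)
      refine le_trans ?_ h15
      rw [h14]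
      have h16 : (1 : ℝ) ≤ 3 * 0.3678 - 3 * ((r.factorial : ℝ) * q) := by
        nlinarith
      nlinarith
  exact h5.trans (mul_le_mul_of_nonneg_left h4 (by positivity))

/-- `∑ 1/p²` over distinct integers `≥ Z`. -/
theorem sum_inv_sq_le (P : Finset ℕ) {Z : ℕ} (hZ : 1 ≤ Z) (hP : ∀ p ∈ P, Z ≤ p) :
    ∑ p ∈ P, (1 / (p : ℝ)) ^ 2 ≤ (2 : ℝ) / (Z : ℝ) := by
  obtain ⟨X, hX⟩ : ∃ X, ∀ p ∈ P, p < X :=
    ⟨P.sup id + 1, fun p hp => Nat.lt_succ_of_le (Finset.le_sup (f := id) hp)⟩
  have h1 : ∑ p ∈ P, (1 / (p : ℝ)) ^ 2 ≤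
      ∑ p ∈ Finset.Ioo (Z - 1) X, ((p : ℝ) ^ 2)⁻¹ := by
    have h2 : ∀ p ∈ P, (1 / (p : ℝ)) ^ 2 = ((p : ℝ) ^ 2)⁻¹ := by
      intro p _
      rw [one_div, inv_pow]
    rw [Finset.sum_congr rfl h2]
    apply Finset.sum_le_sum_of_subset_of_nonneg
    · intro p hp
      rw [Finset.mem_Ioo]
      have := hP p hp
      have := hX p hp
      omega
    · intro p _ _
      positivity
  refine h1.trans ?_
  have h3 := sum_Ioo_inv_sq_le (α := ℝ) (Z - 1) X
  refine h3.trans (le_of_eq ?_)
  congr 1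
  rw [Nat.cast_sub hZ]
  ring

end Pool.Agent.WeirdK
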