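import Pool.Agent.WeirdK.Sharp
import Pool.Agent.WeirdK.Lower

set_option autoImplicit false

namespace Pool.Agent.WeirdK

open Finset Filter

theorem two_mul_le_two_pow_of {a : ℕ} (ha : 3 ≤ a) : 2 * a ≤ 2 ^ a := by
  induction a, ha using Nat.le_induction with
  | base => norm_num
  | succ m hm ih =>
    rw [pow_succ]
    omega

theorem sq_le_two_pow {a : ℕ} (ha : 16 ≤ a) : 8 * a ^ 2 ≤ 2 ^ a := by
  induction a, ha using Nat.le_induction with
  | base => norm_num
  | succ m hm ih =>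
    rw [pow_succ 2 m]
    nlinarith

/-- Upper bound, parametric form: `C(2^k) ≤ 23 k / r` when `k ≥ 4 r r!`. -/
theorem upper_r {k r n : ℕ} (hr : 4 ≤ r) (hk : 4 * r * r.factorial ≤ k) (hn : 0 < n)
    (hA : 23 * k * n ≤ r * ∑ d ∈ n.divisors, d) : Rep (2 ^ k) n := by
  have hf : 24 ≤ r.factorial := by
    have : Nat.factorial 4 ≤ r.factorial := Nat.factorial_le hr
    exact this
  have hrf : r ≤ r.factorial := Nat.self_le_factorial r
  set t := (k + r - 1) / r with ht
  have h1 : k ≤ r * t := by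
    have h := Nat.div_add_mod (k + r - 1) r
    have h' := Nat.mod_lt (k + r - 1) (show 0 < r by omega)
    rw [← ht] at h
    omega
  have h2 : r * t ≤ k + r := by
    have h := Nat.mul_div_le (k + r - 1) r
    rw [← ht] at h
    omega
  have h3 : 4 * r.factorial ≤ t := by
    have h : r * (4 * r.factorial) ≤ r * t := by
      calc r * (4 * r.factorial) = 4 * r * r.factorial := by ring
        _ ≤ k := hk
        _ ≤ r * t := h1
    exact Nat.le_of_mul_le_mul_left h (by omega)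
  have h4 : 22 * r ≤ k := by
    calc 22 * r ≤ 4 * r * r.factorial := by nlinarith
      _ ≤ k := hk
  have h5 : 22 * t * n ≤ ∑ d ∈ n.divisors, d := by
    have h : r * (22 * t * n) ≤ r * ∑ d ∈ n.divisors, d := by
      calc r * (22 * t * n) = 22 * (r * t) * n := by ring
        _ ≤ 22 * (k + r) * n := by gcongr
        _ ≤ 23 * k * n := Nat.mul_le_mul_right _ (by omega)
        _ ≤ r * ∑ d ∈ n.divisors, d := hA
    exact Nat.le_of_mul_le_mul_left h (by omega)
  have hsq := sq_le_two_pow (show 16 ≤ t by omega)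
  apply sharp hn hr (by omega) _ h1 _ _ h5
  · calc 32 * r.factorial * n ≤ 22 * t * n := Nat.mul_le_mul_right _ (by omega)
      _ ≤ _ := h5
  · calc 82 ≤ 4 * 4 * 24 := by norm_num
      _ ≤ 4 * r * r.factorial := by gcongr
      _ ≤ k := hk
  · calc 64 * r.factorial ≤ 16 * t := by omega
      _ ≤ 8 * t ^ 2 := by nlinarith
      _ ≤ 2 ^ t := hsq
  · calc 8 * k ≤ 8 * (r * t) := Nat.mul_le_mul_left _ h1
      _ ≤ 8 * (t * t) := by
        apply Nat.mul_le_mul_left
        exact Nat.mul_le_mul_right _ (by omega)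
      _ = 8 * t ^ 2 := by ring
      _ ≤ 2 ^ t := hsq

/-- Eventually `log log k ≤ (log k) / 8`, and `log log k ≥ 2`. -/
theorem exists_large : ∃ k₀ : ℕ, ∀ k : ℕ, k₀ ≤ k →
    Real.log (Real.log k) ≤ Real.log k / 8 ∧ 2 ≤ Real.log (Real.log k) := by
  have h1 : ∀ᶠ x : ℝ in atTop, Real.log x ≤ x / 8 := by
    have h := Real.isLittleO_log_id_atTop.def (show (0 : ℝ) < 1 / 8 by norm_num)
    filter_upwards [h, eventually_ge_atTop (1 : ℝ)] with x hx hx1
    rw [Real.norm_of_nonneg (Real.log_nonneg hx1), id, Real.norm_of_nonneg (by linarith)] at hx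
    linarith
  have h2 : ∀ᶠ x : ℝ in atTop, 2 ≤ Real.log x :=
    Real.tendsto_log_atTop.eventually_ge_atTop 2
  have h3 : Tendsto (fun k : ℕ => Real.log (k : ℝ)) atTop atTop :=
    Real.tendsto_log_atTop.comp tendsto_natCast_atTop_atTop
  have h4 := h3.eventually (h1.and h2)
  rw [eventually_atTop] at h4
  obtain ⟨k₀, hk₀⟩ := h4
  exact ⟨k₀, fun k hk => hk₀ k hk⟩

theorem upper_log {k n : ℕ} (h8 : Real.log (Real.log k) ≤ Real.log k / 8)
    (h2 : 2 ≤ Real.log (Real.log k)) (hn : 0 < n)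
    (hA : 92 * ((k : ℝ) * Real.log (Real.log k) / Real.log k) ≤
      ((∑ d ∈ n.divisors, d : ℕ) : ℝ) / n) : Rep (2 ^ k) n := by
  set x := Real.log (k : ℝ) with hx
  set y := Real.log x with hy
  have hx0 : 0 < x := by linarith
  have hy0 : 0 < y := by linarith
  have hk0 : (0 : ℝ) < k := by
    rcases Nat.eq_zero_or_pos k with h0 | h0
    · rw [hx, h0, Nat.cast_zero, Real.log_zero] at hx0
      exact absurd hx0 (lt_irrefl _)
    · exact_mod_cast h0
  set r := ⌊x / (2 * y)⌋₊ with hr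
  have hxy : 4 ≤ x / (2 * y) := by
    rw [le_div_iff₀ (by positivity)]
    linarith
  have hr4 : 4 ≤ r := Nat.le_floor (by exact_mod_cast hxy)
  have hrle : (r : ℝ) ≤ x / (2 * y) := Nat.floor_le (by positivity)
  have hrge : x / (2 * y) < r + 1 := Nat.lt_floor_add_one _
  have hr0 : (0 : ℝ) < r := by
    have : (4 : ℝ) ≤ r := by exact_mod_cast hr4
    linarith
  have hrx : (r : ℝ) ≤ x := by
    refine hrle.trans ?_
    rw [div_le_iff₀ (by positivity)]
    nlinarith
  have hfac : 4 * r * r.factorial ≤ k := by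
    have h1 : r.factorial ≤ r ^ r := Nat.factorial_le_pow r
    have h3 : Real.log (4 * (r : ℝ) ^ (r + 1)) ≤ x := by
      rw [Real.log_mul (by norm_num) (by positivity), Real.log_pow]
      have h4 : Real.log (r : ℝ) ≤ y := Real.log_le_log hr0 hrx
      have h5 : Real.log 4 ≤ 2 := by
        have h6 : Real.log 4 = 2 * Real.log 2 := by
          rw [show (4 : ℝ) = 2 ^ 2 by norm_num, Real.log_pow]
          norm_num
        have := Real.log_two_lt_d9
        rw [h6]
        linarith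
      have h7 : ((r + 1 : ℕ) : ℝ) * Real.log r ≤ (x / (2 * y) + 1) * y := by
        push_cast
        have h8 : 0 ≤ Real.log (r : ℝ) := Real.log_natCast_nonneg r
        exact mul_le_mul (by linarith) h4 h8 (by positivity)
      have h9 : (x / (2 * y) + 1) * y = x / 2 + y := by
        field_simp
      linarith
    have h4 : 4 * (r : ℝ) ^ (r + 1) ≤ k := by
      have h5 := (Real.log_le_log_iff (by positivity) hk0).mp (hx ▸ h3)
      exact h5
    have h6 : 4 * r ^ (r + 1) ≤ k := by exact_mod_cast h4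
    calc 4 * r * r.factorial ≤ 4 * r * r ^ r := Nat.mul_le_mul_left _ h1
      _ = 4 * r ^ (r + 1) := by rw [pow_succ]; ring
      _ ≤ k := h6
  apply upper_r hr4 hfac hn
  have hnR : (0 : ℝ) < n := by exact_mod_cast hn
  have h10 : x / (4 * y) ≤ r := by
    have h11 : x / (4 * y) = x / (2 * y) / 2 := by
      field_simp
      norm_num
    rw [h11]
    linarith
  have h12 : (23 * k : ℝ) ≤ r * (((∑ d ∈ n.divisors, d : ℕ) : ℝ) / n) := by
    calc (23 * k : ℝ) = x / (4 * y) * (92 * ((k : ℝ) * y / x)) := by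
          field_simp
          norm_num
      _ ≤ r * (((∑ d ∈ n.divisors, d : ℕ) : ℝ) / n) :=
          mul_le_mul h10 hA (by positivity) hr0.le
  have h13 : (23 * k * n : ℝ) ≤ r * ((∑ d ∈ n.divisors, d : ℕ) : ℝ) := by
    have h14 := mul_le_mul_of_nonneg_right h12 hnR.le
    have h15 : (r : ℝ) * (((∑ d ∈ n.divisors, d : ℕ) : ℝ) / n) * n =
        r * ((∑ d ∈ n.divisors, d : ℕ) : ℝ) := by
      field_simp
    rw [h15] at h14
    exact h14
  exact_mod_cast h13

theorem lower_log {k : ℕ} (hk : 2 ^ 20 ≤ k) (h2 : 2 ≤ Real.log (Real.log k)) :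
    ∃ n : ℕ, 0 < n ∧ 1 / 300 * ((k : ℝ) * Real.log (Real.log k) / Real.log k) ≤
      ((∑ d ∈ n.divisors, d : ℕ) : ℝ) / n ∧ ¬ Rep (2 ^ k) n := by
  set x := Real.log (k : ℝ) with hx
  set y := Real.log x with hy
  have hk0 : 0 < k := lt_of_lt_of_le (by norm_num) hk
  have hkR : (0 : ℝ) < k := by exact_mod_cast hk0
  set a := Nat.log 2 k with ha
  have ha20 : 20 ≤ a := Nat.le_log_of_pow_le (by norm_num) hk
  have hak : 2 ^ a ≤ k := Nat.pow_log_le_self 2 hk0.ne'
  have hka : k < 2 ^ (a + 1) := Nat.lt_pow_succ_log_self (by norm_num) k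
  set m := Nat.log 2 a with hm
  have hm4 : 4 ≤ m := Nat.le_log_of_pow_le (by norm_num) (by omega)
  have hma : 2 ^ m ≤ a := Nat.pow_log_le_self 2 (by omega)
  have ham : a < 2 ^ (m + 1) := Nat.lt_pow_succ_log_self (by norm_num) a
  have hmlt : m < 2 ^ m := Nat.lt_two_pow_self
  have h16 : 16 ≤ 2 ^ m := by
    calc 16 = 2 ^ 4 := by norm_num
      _ ≤ 2 ^ m := Nat.pow_le_pow_right (by norm_num) hm4
  set R := 44 * 2 ^ m / m + 1 with hR
  have hRm : 44 * 2 ^ m < m * R := Nat.lt_mul_div_succ _ (by omega)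
  have hRm' : R * m ≤ 45 * 2 ^ m := by
    have h := Nat.div_mul_le_self (44 * 2 ^ m) m
    have h' : R * m = 44 * 2 ^ m / m * m + m := by rw [hR]; ring
    omega
  have hR45 : R ≤ 45 * 2 ^ m := by
    calc R ≤ R * m := Nat.le_mul_of_pos_right _ (by omega)
      _ ≤ _ := hRm'
  have hR0 : 0 < R := Nat.succ_pos _
  set j := k / R with hj
  have hjR : R * j ≤ k := Nat.mul_div_le k R
  have hjk : k < R * (j + 1) := Nat.lt_mul_div_succ k hR0
  -- j is large
  have hbig : ∀ b : ℕ, 20 ≤ b → 45 * b * (2 * b + 14) ≤ 2 ^ b := by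
    intro b hb
    induction b, hb using Nat.le_induction with
    | base => norm_num
    | succ b hb ih =>
      rw [pow_succ 2 b]
      nlinarith
  have hj14 : 2 * a + 14 ≤ j := by
    rw [hj, Nat.le_div_iff_mul_le hR0]
    calc (2 * a + 14) * R ≤ (2 * a + 14) * (45 * a) := by
          apply Nat.mul_le_mul_left
          omega
      _ = 45 * a * (2 * a + 14) := by ring
      _ ≤ 2 ^ a := hbig a ha20
      _ ≤ k := hak
  have hpow : 2 ^ (m + 1) = 2 * 2 ^ m := by ring
  have hjkk : j ≤ k := Nat.div_le_self k R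
  refine ⟨(2 ^ j).factorial, Nat.factorial_pos _, ?_,
    not_rep (m := m) (R := R) (h := a + 1) (by omega) (by omega) (by omega) ?_ hjR⟩
  swap
  · rw [mul_comm R m]
    omega
  have hnR : (0 : ℝ) < ((2 ^ j).factorial : ℝ) := by exact_mod_cast Nat.factorial_pos _
  rw [le_div_iff₀ hnR]
  refine le_trans ?_ (sigma_factorial j)
  apply mul_le_mul_of_nonneg_right _ hnR.le
  have hl0 : (0 : ℝ) < Real.log 2 := Real.log_pos (by norm_num)
  have hlg := Real.log_two_gt_d9
  have hll := Real.log_two_lt_d9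
  -- x bounds
  have hxa : (a : ℝ) * Real.log 2 ≤ x := by
    have h : ((2 ^ a : ℕ) : ℝ) ≤ k := by exact_mod_cast hak
    have h' := Real.log_le_log (by positivity) h
    push_cast at h'
    rw [Real.log_pow] at h'
    exact h'
  have hxa' : x ≤ 2 ^ (m + 1) := by
    have h : (k : ℝ) ≤ ((2 ^ (a + 1) : ℕ) : ℝ) := by exact_mod_cast hka.le
    have h' := Real.log_le_log hkR h
    push_cast at h'
    rw [Real.log_pow] at h'
    push_cast at h'
    have h3 : ((a + 1 : ℕ) : ℝ) ≤ ((2 ^ (m + 1) : ℕ) : ℝ) := by exact_mod_cast ham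
    push_cast at h3
    have h4 : (0 : ℝ) ≤ (a : ℝ) + 1 := by positivity
    calc x ≤ ((a : ℝ) + 1) * Real.log 2 := h'
      _ ≤ ((a : ℝ) + 1) * 1 := mul_le_mul_of_nonneg_left (by linarith) h4
      _ = (a : ℝ) + 1 := mul_one _
      _ ≤ 2 ^ (m + 1) := h3
  have ha20R : (20 : ℝ) ≤ a := by exact_mod_cast ha20
  have hx0 : 0 < x := by nlinarith
  have hym : y ≤ (m + 1) * Real.log 2 := by
    have h := Real.log_le_log hx0 hxa'
    rw [Real.log_pow] at h
    push_cast at h
    exact h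
  have hym2 : y / 2 ≤ m * Real.log 2 := by linarith
  have hma' : (2 : ℝ) ^ m * Real.log 2 ≤ x := by
    have h : ((2 ^ m : ℕ) : ℝ) ≤ a := by exact_mod_cast hma
    push_cast at h
    nlinarith
  -- j bound
  have hj1 : (k : ℝ) ≤ R * (2 * j) := by
    have h : k ≤ R * (2 * j) := by
      calc k ≤ R * (j + 1) := hjk.le
        _ ≤ R * (2 * j) := Nat.mul_le_mul_left _ (by omega)
    exact_mod_cast h
  have hRmR : (R : ℝ) * m ≤ 45 * 2 ^ m := by exact_mod_cast hRm'
  have hj0 : (0 : ℝ) ≤ j := Nat.cast_nonneg _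
  have hmR : (0 : ℝ) < m := by
    have : (4 : ℝ) ≤ m := by exact_mod_cast hm4
    linarith
  -- k * m ≤ 90 * 2^m * j
  have h3 : (k : ℝ) * m ≤ 90 * 2 ^ m * j := by
    calc (k : ℝ) * m ≤ (R * (2 * j)) * m := mul_le_mul_of_nonneg_right hj1 hmR.le
      _ = (R * m) * (2 * j) := by ring
      _ ≤ (45 * 2 ^ m) * (2 * j) := mul_le_mul_of_nonneg_right hRmR (by positivity)
      _ = 90 * 2 ^ m * j := by ring
  have h4 : (k : ℝ) * (y / 2) ≤ 90 * x * j := by
    calc (k : ℝ) * (y / 2) ≤ k * (m * Real.log 2) := mul_le_mul_of_nonneg_left hym2 hkR.le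
      _ = (k * m) * Real.log 2 := by ring
      _ ≤ (90 * 2 ^ m * j) * Real.log 2 := mul_le_mul_of_nonneg_right h3 hl0.le
      _ = 90 * (2 ^ m * Real.log 2) * j := by ring
      _ ≤ 90 * x * j := by gcongr
  have h5 : (k : ℝ) * y / x ≤ 180 * j := by
    rw [div_le_iff₀ hx0]
    linarith
  linarith

/-- The exact order of the abundancy threshold. -/
theorem exact_order : ∃ k₀ : ℕ, ∀ k : ℕ, k₀ ≤ k →
    (∀ n : ℕ, 0 < n → 92 * ((k : ℝ) * Real.log (Real.log k) / Real.log k) ≤
      ((∑ d ∈ n.divisors, d : ℕ) : ℝ) / n → Rep (2 ^ k) n) ∧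
    (∃ n : ℕ, 0 < n ∧ 1 / 300 * ((k : ℝ) * Real.log (Real.log k) / Real.log k) ≤
      ((∑ d ∈ n.divisors, d : ℕ) : ℝ) / n ∧ ¬ Rep (2 ^ k) n) := by
  obtain ⟨k₀, hk₀⟩ := exists_large
  refine ⟨max k₀ (2 ^ 20), fun k hk => ?_⟩
  obtain ⟨h8, h2⟩ := hk₀ k ((le_max_left _ _).trans hk)
  exact ⟨fun n hn hA => upper_log h8 h2 hn hA,
    lower_log ((le_max_right _ _).trans hk) h2⟩

theorem rep_mono {K K' n : ℕ} (h : K ≤ K') (hr : Rep K' n) : Rep K n := by
  obtain ⟨s, hs, hK, hsum⟩ := hr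
  exact ⟨s, hs, fun d hd => (Nat.mul_le_mul_right d h).trans (hK d hd), hsum⟩

/-- The explicit bound, for every `k`. -/
theorem abund_lt_max {n k : ℕ} (hn : 0 < n) (hns : ¬ Rep (2 ^ k) n) :
    4 * ∑ d ∈ n.divisors, d < 7 * max k 82 * n :=
  abund_lt hn (le_max_right _ _) (fun h => hns (rep_mono
    (Nat.pow_le_pow_right (by norm_num) (le_max_left _ _)) h))

/-- The exact order of the abundancy threshold, for all large integers `K`. -/
theorem exact_order_K : ∃ K₀ : ℕ, ∀ K : ℕ, K₀ ≤ K →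
    (∀ n : ℕ, 0 < n →
      368 * (Real.log K * Real.log (Real.log (Real.log K)) / Real.log (Real.log K)) ≤
        ((∑ d ∈ n.divisors, d : ℕ) : ℝ) / n → Rep K n) ∧
    (∃ n : ℕ, 0 < n ∧
      1 / 600 * (Real.log K * Real.log (Real.log (Real.log K)) / Real.log (Real.log K)) ≤
        ((∑ d ∈ n.divisors, d : ℕ) : ℝ) / n ∧ ¬ Rep K n) := by
  obtain ⟨k₀, hk₀⟩ := exact_order
  have h3 : Tendsto (fun K : ℕ => Real.log (K : ℝ)) atTop atTop :=
    Real.tendsto_log_atTop.comp tendsto_natCast_atTop_atTop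
  have h4 : Tendsto (fun K : ℕ => Real.log (Real.log (Real.log (K : ℝ)))) atTop atTop :=
    Real.tendsto_log_atTop.comp (Real.tendsto_log_atTop.comp h3)
  have h5 := (h3.eventually_ge_atTop ((k₀ : ℝ) + 10)).and (h4.eventually_ge_atTop 2)
  rw [eventually_atTop] at h5
  obtain ⟨K₁, hK₁⟩ := h5
  refine ⟨K₁, fun K hK => ?_⟩
  obtain ⟨hX, hZ⟩ := hK₁ K hK
  set X := Real.log (K : ℝ) with hXdef
  set Y := Real.log X with hYdef
  set Z := Real.log Y with hZdef
  have hk₀0 : (0 : ℝ) ≤ k₀ := Nat.cast_nonneg _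
  have hX0 : 0 < X := by linarith
  have hY0 : 0 < Y := by
    apply Real.log_pos
    linarith
  have hK0 : 0 < K := by
    rcases Nat.eq_zero_or_pos K with h0 | h0
    · rw [hXdef, h0, Nat.cast_zero, Real.log_zero] at hX0
      exact absurd hX0 (lt_irrefl _)
    · exact h0
  have hKR : (0 : ℝ) < K := by exact_mod_cast hK0
  -- Y ≥ 1 and Z ≤ Y
  have hY2 : 2 ≤ Y := by
    have h6 := Real.log_le_sub_one_of_pos hY0
    linarith
  have hlg := Real.log_two_gt_d9
  have hll := Real.log_two_lt_d9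
  have hl0 : (0 : ℝ) < Real.log 2 := by linarith
  set k := Nat.log 2 K with hk
  have hkK : 2 ^ k ≤ K := Nat.pow_log_le_self 2 hK0.ne'
  have hKk : K < 2 ^ (k + 1) := Nat.lt_pow_succ_log_self (by norm_num) K
  have hkX : (k : ℝ) * Real.log 2 ≤ X := by
    have h : ((2 ^ k : ℕ) : ℝ) ≤ K := by exact_mod_cast hkK
    have h' := Real.log_le_log (by positivity) h
    push_cast at h'
    rw [Real.log_pow] at h'
    exact h'
  have hXk : X ≤ ((k : ℝ) + 1) * Real.log 2 := by
    have h : (K : ℝ) ≤ ((2 ^ (k + 1) : ℕ) : ℝ) := by exact_mod_cast hKk.le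
    have h' := Real.log_le_log hKR h
    push_cast at h'
    rw [Real.log_pow] at h'
    push_cast at h'
    exact h'
  have hkge : X ≤ k := by nlinarith
  have hkle : (k : ℝ) + 1 ≤ 2 * X := by nlinarith
  have hkk₀ : k₀ ≤ k := by
    have : (k₀ : ℝ) ≤ k := by linarith
    exact_mod_cast this
  have hlog2X : Real.log (2 * X) ≤ 2 * Y := by
    rw [Real.log_mul (by norm_num) hX0.ne', ← hYdef]
    linarith
  have hlog2Y : Real.log (2 * Y) ≤ 2 * Z := by
    rw [Real.log_mul (by norm_num) hY0.ne', ← hZdef]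
    linarith
  constructor
  · intro n hn hA
    apply rep_mono hKk.le
    refine (hk₀ (k + 1) (by omega)).1 n hn (le_trans ?_ hA)
    have h7 : Y ≤ Real.log ((k + 1 : ℕ) : ℝ) := by
      apply Real.log_le_log hX0
      push_cast
      linarith
    have h8 : Real.log ((k + 1 : ℕ) : ℝ) ≤ 2 * Y := by
      refine le_trans (Real.log_le_log (by positivity) ?_) hlog2X
      push_cast
      exact hkle
    have h9 : Real.log (Real.log ((k + 1 : ℕ) : ℝ)) ≤ 2 * Z :=
      le_trans (Real.log_le_log (by linarith) h8) hlog2Y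
    have h10 : ((k + 1 : ℕ) : ℝ) * Real.log (Real.log ((k + 1 : ℕ) : ℝ)) /
        Real.log ((k + 1 : ℕ) : ℝ) ≤ (2 * X) * (2 * Z) / Y := by
      apply div_le_div₀ (by positivity) _ hY0 h7
      apply mul_le_mul _ h9 _ (by positivity)
      · push_cast
        exact hkle
      · apply Real.log_nonneg
        linarith
    calc 92 * (((k + 1 : ℕ) : ℝ) * Real.log (Real.log ((k + 1 : ℕ) : ℝ)) /
          Real.log ((k + 1 : ℕ) : ℝ)) ≤ 92 * ((2 * X) * (2 * Z) / Y) :=
          mul_le_mul_of_nonneg_left h10 (by norm_num)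
      _ = 368 * (X * Z / Y) := by ring
  · obtain ⟨n, hn, hA, hns⟩ := (hk₀ k hkk₀).2
    refine ⟨n, hn, le_trans ?_ hA, fun h => hns (rep_mono hkK h)⟩
    have hk0R : (0 : ℝ) < k := by linarith
    have h7 : Y ≤ Real.log (k : ℝ) := Real.log_le_log hX0 hkge
    have h8 : Real.log (k : ℝ) ≤ 2 * Y :=
      le_trans (Real.log_le_log hk0R (by linarith)) hlog2X
    have h9 : Z ≤ Real.log (Real.log (k : ℝ)) := Real.log_le_log hY0 h7
    have h10 : X * Z / (2 * Y) ≤
        (k : ℝ) * Real.log (Real.log (k : ℝ)) / Real.log (k : ℝ) := by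
      apply div_le_div₀ _ _ (by linarith) h8
      · apply mul_nonneg hk0R.le
        linarith
      · apply mul_le_mul hkge h9 (by linarith) hk0R.le
    calc 1 / 600 * (X * Z / Y) = 1 / 300 * (X * Z / (2 * Y)) := by
          field_simp
          norm_num
      _ ≤ 1 / 300 * ((k : ℝ) * Real.log (Real.log (k : ℝ)) / Real.log (k : ℝ)) :=
          mul_le_mul_of_nonneg_left h10 (by norm_num)

end Pool.Agent.WeirdK
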