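import Pool.Agent.WeirdK.Upper
import Pool.Agent.WeirdK.Mass

set_option autoImplicit false

namespace Pool.Agent.WeirdK

open Finset Pool.Agent.Weird

theorem le_prod_of_card {Z r : ℕ} (w : Finset ℕ) (hw : ∀ p ∈ w, Z ≤ p) (hr : r ≤ w.card)
    (hZ : 1 ≤ Z) : Z ^ r ≤ ∏ p ∈ w, p := by
  calc Z ^ r ≤ Z ^ w.card := Nat.pow_le_pow_right hZ hr
    _ ≤ ∏ p ∈ w, p := Finset.pow_card_le_prod w (fun p => p) Z hw

/-- The divisors `e` of `N₁ N₂` with `2^k e ≤ N₁ N₂`: a lower bound for their sum. -/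
theorem mass_lower {k r t N₁ N₂ : ℕ} (hk : k ≤ r * t) (h1 : 0 < N₁) (h2 : 0 < N₂)
    (hcop : Nat.Coprime N₁ N₂) (hp2 : ∀ p, p.Prime → p ∣ N₂ → 2 ^ t ≤ p) :
    ((∑ d ∈ N₁.divisors, d : ℕ) : ℝ) * (N₂ * Mr N₂.primeFactors (fun p => 1 / (p : ℝ)) r) ≤
      ((∑ e ∈ (N₁ * N₂).divisors.filter (fun e => 2 ^ k * e ≤ N₁ * N₂), e : ℕ) : ℝ) := by
  classical
  set P := N₂.primeFactors with hP
  set W := P.powerset.filter (fun w => r ≤ w.card) with hW
  have hPp : ∀ p ∈ P, p.Prime := fun p hp => Nat.prime_of_mem_primeFactors hp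
  have hwd : ∀ w ∈ W, w ⊆ P ∧ r ≤ w.card ∧ ∏ p ∈ w, p ∣ N₂ ∧ 2 ^ k ≤ ∏ p ∈ w, p := by
    intro w hw
    rw [hW, Finset.mem_filter, Finset.mem_powerset] at hw
    refine ⟨hw.1, hw.2, (Finset.prod_dvd_prod_of_subset _ _ _ hw.1).trans
      (Nat.prod_primeFactors_dvd N₂), ?_⟩
    calc 2 ^ k ≤ 2 ^ (r * t) := Nat.pow_le_pow_right (by norm_num) hk
      _ = (2 ^ t) ^ r := by rw [mul_comm, pow_mul]
      _ ≤ ∏ p ∈ w, p := le_prod_of_card w (fun p hp => hp2 p (hPp p (hw.1 hp))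
          (Nat.dvd_of_mem_primeFactors (hw.1 hp))) hw.2 Nat.one_le_two_pow
  have hN2R : (0 : ℝ) < N₂ := by exact_mod_cast h2
  -- the left side as a sum over pairs
  have hleft : ((∑ d ∈ N₁.divisors, d : ℕ) : ℝ) *
      (N₂ * Mr P (fun p => 1 / (p : ℝ)) r) =
      ((∑ t ∈ N₁.divisors ×ˢ W, t.1 * (N₂ / ∏ p ∈ t.2, p) : ℕ) : ℝ) := by
    rw [Finset.sum_product]
    push_cast
    rw [Finset.sum_mul]
    apply Finset.sum_congr rfl
    intro d _
    unfold Mr
    rw [← hW, Finset.mul_sum, Finset.mul_sum]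
    apply Finset.sum_congr rfl
    intro w hw
    obtain ⟨hw1, hw2, hw3, hw4⟩ := hwd w hw
    have hw0 : ((∏ p ∈ w, p : ℕ) : ℝ) ≠ 0 := by
      have : 0 < ∏ p ∈ w, p := Finset.prod_pos (fun p hp => (hPp p (hw1 hp)).pos)
      exact_mod_cast this.ne'
    rw [Nat.cast_div hw3 hw0, Nat.cast_prod, Finset.prod_div_distrib, Finset.prod_const_one]
    ring
  rw [hleft]
  have hinj : Set.InjOn (fun t : ℕ × Finset ℕ => t.1 * (N₂ / ∏ p ∈ t.2, p))
      ((N₁.divisors ×ˢ W : Finset (ℕ × Finset ℕ)) : Set (ℕ × Finset ℕ)) := by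
    intro a ha b hb hab
    rw [Finset.mem_coe, Finset.mem_product] at ha hb
    obtain ⟨ha1, ha2⟩ := ha
    obtain ⟨hb1, hb2⟩ := hb
    obtain ⟨hwa1, _, hwa3, _⟩ := hwd _ ha2
    obtain ⟨hwb1, _, hwb3, _⟩ := hwd _ hb2
    obtain ⟨e1, e2⟩ := cop_mul_inj hcop (Nat.dvd_of_mem_divisors ha1)
      (Nat.dvd_of_mem_divisors hb1) (Nat.div_dvd_of_dvd hwa3) (Nat.div_dvd_of_dvd hwb3) h1 hab
    have e3 : ∏ p ∈ a.2, p = ∏ p ∈ b.2, p := by
      have e4 : N₂ / (N₂ / ∏ p ∈ a.2, p) = ∏ p ∈ a.2, p := Nat.div_div_self hwa3 h2.ne'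
      have e5 : N₂ / (N₂ / ∏ p ∈ b.2, p) = ∏ p ∈ b.2, p := Nat.div_div_self hwb3 h2.ne'
      rw [← e4, ← e5, e2]
    exact Prod.ext e1 (prod_injOn_primes hPp hwa1 hwb1 e3)
  have hsum : ∑ t ∈ N₁.divisors ×ˢ W, t.1 * (N₂ / ∏ p ∈ t.2, p) ≤
      ∑ e ∈ (N₁ * N₂).divisors.filter (fun e => 2 ^ k * e ≤ N₁ * N₂), e := by
    rw [← Finset.sum_image (f := fun e => e) hinj]
    apply Finset.sum_le_sum_of_subset
    intro e he
    rw [Finset.mem_image] at he
    obtain ⟨a, ha, rfl⟩ := he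
    rw [Finset.mem_product] at ha
    obtain ⟨hwa1, _, hwa3, hwa4⟩ := hwd _ ha.2
    rw [Finset.mem_filter, Nat.mem_divisors]
    refine ⟨⟨Nat.mul_dvd_mul (Nat.dvd_of_mem_divisors ha.1) (Nat.div_dvd_of_dvd hwa3),
      (Nat.mul_pos h1 h2).ne'⟩, ?_⟩
    have h3 : (∏ p ∈ a.2, p) * (N₂ / ∏ p ∈ a.2, p) = N₂ := Nat.mul_div_cancel' hwa3
    calc 2 ^ k * (a.1 * (N₂ / ∏ p ∈ a.2, p)) = a.1 * (2 ^ k * (N₂ / ∏ p ∈ a.2, p)) := by ring
      _ ≤ N₁ * ((∏ p ∈ a.2, p) * (N₂ / ∏ p ∈ a.2, p)) :=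
        Nat.mul_le_mul (Nat.le_of_dvd h1 (Nat.dvd_of_mem_divisors ha.1))
          (Nat.mul_le_mul_right _ hwa4)
      _ = N₁ * N₂ := by rw [h3]
  exact_mod_cast hsum

/-- `σ` of the middle part in terms of `s = ∑ 1/p`. -/
theorem middle_sigma_le {t N₂ : ℕ} (ht : 82 ≤ t) (h2 : 0 < N₂)
    (hp2 : ∀ p, p.Prime → p ∣ N₂ → 2 ^ t ≤ p) :
    ((∑ d ∈ N₂.divisors, d : ℕ) : ℝ) ≤
      N₂ * (Real.exp (∑ p ∈ N₂.primeFactors, 1 / (p : ℝ)) * (1001 / 1000)) := by
  have hN2R : (0 : ℝ) < N₂ := by exact_mod_cast h2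
  refine (sigma_le_prod N₂ h2).trans (mul_le_mul_of_nonneg_left ?_ hN2R.le)
  set P := N₂.primeFactors with hP
  have hPge : ∀ p ∈ P, 2 ^ t ≤ p := fun p hp =>
    hp2 p (Nat.prime_of_mem_primeFactors hp) (Nat.dvd_of_mem_primeFactors hp)
  have hterm : ∀ p ∈ P, ((p : ℝ) / ((p : ℝ) - 1)) ≤
      Real.exp (1 / (p : ℝ) + 2 * (1 / (p : ℝ)) ^ 2) := by
    intro p hp
    have hp2 : (2 : ℝ) ≤ p := by exact_mod_cast (Nat.prime_of_mem_primeFactors hp).two_le
    have hp0 : (0 : ℝ) < p := by linarith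
    have hp1 : (0 : ℝ) < (p : ℝ) - 1 := by linarith
    have h4 := Real.add_one_le_exp (1 / (p : ℝ) + 2 * (1 / (p : ℝ)) ^ 2)
    refine le_trans ?_ h4
    have h5 : (p : ℝ) / ((p : ℝ) - 1) = 1 / p + 1 / (p * (p - 1)) + 1 := by
      field_simp
      ring
    rw [h5]
    have h6 : 1 / ((p : ℝ) * (p - 1)) ≤ 2 * (1 / (p : ℝ)) ^ 2 := by
      have h7 : 2 * (1 / (p : ℝ)) ^ 2 = 2 / (p : ℝ) ^ 2 := by
        field_simp
      rw [h7, div_le_div_iff₀ (by positivity) (by positivity)]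
      nlinarith
    linarith
  have hsq := sum_inv_sq_le P Nat.one_le_two_pow hPge
  have hq : (2 : ℝ) / ((2 ^ t : ℕ) : ℝ) ≤ 1 / 10000 := by
    push_cast
    have h8 : (2 : ℝ) / 2 ^ t ≤ 2 / 2 ^ 82 := by
      apply div_le_div_of_nonneg_left (by norm_num) (by positivity)
      exact pow_le_pow_right₀ (by norm_num) ht
    have h9 : (2 : ℝ) / 2 ^ 82 ≤ 1 / 10000 := by norm_num
    linarith
  calc ∏ p ∈ P, ((p : ℝ) / ((p : ℝ) - 1))
      ≤ ∏ p ∈ P, Real.exp (1 / (p : ℝ) + 2 * (1 / (p : ℝ)) ^ 2) := by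
        apply Finset.prod_le_prod _ hterm
        intro p hp
        exact le_trans zero_le_one (one_le_g (Nat.prime_of_mem_primeFactors hp))
    _ = Real.exp (∑ p ∈ P, 1 / (p : ℝ)) * Real.exp (2 * ∑ p ∈ P, (1 / (p : ℝ)) ^ 2) := by
        rw [← Real.exp_sum, Finset.sum_add_distrib, Real.exp_add, Finset.mul_sum]
    _ ≤ Real.exp (∑ p ∈ P, 1 / (p : ℝ)) * (1001 / 1000) := by
        apply mul_le_mul_of_nonneg_left _ (Real.exp_pos _).le
        have h10 : 2 * ∑ p ∈ P, (1 / (p : ℝ)) ^ 2 ≤ 1 / 5000 := by linarith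
        refine le_trans (Real.exp_le_exp.mpr h10) ?_
        have h := Real.exp_bound' (x := 1 / 5000) (by norm_num) (by norm_num)
          (n := 2) (by norm_num)
        refine h.trans ?_
        norm_num [Finset.sum_range_succ, Nat.factorial]

theorem sigma_ge_self {N : ℕ} (hN : 0 < N) : N ≤ ∑ d ∈ N.divisors, d :=
  Finset.single_le_sum (f := fun d => d) (fun _ _ => Nat.zero_le _)
    (Nat.mem_divisors_self _ hN.ne')

/-- The sharp upper bound. -/
theorem sharp {n k r t : ℕ} (hn : 0 < n) (hr : 4 ≤ r) (ht : 82 ≤ t) (hk : 82 ≤ k)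
    (hkrt : k ≤ r * t) (hfac : 64 * r.factorial ≤ 2 ^ t) (h8k : 8 * k ≤ 2 ^ t)
    (hA1 : 22 * t * n ≤ ∑ d ∈ n.divisors, d)
    (hA2 : 32 * r.factorial * n ≤ ∑ d ∈ n.divisors, d) : Rep (2 ^ k) n := by
  classical
  by_contra hns
  have hab := abund_lt hn hk hns
  have hU : n < 2 ^ (n + t) := lt_of_lt_of_le (Nat.lt_two_pow_self)
    (Nat.pow_le_pow_right (by norm_num) (Nat.le_add_right _ _))
  have hnR : (0 : ℝ) < n := by exact_mod_cast hn
  have htR : (82 : ℝ) ≤ t := by exact_mod_cast ht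
  have hA1R : 22 * (t : ℝ) * n ≤ ((∑ d ∈ n.divisors, d : ℕ) : ℝ) := by exact_mod_cast hA1
  have hA2R : 32 * (r.factorial : ℝ) * n ≤ ((∑ d ∈ n.divisors, d : ℕ) : ℝ) := by
    exact_mod_cast hA2
  rcases stop_or (n := n) (K := n + t) (by omega : 40 ≤ t) (by omega) with
    ⟨B, ⟨hB, hBn, hBp, hBgood, hBsum⟩, hBS⟩ | ⟨j, B, htj, hjU, hB, hBn, hBp, hg, hS2, hlo, hhi, hD⟩
  · -- never stopped
    obtain ⟨N, R, hnNR, hN, hR⟩ := exists_split t n hn
    have hN0 : 0 < N := Nat.pos_of_ne_zero (fun h0 => by rw [hnNR, h0, zero_mul] at hn; omega)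
    have hR0 : 0 < R := Nat.pos_of_ne_zero (fun h0 => by rw [hnNR, h0, mul_zero] at hn; omega)
    have hNR : (0 : ℝ) < N := by exact_mod_cast hN0
    have hRR : (0 : ℝ) < R := by exact_mod_cast hR0
    have hBR : (0 : ℝ) < B := by exact_mod_cast hB
    have hf : (S B : ℝ) / B ≤ 1 / 2 := by
      rw [div_le_div_iff₀ hBR (by norm_num)]
      have h : ((2 * S B : ℕ) : ℝ) ≤ ((B : ℕ) : ℝ) := by exact_mod_cast hBS.le
      push_cast at h
      linarith
    have hσR := rough_sigma_le hn hnNR ht (by omega) hU hR (by positivity) hBsum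
    have hσN := smooth_sigma_le hN0 (by omega) hN
    have hσn : ((∑ d ∈ n.divisors, d : ℕ) : ℝ) =
        ((∑ d ∈ N.divisors, d : ℕ) : ℝ) * ((∑ d ∈ R.divisors, d : ℕ) : ℝ) := by
      rw [hnNR, Nat.Coprime.sum_divisors_mul (coprime_of_split hN hR), Nat.cast_mul]
    have hσR' : ((∑ d ∈ R.divisors, d : ℕ) : ℝ) ≤ R * 2 := by
      refine hσR.trans (mul_le_mul_of_nonneg_left ?_ hRR.le)
      linarith
    have hcon : ((∑ d ∈ n.divisors, d : ℕ) : ℝ) ≤ 4 * t * n := by
      rw [hσn]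
      calc ((∑ d ∈ N.divisors, d : ℕ) : ℝ) * ((∑ d ∈ R.divisors, d : ℕ) : ℝ)
          ≤ (1571 / 1000 * t * N) * (R * 2) :=
            mul_le_mul hσN hσR' (Nat.cast_nonneg _) (by positivity)
        _ = 1571 / 500 * t * (N * R) := by ring
        _ ≤ 4 * t * (N * R) := by
            have : 0 ≤ (t : ℝ) * (N * R) := by positivity
            nlinarith
        _ = 4 * t * n := by rw [hnNR]; push_cast; ring
    have : 0 < (t : ℝ) * n := by positivity
    nlinarith
  · -- stopped at level j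
    obtain ⟨N, R, hnNR, hN, hR⟩ := exists_split j n hn
    have hN0 : 0 < N := Nat.pos_of_ne_zero (fun h0 => by rw [hnNR, h0, zero_mul] at hn; omega)
    have hR0 : 0 < R := Nat.pos_of_ne_zero (fun h0 => by rw [hnNR, h0, mul_zero] at hn; omega)
    have hNR : (0 : ℝ) < N := by exact_mod_cast hN0
    have hRR : (0 : ℝ) < R := by exact_mod_cast hR0
    have hBR : (0 : ℝ) < B := by exact_mod_cast hB
    have hσR := rough_sigma_le hn hnNR (by omega) (by omega) hU hR (by norm_num) hD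
    have hσnN : ∑ d ∈ n.divisors, d = (∑ d ∈ N.divisors, d) * ∑ d ∈ R.divisors, d := by
      rw [hnNR, Nat.Coprime.sum_divisors_mul (coprime_of_split hN hR)]
    have hσn : ((∑ d ∈ n.divisors, d : ℕ) : ℝ) =
        ((∑ d ∈ N.divisors, d : ℕ) : ℝ) * ((∑ d ∈ R.divisors, d : ℕ) : ℝ) := by
      rw [hσnN, Nat.cast_mul]
    -- σ(N) < (7/4) k N
    have hσN4 : 4 * ∑ d ∈ N.divisors, d < 7 * k * N := by
      have h1 : (4 * ∑ d ∈ N.divisors, d) * R < (7 * k * N) * R := by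
        calc (4 * ∑ d ∈ N.divisors, d) * R
            ≤ (4 * ∑ d ∈ N.divisors, d) * ∑ d ∈ R.divisors, d :=
              Nat.mul_le_mul_left _ (sigma_ge_self hR0)
          _ = 4 * ∑ d ∈ n.divisors, d := by rw [hσnN]; ring
          _ < 7 * k * n := hab
          _ = (7 * k * N) * R := by rw [hnNR]; ring
      exact lt_of_mul_lt_mul_right h1 (Nat.zero_le _)
    set E := N.divisors.filter (fun e => 2 ^ k * e ≤ N) with hE
    set σE := ∑ e ∈ E, e with hσE
    have hσEN : σE ≤ ∑ d ∈ N.divisors, d :=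
      Finset.sum_le_sum_of_subset (Finset.filter_subset _ _)
    have hcopNB : Nat.Coprime N B := coprime_of_split hN hBp
    have hBRd : B ∣ R := hcopNB.symm.dvd_of_dvd_mul_left (hnNR ▸ hBn)
    have hNBn : N * B ∣ n := hnNR ▸ Nat.mul_dvd_mul_left _ hBRd
    have hw : 16 ≤ 2 ^ t := by
      calc 16 = 2 ^ 4 := by norm_num
        _ ≤ 2 ^ t := Nat.pow_le_pow_right (by norm_num) (by omega)
    -- the mass beyond 2^k is small
    have hmass : 15 * σE < 32 * N := by
      by_contra hcon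
      push Not at hcon
      obtain ⟨s, hs, hsum⟩ := combine E hw hN0 hcopNB hg (by
          intro p hp hpN
          have h1 := hN p hp hpN
          have h2 : 2 ^ (j + 2) = 4 * 2 ^ j := by ring
          omega) (fun e he => Nat.dvd_of_mem_divisors (Finset.mem_filter.mp he).1) (by
          intro e he _
          rw [hE, Finset.mem_filter, Nat.mem_divisors] at he ⊢
          refine ⟨⟨(Nat.div_dvd_of_dvd (Nat.minFac_dvd e)).trans he.1.1, hN0.ne'⟩, ?_⟩
          exact (Nat.mul_le_mul_left _ (Nat.div_le_self _ _)).trans he.2) (by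
          have h1 : 8 * (S B * σE) ≤ 8 * (2 ^ t * (N * B)) := by
            calc 8 * (S B * σE) = (2 * S B) * (4 * σE) := by ring
              _ ≤ (7 * B) * (7 * k * N) :=
                Nat.mul_le_mul hhi ((Nat.mul_le_mul_left _ hσEN).trans hσN4.le)
              _ = 49 * k * (N * B) := by ring
              _ ≤ (8 * (8 * k)) * (N * B) := Nat.mul_le_mul_right _ (by omega)
              _ ≤ (8 * 2 ^ t) * (N * B) :=
                Nat.mul_le_mul_right _ (Nat.mul_le_mul_left _ h8k)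
              _ = 8 * (2 ^ t * (N * B)) := by ring
          exact Nat.le_of_mul_le_mul_left h1 (by norm_num)) (by
          calc 16 * (N * B) = (16 * N) * B := by ring
            _ ≤ (16 * N) * (2 * S B) := Nat.mul_le_mul_left _ hlo
            _ = (32 * N) * S B := by ring
            _ ≤ (15 * σE) * S B := Nat.mul_le_mul_right _ hcon
            _ = 15 * (S B * σE) := by ring)
      apply hns
      apply rep_scale hNBn hn
      refine ⟨s, ?_, ?_, hsum⟩
      · intro d hd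
        obtain ⟨e, he, x, hx, rfl⟩ := hs d hd
        rw [Nat.mem_divisors]
        exact ⟨Nat.mul_dvd_mul (Nat.dvd_of_mem_divisors (Finset.mem_filter.mp he).1)
          (Nat.mem_properDivisors.mp hx).1, (Nat.mul_pos hN0 hB).ne'⟩
      · intro d hd
        obtain ⟨e, he, x, hx, rfl⟩ := hs d hd
        calc 2 ^ k * (e * x) = (2 ^ k * e) * x := by ring
          _ ≤ N * B := Nat.mul_le_mul (Finset.mem_filter.mp he).2
            (Nat.mem_properDivisors.mp hx).2.le
    -- split N at level t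
    obtain ⟨N₁, N₂, hN12, hN1, hN2⟩ := exists_split t N hN0
    have hN10 : 0 < N₁ := Nat.pos_of_ne_zero (fun h0 => by rw [hN12, h0, zero_mul] at hN0; omega)
    have hN20 : 0 < N₂ := Nat.pos_of_ne_zero (fun h0 => by rw [hN12, h0, mul_zero] at hN0; omega)
    have hN1R : (0 : ℝ) < N₁ := by exact_mod_cast hN10
    have hN2R : (0 : ℝ) < N₂ := by exact_mod_cast hN20
    have hcop12 := coprime_of_split hN1 hN2
    have hσ1 := smooth_sigma_le hN10 (by omega) hN1
    have hσ2 := middle_sigma_le ht hN20 hN2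
    have hσN12 : ((∑ d ∈ N.divisors, d : ℕ) : ℝ) =
        ((∑ d ∈ N₁.divisors, d : ℕ) : ℝ) * ((∑ d ∈ N₂.divisors, d : ℕ) : ℝ) := by
      rw [hN12, Nat.Coprime.sum_divisors_mul hcop12, Nat.cast_mul]
    have hml := mass_lower hkrt hN10 hN20 hcop12 hN2
    rw [← hN12, ← hE, ← hσE] at hml
    set s := ∑ p ∈ N₂.primeFactors, 1 / (p : ℝ) with hs
    set σ1 := ((∑ d ∈ N₁.divisors, d : ℕ) : ℝ) with hσ1def
    set σ2 := ((∑ d ∈ N₂.divisors, d : ℕ) : ℝ) with hσ2def
    set σR := ((∑ d ∈ R.divisors, d : ℕ) : ℝ) with hσRdef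
    have hσ10 : 0 ≤ σ1 := Nat.cast_nonneg _
    have hσ20 : 0 ≤ σ2 := Nat.cast_nonneg _
    have hσR0 : 0 ≤ σR := Nat.cast_nonneg _
    have hnval : (n : ℝ) = N₁ * N₂ * R := by rw [hnNR, hN12]; push_cast; ring
    rcases le_or_gt 1 s with hs1 | hs1
    · -- s ≥ 1
      have hfac0 : (0 : ℝ) < (r.factorial : ℝ) := by exact_mod_cast Nat.factorial_pos _
      have hMr := Mr_lower N₂.primeFactors (fun p => 1 / (p : ℝ)) (fun p => by positivity) hr
        (sum_inv_sq_le N₂.primeFactors Nat.one_le_two_pow (fun p hp =>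
          hN2 p (Nat.prime_of_mem_primeFactors hp) (Nat.dvd_of_mem_primeFactors hp))) (by
          have h1 : ((64 * r.factorial : ℕ) : ℝ) ≤ ((2 ^ t : ℕ) : ℝ) := by exact_mod_cast hfac
          have h2 : (0 : ℝ) < ((2 ^ t : ℕ) : ℝ) := by positivity
          rw [mul_div_assoc', div_le_one h2]
          push_cast at h1 ⊢
          linarith) hs1
      rw [← hs] at hMr
      set M := Mr N₂.primeFactors (fun p => 1 / (p : ℝ)) r with hM
      have hmassR : 15 * (σE : ℝ) ≤ 32 * N := by exact_mod_cast hmass.le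
      -- σ(N) ≤ 6.41 r! N
      have h1 : σ1 * σ2 ≤ 641 / 100 * r.factorial * N := by
        have h2 : σ1 * σ2 ≤ σ1 * (N₂ * (Real.exp s * (1001 / 1000))) :=
          mul_le_mul_of_nonneg_left hσ2 hσ10
        have h3 : σ1 * (N₂ * (Real.exp s * (1001 / 1000))) ≤
            σ1 * (N₂ * ((3 * (r.factorial : ℝ) * M) * (1001 / 1000))) := by
          gcongr
        have h4 : σ1 * (N₂ * ((3 * (r.factorial : ℝ) * M) * (1001 / 1000))) =
            (3003 / 1000 * r.factorial) * (σ1 * (N₂ * M)) := by ring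
        have h5 : (3003 / 1000 * (r.factorial : ℝ)) * (σ1 * (N₂ * M)) ≤
            (3003 / 1000 * r.factorial) * σE :=
          mul_le_mul_of_nonneg_left hml (by positivity)
        have h6 : (3003 / 1000 * (r.factorial : ℝ)) * σE ≤
            (3003 / 1000 * r.factorial) * (32 / 15 * N) := by
          apply mul_le_mul_of_nonneg_left _ (by positivity)
          linarith
        have h7 : 0 ≤ (r.factorial : ℝ) * N := by positivity
        nlinarith
      have hcon : ((∑ d ∈ n.divisors, d : ℕ) : ℝ) < 32 * r.factorial * n := by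
        rw [hσn, hσN12, hnNR, Nat.cast_mul]
        calc σ1 * σ2 * σR ≤ (641 / 100 * r.factorial * N) * (R * (9 / 2 * (10985 / 10000))) :=
              mul_le_mul h1 hσR hσR0 (by positivity)
          _ = 641 / 100 * (9 / 2 * (10985 / 10000)) * ((r.factorial : ℝ) * (N * R)) := by ring
          _ < 32 * ((r.factorial : ℝ) * (N * R)) := by
              apply mul_lt_mul_of_pos_right _ (by positivity)
              norm_num
          _ = 32 * r.factorial * (N * R) := by ring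
      linarith
    · -- s < 1
      have hexp : Real.exp s ≤ 27183 / 10000 := by
        have h1 := Real.exp_one_lt_d9
        have h2 : Real.exp s ≤ Real.exp 1 := Real.exp_le_exp.mpr hs1.le
        linarith
      have hσ2' : σ2 ≤ N₂ * (27183 / 10000 * (1001 / 1000)) := by
        refine hσ2.trans (mul_le_mul_of_nonneg_left ?_ hN2R.le)
        exact mul_le_mul_of_nonneg_right hexp (by norm_num)
      have hcon : ((∑ d ∈ n.divisors, d : ℕ) : ℝ) < 22 * t * n := by
        rw [hσn, hσN12, hnval]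
        have ht0 : (0 : ℝ) < t := by linarith
        calc σ1 * σ2 * σR
            ≤ ((1571 / 1000 * t * N₁) * (N₂ * (27183 / 10000 * (1001 / 1000)))) *
              (R * (9 / 2 * (10985 / 10000))) := by
              apply mul_le_mul _ hσR hσR0 (by positivity)
              exact mul_le_mul hσ1 hσ2' hσ20 (by positivity)
          _ = (1571 / 1000 * (27183 / 10000 * (1001 / 1000)) * (9 / 2 * (10985 / 10000))) *
              (t * (N₁ * N₂ * R)) := by ring
          _ < 22 * (t * (N₁ * N₂ * R)) := by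
              apply mul_lt_mul_of_pos_right _ (by positivity)
              norm_num
          _ = 22 * t * (N₁ * N₂ * R) := by ring
      linarith

end Pool.Agent.WeirdK
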