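import Pool.Agent.WeirdK.Core
import Pool.Agent.WeirdK.Mertens

set_option autoImplicit false

namespace Pool.Agent.WeirdK

open Finset Pool.Agent.Weird

theorem sigma_le_prod (n : ℕ) : 0 < n →
    ((∑ d ∈ n.divisors, d : ℕ) : ℝ) ≤
      n * ∏ p ∈ n.primeFactors, ((p : ℝ) / ((p : ℝ) - 1)) := by
  induction n using Nat.recOnPosPrimePosCoprime with
  | zero => intro h; omega
  | one => intro _; simp
  | prime_pow p k hp hk =>
    intro _
    rw [Nat.primeFactors_prime_pow hk.ne' hp, Finset.prod_singleton]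
    rw [Nat.sum_divisors_prime_pow hp]
    have hp2 : (2 : ℝ) ≤ p := by exact_mod_cast hp.two_le
    have hp1 : (0 : ℝ) < (p : ℝ) - 1 := by linarith
    push_cast
    rw [geom_sum_eq (by linarith : (p : ℝ) ≠ 1), div_le_iff₀ hp1]
    have h1 : (p : ℝ) ^ k * ((p : ℝ) / ((p : ℝ) - 1)) * ((p : ℝ) - 1) = (p : ℝ) ^ (k + 1) := by
      rw [pow_succ]
      field_simp
    rw [h1]
    linarith
  | coprime a b ha hb hab iha ihb =>
    intro _
    rw [Nat.Coprime.sum_divisors_mul hab, Nat.Coprime.primeFactors_mul hab,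
      Finset.prod_union hab.disjoint_primeFactors]
    push_cast
    have h1 := iha (by omega)
    have h2 := ihb (by omega)
    push_cast at h1 h2
    calc (∑ d ∈ a.divisors, (d : ℝ)) * ∑ d ∈ b.divisors, (d : ℝ)
        ≤ (a * ∏ p ∈ a.primeFactors, ((p : ℝ) / ((p : ℝ) - 1))) *
          (b * ∏ p ∈ b.primeFactors, ((p : ℝ) / ((p : ℝ) - 1))) := by
          apply mul_le_mul h1 h2
          · positivity
          · exact le_trans (by positivity) h1
      _ = _ := by ring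

theorem one_le_g {p : ℕ} (hp : p.Prime) : (1 : ℝ) ≤ (p : ℝ) / ((p : ℝ) - 1) := by
  have hp2 : (2 : ℝ) ≤ p := by exact_mod_cast hp.two_le
  rw [le_div_iff₀ (by linarith)]
  linarith

theorem prod_le_of_subset {s t : Finset ℕ} (hst : s ⊆ t) (f : ℕ → ℝ)
    (hf : ∀ p ∈ t, 1 ≤ f p) : ∏ p ∈ s, f p ≤ ∏ p ∈ t, f p := by
  classical
  rw [← Finset.prod_sdiff hst]
  have h1 : 1 ≤ ∏ p ∈ t \ s, f p := by
    rw [← Finset.prod_const_one (s := t \ s)]
    apply Finset.prod_le_prod (fun _ _ => zero_le_one)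
    intro p hp
    exact hf p (Finset.mem_sdiff.mp hp).1
  have h2 : 0 ≤ ∏ p ∈ s, f p :=
    Finset.prod_nonneg (fun p hp => le_trans zero_le_one (hf p (hst hp)))
  nlinarith

/-- The primes of `n` above `2^k`, in dyadic blocks. -/
theorem large_prod {n U : ℕ} (k : ℕ) (hU : n < 2 ^ U) (f : ℕ → ℝ) :
    ∏ p ∈ n.primeFactors.filter (fun p => ¬ p < 2 ^ k), f p =
        ∏ i ∈ Finset.Ico k U, ∏ p ∈ Pk n i, f p := by
  have hmaps : ∀ p ∈ n.primeFactors.filter (fun p => ¬ p < 2 ^ k),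
      Nat.log 2 p ∈ Finset.Ico k U := by
    intro p hp
    rw [Finset.mem_filter] at hp
    have hpp := Nat.prime_of_mem_primeFactors hp.1
    have hpn : p ≤ n := Nat.le_of_mem_primeFactors hp.1
    rw [Finset.mem_Ico]
    constructor
    · exact Nat.le_log_of_pow_le (by norm_num) (by omega)
    · exact Nat.log_lt_of_lt_pow hpp.ne_zero (by omega)
  rw [← Finset.prod_fiberwise_of_maps_to hmaps]
  apply Finset.prod_congr rfl
  intro i hi
  apply Finset.prod_congr _ (fun _ _ => rfl)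
  ext p
  unfold Pk
  rw [Finset.mem_filter, Finset.mem_filter, Finset.mem_filter]
  rw [Finset.mem_Ico] at hi
  constructor
  · rintro ⟨⟨h1, h2⟩, h3⟩
    have hpp := Nat.prime_of_mem_primeFactors h1
    refine ⟨h1, ?_, ?_⟩
    · rw [← h3]; exact Nat.pow_log_le_self 2 hpp.ne_zero
    · rw [← h3]; exact Nat.lt_pow_succ_log_self (by norm_num) p
  · rintro ⟨h1, h2, h3⟩
    have h4 : 2 ^ k ≤ 2 ^ i := Nat.pow_le_pow_right (by norm_num) hi.1
    refine ⟨⟨h1, by omega⟩, ?_⟩
    exact (Nat.log_eq_iff (Or.inr ⟨by norm_num, by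
      have := Nat.prime_of_mem_primeFactors h1
      exact this.ne_zero⟩)).mpr ⟨h2, h3⟩

/-- One block of the product. -/
theorem block_le (n i : ℕ) (hi : 1 ≤ i) :
    ∏ p ∈ Pk n i, ((p : ℝ) / ((p : ℝ) - 1)) ≤
      pk n i * Real.exp (1 / (Lf i : ℝ) + 2 / (2 : ℝ) ^ i) := by
  have hLf : (0 : ℝ) < (Lf i : ℝ) := by exact_mod_cast Lf_pos i
  have h2i : (2 : ℝ) ≤ 2 ^ i := by
    calc (2 : ℝ) = 2 ^ 1 := (pow_one _).symm
      _ ≤ 2 ^ i := pow_le_pow_right₀ (by norm_num) hi
  have hcard : ((Pk n i).card : ℝ) ≤ 2 ^ i := by exact_mod_cast card_Pk_le n i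
  have hsplit : ∏ p ∈ Pk n i, ((p : ℝ) / ((p : ℝ) - 1)) =
      (∏ p ∈ Pk n i, (1 + 1 / (p : ℝ))) * ∏ p ∈ Pk n i, (1 + 1 / ((p : ℝ) ^ 2 - 1)) := by
    rw [← Finset.prod_mul_distrib]
    apply Finset.prod_congr rfl
    intro p hp
    have hp2 : (2 : ℝ) ≤ p := by exact_mod_cast (Pk_prime hp).1.two_le
    have h1 : (p : ℝ) - 1 ≠ 0 := by linarith
    have h2 : (p : ℝ) ^ 2 - 1 ≠ 0 := by nlinarith
    have h3 : (p : ℝ) ^ 2 - 1 = ((p : ℝ) - 1) * (p + 1) := by ring
    have h4 : (p : ℝ) + 1 ≠ 0 := by linarith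
    rw [h3]
    field_simp
    ring
  have hsecond : ∏ p ∈ Pk n i, (1 + 1 / ((p : ℝ) ^ 2 - 1)) ≤ Real.exp (2 / (2 : ℝ) ^ i) := by
    have hterm : ∀ p ∈ Pk n i, (1 + 1 / ((p : ℝ) ^ 2 - 1)) ≤
        Real.exp (2 / ((2 : ℝ) ^ i) ^ 2) := by
      intro p hp
      have h3 : ((2 ^ i : ℕ) : ℝ) ≤ p := by exact_mod_cast (Pk_prime hp).2.1
      push_cast at h3
      have h4 := Real.add_one_le_exp (2 / ((2 : ℝ) ^ i) ^ 2)
      refine le_trans ?_ h4
      have h5 : (4 : ℝ) ≤ ((2 : ℝ) ^ i) ^ 2 := by nlinarith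
      have h6 : ((2 : ℝ) ^ i) ^ 2 ≤ (p : ℝ) ^ 2 := by nlinarith
      have h7 : 1 / ((p : ℝ) ^ 2 - 1) ≤ 2 / ((2 : ℝ) ^ i) ^ 2 := by
        rw [div_le_div_iff₀ (by linarith) (by positivity)]
        nlinarith
      linarith
    calc ∏ p ∈ Pk n i, (1 + 1 / ((p : ℝ) ^ 2 - 1))
        ≤ ∏ p ∈ Pk n i, Real.exp (2 / ((2 : ℝ) ^ i) ^ 2) := by
          apply Finset.prod_le_prod _ hterm
          intro p hp
          have hp2 : (2 : ℝ) ≤ p := by exact_mod_cast (Pk_prime hp).1.two_le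
          have : (0 : ℝ) ≤ 1 / ((p : ℝ) ^ 2 - 1) := by
            apply div_nonneg zero_le_one
            nlinarith
          linarith
      _ = Real.exp ((Pk n i).card * (2 / ((2 : ℝ) ^ i) ^ 2)) := by
          rw [← Real.exp_sum, Finset.sum_const, nsmul_eq_mul]
      _ ≤ Real.exp (2 / (2 : ℝ) ^ i) := by
          apply Real.exp_le_exp.mpr
          calc ((Pk n i).card : ℝ) * (2 / ((2 : ℝ) ^ i) ^ 2)
              ≤ 2 ^ i * (2 / ((2 : ℝ) ^ i) ^ 2) :=
                mul_le_mul_of_nonneg_right hcard (by positivity)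
            _ = 2 / 2 ^ i := by field_simp
  have hfirst : ∏ p ∈ Pk n i, (1 + 1 / (p : ℝ)) ≤ pk n i * Real.exp (1 / (Lf i : ℝ)) := by
    by_cases hd : DenseL n i
    · unfold pk
      rw [if_pos hd]
      have h0 : 0 ≤ ∏ p ∈ Pk n i, (1 + 1 / (p : ℝ)) :=
        Finset.prod_nonneg (fun p _ => by positivity)
      have h1 : 1 ≤ Real.exp (1 / (Lf i : ℝ)) := Real.one_le_exp (by positivity)
      nlinarith
    · unfold pk
      rw [if_neg hd, one_mul]
      calc ∏ p ∈ Pk n i, (1 + 1 / (p : ℝ)) ≤ Real.exp (∑ p ∈ Pk n i, 1 / (p : ℝ)) :=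
            Real.prod_one_add_le_exp_sum _ (fun p => by positivity)
        _ ≤ Real.exp (1 / (Lf i : ℝ)) := by
          apply Real.exp_le_exp.mpr
          refine (sk_le_one n i).trans ?_
          unfold DenseL at hd
          push Not at hd
          have h2 : (((Pk n i).card * Lf i : ℕ) : ℝ) ≤ ((2 ^ i : ℕ) : ℝ) := by
            exact_mod_cast hd.le
          push_cast at h2
          rw [div_le_div_iff₀ (by positivity) hLf, one_mul]
          exact h2
  rw [hsplit, Real.exp_add, ← mul_assoc]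
  apply mul_le_mul hfirst hsecond
  · apply Finset.prod_nonneg
    intro p hp
    have hp2 : (2 : ℝ) ≤ p := by exact_mod_cast (Pk_prime hp).1.two_le
    have : (0 : ℝ) ≤ 1 / ((p : ℝ) ^ 2 - 1) := by
      apply div_nonneg zero_le_one
      nlinarith
    linarith
  · exact mul_nonneg (pk_nonneg n i) (Real.exp_nonneg _)

/-- `1 / 2^(i/6)` summed over six consecutive values. -/
theorem sum_Lf_aux (b : ℕ) : ∀ j, 1 / (Lf (40 + 6 * b + j) : ℝ) ≤
    1 / 2 ^ b * (1 / 2 ^ (j / 6)) := by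
  intro j
  unfold Lf
  have h : (40 + 6 * b + j - 40) / 6 = b + j / 6 := by omega
  rw [h]
  push_cast
  rw [pow_add]
  apply le_of_eq
  field_simp

theorem sum_six (N : ℕ) : ∑ j ∈ Finset.range (6 * N), (1 / (2 : ℝ) ^ (j / 6)) ≤ 12 := by
  have h : ∀ N, ∑ j ∈ Finset.range (6 * N), (1 / (2 : ℝ) ^ (j / 6)) = 12 - 12 / 2 ^ N := by
    intro N
    induction N with
    | zero => simp
    | succ N ih =>
      rw [show 6 * (N + 1) = 6 * N + 1 + 1 + 1 + 1 + 1 + 1 by ring]
      simp only [Finset.sum_range_succ]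
      rw [ih]
      have e0 : (6 * N) / 6 = N := by omega
      have e1 : (6 * N + 1) / 6 = N := by omega
      have e2 : (6 * N + 1 + 1) / 6 = N := by omega
      have e3 : (6 * N + 1 + 1 + 1) / 6 = N := by omega
      have e4 : (6 * N + 1 + 1 + 1 + 1) / 6 = N := by omega
      have e5 : (6 * N + 1 + 1 + 1 + 1 + 1) / 6 = N := by omega
      rw [e0, e1, e2, e3, e4, e5, pow_succ]
      field_simp
      ring
  rw [h N]
  have : (0 : ℝ) ≤ 12 / 2 ^ N := by positivity
  linarith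

/-- `∑_{i ≥ 82} 1 / L i ≤ 3 / 32`. -/
theorem sum_Lf (k K : ℕ) (hk : 82 ≤ k) :
    ∑ i ∈ Finset.Ico k K, 1 / (Lf i : ℝ) ≤ 3 / 32 := by
  have h1 : ∑ i ∈ Finset.Ico k K, 1 / (Lf i : ℝ) ≤
      ∑ i ∈ Finset.Ico (0 + 82) (6 * K + 82), 1 / (Lf i : ℝ) := by
    apply Finset.sum_le_sum_of_subset_of_nonneg
    · intro i hi
      rw [Finset.mem_Ico] at *
      omega
    · intro i _ _
      positivity
  refine h1.trans ?_
  rw [← Finset.sum_Ico_add (fun i => 1 / (Lf i : ℝ)) 0 (6 * K) 82, ← Finset.range_eq_Ico]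
  calc ∑ j ∈ Finset.range (6 * K), 1 / (Lf (82 + j) : ℝ)
      ≤ ∑ j ∈ Finset.range (6 * K), 1 / 2 ^ 7 * (1 / (2 : ℝ) ^ (j / 6)) := by
        apply Finset.sum_le_sum
        intro j _
        exact sum_Lf_aux 7 j
    _ = 1 / 2 ^ 7 * ∑ j ∈ Finset.range (6 * K), (1 / (2 : ℝ) ^ (j / 6)) :=
        (Finset.mul_sum _ _ _).symm
    _ ≤ 1 / 2 ^ 7 * 12 := mul_le_mul_of_nonneg_left (sum_six K) (by positivity)
    _ = 3 / 32 := by norm_num

theorem exp_small : Real.exp (3 / 32 + 1 / 10000) ≤ 10985 / 10000 := by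
  have h := Real.exp_bound' (x := 3 / 32 + 1 / 10000) (by norm_num) (by norm_num)
    (n := 4) (by norm_num)
  refine h.trans ?_
  norm_num [Finset.sum_range_succ, Nat.factorial]

/-- The primes `≥ 2^k` of `n`, in terms of the dense blocks. -/
theorem large_le {n k U : ℕ} (hk : 82 ≤ k) (hkU : k ≤ U) (hU : n < 2 ^ U) {c : ℝ} (hc : 0 ≤ c)
    (hD : ∏ i ∈ Finset.Ico k U, pk n i ≤
      c * ∏ i ∈ Finset.Ico k U, (1 + 2 / (2 : ℝ) ^ i)) :
    ∏ p ∈ n.primeFactors.filter (fun p => ¬ p < 2 ^ k), ((p : ℝ) / ((p : ℝ) - 1)) ≤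
      c * (10985 / 10000) := by
  rw [large_prod k hU]
  have h1 : ∏ i ∈ Finset.Ico k U, ∏ p ∈ Pk n i, ((p : ℝ) / ((p : ℝ) - 1)) ≤
      ∏ i ∈ Finset.Ico k U,
        (pk n i * Real.exp (1 / (Lf i : ℝ) + 2 / (2 : ℝ) ^ i)) := by
    apply Finset.prod_le_prod
    · intro i _
      apply Finset.prod_nonneg
      intro p hp
      exact le_trans zero_le_one (one_le_g (Pk_prime hp).1)
    · intro i hi
      rw [Finset.mem_Ico] at hi
      exact block_le n i (by omega)
  refine h1.trans ?_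
  rw [Finset.prod_mul_distrib, ← Real.exp_sum, Finset.sum_add_distrib]
  have h3 : ∏ i ∈ Finset.Ico k U, (1 + 2 / (2 : ℝ) ^ i) ≤
      Real.exp (∑ i ∈ Finset.Ico k U, 2 / (2 : ℝ) ^ i) :=
    Real.prod_one_add_le_exp_sum _ (fun i => by positivity)
  have h4 := sum_two_pow k U hkU
  have h5 := sum_Lf k U hk
  set a := ∑ i ∈ Finset.Ico k U, 1 / (Lf i : ℝ) with ha
  set b := ∑ i ∈ Finset.Ico k U, 2 / (2 : ℝ) ^ i with hb
  have h6 : b ≤ 1 / 20000 := by
    rw [h4]
    have h7 : (0 : ℝ) ≤ 4 / 2 ^ U := by positivity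
    have h8 : (4 : ℝ) / 2 ^ k ≤ 4 / 2 ^ 82 := by
      apply div_le_div_of_nonneg_left (by norm_num) (by positivity)
      exact pow_le_pow_right₀ (by norm_num) hk
    have h9 : (4 : ℝ) / 2 ^ 82 ≤ 1 / 20000 := by norm_num
    linarith
  calc (∏ i ∈ Finset.Ico k U, pk n i) * Real.exp (a + b)
      ≤ (c * Real.exp b) * Real.exp (a + b) := by
        apply mul_le_mul_of_nonneg_right _ (Real.exp_nonneg _)
        refine hD.trans ?_
        exact mul_le_mul_of_nonneg_left h3 hc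
    _ = c * Real.exp (a + (b + b)) := by
        rw [Real.exp_add, Real.exp_add, Real.exp_add]
        ring
    _ ≤ c * (10985 / 10000) := by
        apply mul_le_mul_of_nonneg_left _ hc
        refine le_trans (Real.exp_le_exp.mpr ?_) exp_small
        linarith

theorem exists_split (j n : ℕ) : 0 < n → ∃ N R, n = N * R ∧
    (∀ p, p.Prime → p ∣ N → p < 2 ^ j) ∧ (∀ p, p.Prime → p ∣ R → 2 ^ j ≤ p) := by
  induction n using induction_on_primes with
  | zero => intro h; omega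
  | one =>
    intro _
    refine ⟨1, 1, rfl, ?_, ?_⟩
    · intro p hp h
      exact absurd (Nat.dvd_one.mp h) hp.one_lt.ne'
    · intro p hp h
      exact absurd (Nat.dvd_one.mp h) hp.one_lt.ne'
  | prime_mul q a hq ih =>
    intro h
    obtain ⟨N, R, hNR, hN, hR⟩ := ih (Nat.pos_of_mul_pos_right h |> fun h' => by
      rcases Nat.eq_zero_or_pos a with h0 | h0
      · rw [h0, mul_zero] at h; omega
      · exact h0)
    by_cases hqj : q < 2 ^ j
    · refine ⟨q * N, R, by rw [hNR]; ring, ?_, hR⟩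
      intro p hp hpd
      rcases (Nat.Prime.dvd_mul hp).mp hpd with h1 | h1
      · rw [(Nat.prime_dvd_prime_iff_eq hp hq).mp h1]
        exact hqj
      · exact hN p hp h1
    · refine ⟨N, q * R, by rw [hNR]; ring, hN, ?_⟩
      intro p hp hpd
      rcases (Nat.Prime.dvd_mul hp).mp hpd with h1 | h1
      · rw [(Nat.prime_dvd_prime_iff_eq hp hq).mp h1]
        omega
      · exact hR p hp h1

theorem coprime_of_split {j N R : ℕ} (hN : ∀ p, p.Prime → p ∣ N → p < 2 ^ j)
    (hR : ∀ p, p.Prime → p ∣ R → 2 ^ j ≤ p) : Nat.Coprime N R := by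
  rw [Nat.coprime_iff_gcd_eq_one]
  by_contra hcon
  have hpr := Nat.minFac_prime hcon
  have h1 := hN _ hpr ((Nat.minFac_dvd _).trans (Nat.gcd_dvd_left _ _))
  have h2 := hR _ hpr ((Nat.minFac_dvd _).trans (Nat.gcd_dvd_right _ _))
  omega

/-- Combining the smooth part with a good rough divisor. -/
theorem combine {w N B : ℕ} (E : Finset ℕ) (hw : 16 ≤ w) (hN : 0 < N)
    (hcop : Nat.Coprime N B) (hg : GoodW w B) (hp : ∀ p, p.Prime → p ∣ N → 2 * p ≤ S B)
    (hE : ∀ e ∈ E, e ∣ N) (hE1 : ∀ e ∈ E, e ≠ 1 → e / e.minFac ∈ E)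
    (hlow : S B * ∑ e ∈ E, e ≤ w * (N * B))
    (hhigh : 16 * (N * B) ≤ 15 * (S B * ∑ e ∈ E, e)) :
    ∃ s : Finset ℕ, (∀ d ∈ s, ∃ e ∈ E, ∃ x ∈ B.properDivisors, d = e * x) ∧
      ∑ d ∈ s, d = N * B := by
  obtain ⟨a, hwa, hcov⟩ := hg
  have ha : 16 * a ≤ S B := (Nat.mul_le_mul_right _ hw).trans hwa
  have hcov2 := cov_biUnion hcop hN (by omega : a ≤ S B - a) hcov E hE (by
    intro e he
    rcases eq_or_ne e 1 with h | h
    · exact Or.inl h
    · right
      have hepos : 0 < e := Nat.pos_of_dvd_of_pos (hE e he) hN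
      have hpr := Nat.minFac_prime h
      have hmul : e.minFac * (e / e.minFac) = e := Nat.mul_div_cancel' (Nat.minFac_dvd e)
      have he'pos : 0 < e / e.minFac := by
        rcases Nat.eq_zero_or_pos (e / e.minFac) with h0 | h0
        · rw [h0, mul_zero] at hmul; omega
        · exact h0
      refine ⟨e / e.minFac, hE1 e he h, ?_, ?_⟩
      · have := hpr.one_lt
        nlinarith
      · have h2 := hp e.minFac hpr ((Nat.minFac_dvd e).trans (hE e he))
        calc e = e.minFac * (e / e.minFac) := hmul.symm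
          _ ≤ (S B - a - a) * (e / e.minFac) := Nat.mul_le_mul_right _ (by omega))
  set σ := ∑ e ∈ E, e with hσ
  have h1 : a * σ ≤ N * B := by
    have h2 : w * (a * σ) ≤ w * (N * B) := by
      calc w * (a * σ) = (w * a) * σ := by ring
        _ ≤ S B * σ := Nat.mul_le_mul_right _ hwa
        _ ≤ w * (N * B) := hlow
    exact Nat.le_of_mul_le_mul_left h2 (by omega)
  have h3 : N * B ≤ (S B - a) * σ := by
    have h4 : 15 * S B ≤ 16 * (S B - a) := by omega
    have h5 : 16 * (N * B) ≤ 16 * ((S B - a) * σ) := by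
      calc 16 * (N * B) ≤ 15 * (S B * σ) := hhigh
        _ = (15 * S B) * σ := by ring
        _ ≤ (16 * (S B - a)) * σ := Nat.mul_le_mul_right _ h4
        _ = 16 * ((S B - a) * σ) := by ring
    omega
  obtain ⟨s, hs, hsum⟩ := hcov2 (N * B) h1 h3
  refine ⟨s, ?_, hsum⟩
  intro d hd
  have := hs hd
  rw [Finset.mem_biUnion] at this
  obtain ⟨e, he, hd'⟩ := this
  rw [Finset.mem_image] at hd'
  obtain ⟨x, hx, rfl⟩ := hd'
  exact ⟨e, he, x, hx, rfl⟩

theorem rep_scale {K m n : ℕ} (hmn : m ∣ n) (hn : 0 < n) (h : Rep K m) : Rep K n := by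
  classical
  obtain ⟨c, rfl⟩ := hmn
  obtain ⟨s, hs, hK, hsum⟩ := h
  have hc : 0 < c := Nat.pos_of_ne_zero (fun h0 => by rw [h0, mul_zero] at hn; omega)
  refine ⟨s.image (fun x => x * c), ?_, ?_, ?_⟩
  · intro x hx
    rw [Finset.mem_image] at hx
    obtain ⟨y, hy, rfl⟩ := hx
    rw [Nat.mem_divisors]
    exact ⟨Nat.mul_dvd_mul_right (Nat.dvd_of_mem_divisors (hs hy)) _, hn.ne'⟩
  · intro x hx
    rw [Finset.mem_image] at hx
    obtain ⟨y, hy, rfl⟩ := hx
    calc K * (y * c) = K * y * c := (mul_assoc _ _ _).symm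
      _ ≤ m * c := Nat.mul_le_mul_right _ (hK y hy)
  · rw [Finset.sum_image, ← Finset.sum_mul, hsum]
    intro x _ y _ hxy
    exact Nat.eq_of_mul_eq_mul_right hc hxy

theorem proper_small {k B x : ℕ} (hB : ∀ p, p.Prime → p ∣ B → 2 ^ k ≤ p)
    (hx : x ∈ B.properDivisors) : 2 ^ k * x ≤ B := by
  have hx' := Nat.mem_properDivisors.mp hx
  obtain ⟨e, he⟩ := hx'.1
  have he1 : e ≠ 1 := by
    intro h1
    rw [h1, mul_one] at he
    omega
  have hpr := Nat.minFac_prime he1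
  have h1 : e.minFac ∣ B := (Nat.minFac_dvd e).trans (he ▸ Dvd.intro_left _ rfl)
  have h2 := hB _ hpr h1
  have he0 : 0 < e := Nat.pos_of_ne_zero (fun h0 => by
    rw [h0, mul_zero] at he
    omega)
  have h3 : 2 ^ k ≤ e := h2.trans (Nat.minFac_le he0)
  calc 2 ^ k * x ≤ e * x := Nat.mul_le_mul_right _ h3
    _ = B := by rw [he, mul_comm]

/-- `σ` of a number all of whose primes are below `2^k`. -/
theorem smooth_sigma_le {k N : ℕ} (hN : 0 < N) (hk : 14 ≤ k)
    (hNp : ∀ p, p.Prime → p ∣ N → p < 2 ^ k) :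
    ((∑ d ∈ N.divisors, d : ℕ) : ℝ) ≤ 1571 / 1000 * k * N := by
  have hNR : (0 : ℝ) < N := by exact_mod_cast hN
  have h1 := sigma_le_prod N hN
  have h3 : ∏ p ∈ N.primeFactors, ((p : ℝ) / ((p : ℝ) - 1)) ≤
      ∏ p ∈ PB k, ((p : ℝ) / ((p : ℝ) - 1)) := by
    apply prod_le_of_subset
    · intro p hp
      have hpp := Nat.prime_of_mem_primeFactors hp
      exact mem_PB.mpr ⟨hNp p hpp (Nat.dvd_of_mem_primeFactors hp), hpp⟩
    · intro p hp
      exact one_le_g (mem_PB.mp hp).2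
  have h4 := prod_PB_le k hk
  calc ((∑ d ∈ N.divisors, d : ℕ) : ℝ)
      ≤ N * ∏ p ∈ N.primeFactors, ((p : ℝ) / ((p : ℝ) - 1)) := h1
    _ ≤ N * (1571 / 1000 * k) := mul_le_mul_of_nonneg_left (h3.trans h4) hNR.le
    _ = 1571 / 1000 * k * N := by ring

/-- `σ` of the rough part. -/
theorem rough_sigma_le {j n N R U : ℕ} (hn : 0 < n) (hnNR : n = N * R) (hj : 82 ≤ j)
    (hjU : j ≤ U) (hU : n < 2 ^ U) (hR : ∀ p, p.Prime → p ∣ R → 2 ^ j ≤ p) {c : ℝ}
    (hc : 0 ≤ c) (hD : ∏ i ∈ Finset.Ico j U, pk n i ≤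
      c * ∏ i ∈ Finset.Ico j U, (1 + 2 / (2 : ℝ) ^ i)) :
    ((∑ d ∈ R.divisors, d : ℕ) : ℝ) ≤ R * (c * (10985 / 10000)) := by
  have hR0 : 0 < R := Nat.pos_of_ne_zero (fun h0 => by rw [hnNR, h0, mul_zero] at hn; omega)
  have hRR : (0 : ℝ) < R := by exact_mod_cast hR0
  have h1 := sigma_le_prod R hR0
  refine h1.trans (mul_le_mul_of_nonneg_left ?_ hRR.le)
  refine le_trans ?_ (large_le hj hjU hU hc hD)
  apply prod_le_of_subset
  · intro p hp
    have hpp := Nat.prime_of_mem_primeFactors hp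
    have hpR := Nat.dvd_of_mem_primeFactors hp
    rw [Finset.mem_filter, Nat.mem_primeFactors]
    exact ⟨⟨hpp, hpR.trans (hnNR ▸ Dvd.intro_left _ rfl), hn.ne'⟩, not_lt.mpr (hR p hpp hpR)⟩
  · intro p hp
    exact one_le_g (Nat.prime_of_mem_primeFactors (Finset.mem_filter.mp hp).1)

/-- If `n` is not a sum of distinct divisors `d` with `2^k * d ≤ n` then
`σ(n) / n < 1.75 * k`. -/
theorem abund_lt {n k : ℕ} (hn : 0 < n) (hk : 82 ≤ k) (hns : ¬ Rep (2 ^ k) n) :
    4 * ∑ d ∈ n.divisors, d < 7 * k * n := by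
  have hU : n < 2 ^ (n + k) := lt_of_lt_of_le (Nat.lt_two_pow_self)
    (Nat.pow_le_pow_right (by norm_num) (Nat.le_add_right _ _))
  obtain ⟨B, ⟨hB, hBn, hBp, hBgood, hBsum⟩, hBS⟩ :=
    base_all (K := n + k) hn hns (by omega) le_rfl (by omega)
  obtain ⟨N, R, hnNR, hN, hR⟩ := exists_split k n hn
  have hN0 : 0 < N := Nat.pos_of_ne_zero (fun h0 => by rw [hnNR, h0, zero_mul] at hn; omega)
  have hR0 : 0 < R := Nat.pos_of_ne_zero (fun h0 => by rw [hnNR, h0, mul_zero] at hn; omega)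
  have hNR : (0 : ℝ) < N := by exact_mod_cast hN0
  have hRR : (0 : ℝ) < R := by exact_mod_cast hR0
  have hBR : (0 : ℝ) < B := by exact_mod_cast hB
  have hkR : (82 : ℝ) ≤ k := by exact_mod_cast hk
  have hcopNR := coprime_of_split hN hR
  have hf0 : (0 : ℝ) ≤ (S B : ℝ) / B := by positivity
  have hσR := rough_sigma_le hn hnNR hk (by omega) hU hR (by positivity) hBsum
  have hσN := smooth_sigma_le hN0 (by omega) hN
  have hσn : ((∑ d ∈ n.divisors, d : ℕ) : ℝ) =
      ((∑ d ∈ N.divisors, d : ℕ) : ℝ) * ((∑ d ∈ R.divisors, d : ℕ) : ℝ) := by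
    rw [hnNR, Nat.Coprime.sum_divisors_mul hcopNR, Nat.cast_mul]
  set σN := ((∑ d ∈ N.divisors, d : ℕ) : ℝ) with hσNdef
  have hσN0 : 0 ≤ σN := Nat.cast_nonneg _
  -- the key inequality
  have hkey : (S B : ℝ) / B * σN ≤ 16 / 15 * N := by
    rcases hBgood with hB1 | ⟨hgB, hSB⟩
    · rw [hB1, S_one, Nat.cast_zero, zero_div, zero_mul]
      positivity
    · by_contra hcon
      push Not at hcon
      have hcopNB : Nat.Coprime N B := coprime_of_split hN hBp
      have hBRd : B ∣ R := hcopNB.symm.dvd_of_dvd_mul_left (hnNR ▸ hBn)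
      have hNBn : N * B ∣ n := hnNR ▸ Nat.mul_dvd_mul_left _ hBRd
      have hw : 16 ≤ 2 ^ k := by
        calc 16 = 2 ^ 4 := by norm_num
          _ ≤ 2 ^ k := Nat.pow_le_pow_right (by norm_num) (by omega)
      obtain ⟨s, hs, hsum⟩ := combine N.divisors hw hN0 hcopNB hgB (by
          intro p hp hpN
          have h1 := hN p hp hpN
          have h2 : 2 ^ (k + 2) = 4 * 2 ^ k := by ring
          omega) (fun e he => Nat.dvd_of_mem_divisors he) (by
          intro e he _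
          rw [Nat.mem_divisors]
          exact ⟨(Nat.div_dvd_of_dvd (Nat.minFac_dvd e)).trans (Nat.dvd_of_mem_divisors he),
            hN0.ne'⟩) (by
          have h2k : 2 * k ≤ 2 ^ k := by
            have : ∀ m, 3 ≤ m → 2 * m ≤ 2 ^ m := by
              intro m hm
              induction m, hm using Nat.le_induction with
              | base => norm_num
              | succ m hm ih =>
                rw [pow_succ]
                omega
            exact this k (by omega)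
          have h2kR : 2 * (k : ℝ) ≤ 2 ^ k := by exact_mod_cast h2k
          have h1 : ((S B * ∑ e ∈ N.divisors, e : ℕ) : ℝ) ≤ ((2 ^ k * (N * B) : ℕ) : ℝ) := by
            rw [Nat.cast_mul, ← hσNdef]
            have h3 : (S B : ℝ) ≤ 16 / 15 * B := by
              have h : ((15 * S B : ℕ) : ℝ) ≤ ((16 * B : ℕ) : ℝ) := by exact_mod_cast hBS.le
              push_cast at h
              linarith
            push_cast
            calc (S B : ℝ) * σN ≤ (16 / 15 * B) * (1571 / 1000 * k * N) :=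
                  mul_le_mul h3 hσN hσN0 (by positivity)
              _ ≤ (2 * (k : ℝ)) * (N * B) := by
                have : 0 ≤ (k : ℝ) * (N * B) := by positivity
                nlinarith
              _ ≤ 2 ^ k * (N * B) := mul_le_mul_of_nonneg_right h2kR (by positivity)
          exact_mod_cast h1) (by
          have h1 : ((16 * (N * B) : ℕ) : ℝ) ≤
              ((15 * (S B * ∑ e ∈ N.divisors, e) : ℕ) : ℝ) := by
            rw [Nat.cast_mul, Nat.cast_mul, Nat.cast_mul, Nat.cast_mul, ← hσNdef]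
            have hcon2 : 16 / 15 * (N : ℝ) * B < S B * σN := by
              have h := (lt_div_iff₀ hBR).mp (show 16 / 15 * (N : ℝ) < (S B * σN) / B by
                rw [← div_mul_eq_mul_div]
                exact hcon)
              exact h
            push_cast
            linarith
          exact_mod_cast h1)
      apply hns
      apply rep_scale hNBn hn
      refine ⟨s, ?_, ?_, hsum⟩
      · intro d hd
        obtain ⟨e, he, x, hx, rfl⟩ := hs d hd
        rw [Nat.mem_divisors]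
        exact ⟨Nat.mul_dvd_mul (Nat.dvd_of_mem_divisors he) (Nat.mem_properDivisors.mp hx).1,
          (Nat.mul_pos hN0 hB).ne'⟩
      · intro d hd
        obtain ⟨e, he, x, hx, rfl⟩ := hs d hd
        calc 2 ^ k * (e * x) = e * (2 ^ k * x) := by ring
          _ ≤ N * B := Nat.mul_le_mul (Nat.le_of_dvd hN0 (Nat.dvd_of_mem_divisors he))
            (proper_small hBp hx)
  have hfin : ((∑ d ∈ n.divisors, d : ℕ) : ℝ) ≤
      10985 / 10000 * (1571 / 1000 * k + 16 / 15) * n := by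
    rw [hσn, hnNR, Nat.cast_mul]
    calc σN * ((∑ d ∈ R.divisors, d : ℕ) : ℝ)
        ≤ σN * (R * ((1 + (S B : ℝ) / B) * (10985 / 10000))) :=
          mul_le_mul_of_nonneg_left hσR hσN0
      _ = 10985 / 10000 * (σN + (S B : ℝ) / B * σN) * R := by ring
      _ ≤ 10985 / 10000 * (1571 / 1000 * k * N + 16 / 15 * N) * R := by
          gcongr
      _ = 10985 / 10000 * (1571 / 1000 * k + 16 / 15) * (N * R) := by ring
  have hnR : (0 : ℝ) < n := by exact_mod_cast hn
  have h8 : 4 * ((∑ d ∈ n.divisors, d : ℕ) : ℝ) < 7 * k * n := by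
    calc 4 * ((∑ d ∈ n.divisors, d : ℕ) : ℝ)
        ≤ 4 * (10985 / 10000 * (1571 / 1000 * k + 16 / 15) * n) := by linarith
      _ = 4 * (10985 / 10000 * (1571 / 1000 * k + 16 / 15)) * n := by ring
      _ < 7 * k * n := by
        apply mul_lt_mul_of_pos_right _ hnR
        linarith
  exact_mod_cast h8

end Pool.Agent.WeirdK
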